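import Pool.Agent.MP_39e5ce_co.ps.Spec

/-!
Project PS, row BAS: an almost maximal determinant gives a well conditioned family of functionals.
-/

noncomputable section

open Set Matrix

namespace Pool.Agent.MP_39e5ce_co.PS

/-- a spanning set of rows has a tuple with nonzero determinant -/
theorem bas_exdet {n : ℕ} (S : Set (Fin n → ℝ)) (hS : Submodule.span ℝ S = ⊤) :
    ∃ A : Matrix (Fin n) (Fin n) ℝ, (∀ i, A i ∈ S) ∧ A.det ≠ 0 := by
  by_contra hc
  push Not at hc
  have h0 : (Matrix.detRowAlternating : (Fin n → ℝ) [⋀^Fin n]→ₗ[ℝ] ℝ).toMultilinearMap = 0 := by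
    refine MultilinearMap.ext_of_span_eq_top (g := fun _ : Fin n => fun x : S => (x : Fin n → ℝ))
      (fun _ => by rw [Subtype.range_coe]; exact hS) (fun j => ?_)
    exact hc (Matrix.of fun i => (j i : Fin n → ℝ)) (fun i => (j i).2)
  have h1 := congrArg (fun f : MultilinearMap ℝ (fun _ : Fin n => Fin n → ℝ) ℝ =>
    f (1 : Matrix (Fin n) (Fin n) ℝ)) h0
  have h2 : (1 : Matrix (Fin n) (Fin n) ℝ).det = 0 := h1
  simp at h2

/-- rows with almost maximal determinant express every member with small coefficients -/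
theorem bas_rows {n : ℕ} (S : Set (Fin n → ℝ)) (hS : Submodule.span ℝ S = ⊤) (C : ℝ)
    (hC : ∀ v ∈ S, ∀ j, |v j| ≤ C) :
    ∃ A : Matrix (Fin n) (Fin n) ℝ, (∀ i, A i ∈ S) ∧
      ∀ v ∈ S, ∃ c : Fin n → ℝ, (∀ i, |c i| ≤ 2) ∧ ∀ j, v j = ∑ i, c i * A i j := by
  obtain ⟨A0, hA0, hd0⟩ := bas_exdet S hS
  set D : Set ℝ := {t | ∃ A : Matrix (Fin n) (Fin n) ℝ, (∀ i, A i ∈ S) ∧ t = |A.det|} with hD
  have hb : BddAbove D := by
    refine ⟨(Nat.factorial (Fintype.card (Fin n))) • C ^ Fintype.card (Fin n), ?_⟩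
    rintro t ⟨A, hA, rfl⟩
    exact Matrix.det_le (abv := AbsoluteValue.abs) (fun i j => hC _ (hA i) j)
  have hm0 : |A0.det| ∈ D := ⟨A0, hA0, rfl⟩
  have hpos : 0 < sSup D := (abs_pos.2 hd0).trans_le (le_csSup hb hm0)
  obtain ⟨t, ⟨A, hA, rfl⟩, ht⟩ := exists_lt_of_lt_csSup ⟨_, hm0⟩ (half_lt_self hpos)
  have hA1 : 0 < |A.det| := (half_pos hpos).trans ht
  have hA2 : A.det ≠ 0 := abs_pos.1 hA1
  refine ⟨A, hA, fun v hv => ⟨fun i => (A.updateRow i v).det / A.det, fun i => ?_, fun j => ?_⟩⟩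
  · have h1 : |(A.updateRow i v).det| ≤ sSup D := by
      refine le_csSup hb ⟨_, fun k => ?_, rfl⟩
      by_cases hk : k = i
      · subst hk; rw [Matrix.updateRow_self]; exact hv
      · rw [Matrix.updateRow_ne hk]; exact hA k
    rw [abs_div, div_le_iff₀ hA1]
    linarith
  · have h1 := congrFun (Matrix.mulVec_cramer Aᵀ v) j
    simp only [Matrix.mulVec, dotProduct, Matrix.transpose_apply, Matrix.cramer_transpose_apply,
      Matrix.det_transpose, Pi.smul_apply, smul_eq_mul] at h1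
    have h2 : ∑ i, (A.updateRow i v).det / A.det * A i j =
        (∑ i, A i j * (A.updateRow i v).det) / A.det := by
      rw [Finset.sum_div]
      exact Finset.sum_congr rfl fun i _ => by ring
    rw [h2, h1]
    field_simp

theorem bas (E : Type) [NormedAddCommGroup E] [NormedSpace ℝ E] [FiniteDimensional ℝ E] :
    BAS E := by
  intro G ν hν hG hu
  let b := Module.finBasis ℝ E
  let r : (E →L[ℝ] ℝ) → Fin (dm E) → ℝ := fun g j => g (b j)
  have hr : ∀ (g : E →L[ℝ] ℝ) (z : E), g z = ∑ j, b.repr z j * r g j := by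
    intro g z
    conv_lhs => rw [← b.sum_repr z, map_sum]
    exact Finset.sum_congr rfl fun j _ => by rw [map_smul, smul_eq_mul]
  have key : ∀ z : E, z ≠ 0 → ∃ g ∈ G, ν * ‖z‖ ≤ g z := by
    intro z hz
    have hn : 0 < ‖z‖ := norm_pos_iff.2 hz
    obtain ⟨g, hg, h⟩ := hu (‖z‖⁻¹ • z) (by rw [norm_smul, norm_inv, norm_norm]; field_simp)
    refine ⟨g, hg, ?_⟩
    rw [map_smul, smul_eq_mul, inv_mul_eq_div, le_div_iff₀ hn] at h
    exact h
  have hS : Submodule.span ℝ (r '' G) = ⊤ := by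
    by_contra hc
    obtain ⟨f, hf0, hf⟩ := Submodule.exists_le_ker_of_lt_top _ (lt_top_iff_ne_top.2 hc)
    let x : Fin (dm E) → ℝ := fun j => f (Pi.single j 1)
    have hfx : ∀ v : Fin (dm E) → ℝ, f v = ∑ j, x j * v j := by
      intro v
      rw [LinearMap.pi_apply_eq_sum_univ f v]
      refine Finset.sum_congr rfl fun j _ => ?_
      rw [smul_eq_mul, mul_comm]
      congr 2
      funext k
      simp [Pi.single_apply, eq_comm]
    have hz : b.equivFun.symm x ≠ 0 := by
      intro h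
      have hx : x = 0 := b.equivFun.symm.map_eq_zero_iff.1 h
      exact hf0 (LinearMap.ext fun v => by simp [hfx v, hx])
    obtain ⟨g, hg, h⟩ := key _ hz
    have h1 : f (r g) = 0 := hf (Submodule.subset_span ⟨g, hg, rfl⟩)
    have h2 : g (b.equivFun.symm x) = 0 := by
      rw [hr, ← h1, hfx]
      refine Finset.sum_congr rfl fun j _ => ?_
      congr 1
      exact congrFun (b.equivFun.apply_symm_apply x) j
    have h3 := mul_pos hν (norm_pos_iff.2 hz)
    linarith
  obtain ⟨A, hA, hc⟩ := bas_rows (r '' G) hS (∑ j, ‖b j‖) (by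
    rintro _ ⟨g, hg, rfl⟩ j
    exact (hG g hg (b j)).trans
      (Finset.single_le_sum (f := fun j => ‖b j‖) (fun _ _ => norm_nonneg _) (Finset.mem_univ j)))
  choose g hg hgA using hA
  refine ⟨g, hg, fun z s hs => ?_⟩
  have hsum : ∀ c : Fin (dm E) → ℝ, (∀ i, |c i| ≤ 2) → ∑ i, c i * g i z ≤ 2 * dm E * s := by
    intro c hc2
    calc ∑ i, c i * g i z ≤ ∑ _i : Fin (dm E), 2 * s := Finset.sum_le_sum fun i _ => by
          refine (le_abs_self _).trans ?_
          rw [abs_mul]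
          exact mul_le_mul (hc2 i) (hs i) (abs_nonneg _) (by norm_num)
      _ = 2 * dm E * s := by simp; ring
  by_cases hz : z = 0
  · have := hsum 0 (fun i => by simp)
    simpa [hz] using this
  · obtain ⟨h, hh, hle⟩ := key z hz
    obtain ⟨c, hc2, hv⟩ := hc (r h) ⟨h, hh, rfl⟩
    refine hle.trans (le_of_eq_of_le ?_ (hsum c hc2))
    rw [hr h z]
    simp only [hv, Finset.mul_sum]
    rw [Finset.sum_comm]
    refine Finset.sum_congr rfl fun i _ => ?_
    rw [hr (g i) z, Finset.mul_sum, hgA i]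
    exact Finset.sum_congr rfl fun j _ => by ring

end Pool.Agent.MP_39e5ce_co.PS

end
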