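import Pool.Agent.MP_39e5ce_co.ps.Spec

/-! Row BBS: the weighted count splits the configuration into tiles cut in half and upper tiles. -/

noncomputable section

open MeasureTheory Metric Set
open scoped Classical

namespace Pool.Agent.MP_39e5ce_co.PS

variable {E : Type} [NormedAddCommGroup E] [NormedSpace ℝ E] [FiniteDimensional ℝ E]
  [MeasurableSpace E] [BorelSpace E] (μ : Measure E) [μ.IsAddHaarMeasure]

theorem bbs_pack (h1 : μ (ball 0 1) = 1) {φ : E →L[ℝ] ℝ} {X : Finset E} (hX : Cfg φ X) :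
    Pack μ 0 X fun x => ball ((2 : ℝ) • x) 1 where
  nm := hX.nm
  ms := fun _ _ => measurableSet_ball
  sub := fun _ _ => Subset.rfl
  dj := fun x hx y hy n => ball_disjoint_ball (by
    have := hX.sep x hx y hy n
    rw [dist_eq_norm, ← smul_sub, norm_smul, Real.norm_two]; linarith)
  big := fun x _ => by rw [vol_ball μ h1 _ one_pos]; simp

theorem bbs (h1 : μ (ball 0 1) = 1) : CAP μ → CVX μ → CON μ → HS μ → WGT → BBS μ := by
  intro hcap hcvx hcon hhs hw φ X τ δ hφ hX t0 t1 d0 hd hc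
  obtain ⟨f0, fn, fa, fp, fz, fl, fb⟩ := hcap φ hφ
  have fu := (hcvx φ hφ).1
  have n1 : 1 ≤ dm E := hφ.one_le
  have n1' : (1 : ℝ) ≤ dm E := by exact_mod_cast n1
  have t3 : τ ^ 3 ≤ τ / 4 := by nlinarith [mul_pos t0 t0]
  have d1 : 14 * δ ≤ τ ^ 3 := by nlinarith
  have nk : (dm E : ℝ) * (δ / dm E) = δ := by field_simp
  obtain ⟨l, l0, lA, lB, lC⟩ := hw (dm E) (T μ φ) τ (δ / dm E) n1 (by positivity)
    (by rw [nk]; linarith) t0 t1 f0 fa fp fz fl fu (hcon φ hφ)
  rw [nk] at lC
  have hs := (hhs 0 X _ (bbs_pack μ h1 hX)).2 φ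
  set κ := δ / dm E with hκ
  have k0 : 0 < κ := by positivity
  have P0 : (0 : ℝ) < 3 ^ dm E := by positivity
  generalize (3 : ℝ) ^ dm E = P at *
  set f := T μ φ with hf
  have lev : ∀ Y ⊆ X, ∑ x ∈ Y, (1 - f (2 * φ x)) ≤ P / 2 := fun Y hY => by
    have := (hs Y hY).1 0
    simp only [zero_sub, fn, sub_zero, zero_div, f0] at this
    linarith
  have slab : ∑ x ∈ X, (f (2 * φ x) - f (2 * φ x + κ)) ≤ P * (f 0 - f (κ / 3)) := by
    have := (hs X (Finset.Subset.refl _)).2 0 (-κ) (by linarith)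
    have e : ∀ x, f (-κ - 2 * φ x) - f (0 - 2 * φ x) - 0 = f (2 * φ x) - f (2 * φ x + κ) := by
      intro x
      rw [show -κ - 2 * φ x = -(2 * φ x + κ) by ring, zero_sub, fn, fn]; ring
    simp only [e] at this
    rw [neg_div, fn, zero_div, f0] at this
    rw [f0]; linarith
  have a0 : ∀ x ∈ X, 0 ≤ 2 * φ x := fun x hx => by have := hX.nn x hx; linarith
  set M := X.filter fun x => 1 - τ < 2 * f (2 * φ x) with hM
  set U := X.filter fun x => 2 * f (2 * φ x) < τ with hU
  set D := X.filter fun x => τ ≤ 2 * f (2 * φ x) ∧ 2 * f (2 * φ x) ≤ 1 - τ with hD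
  have dis : Disjoint M U := Finset.disjoint_filter.2 fun x _ a c => by linarith
  have cov : (X.card : ℝ) ≤ M.card + U.card + D.card := by
    have : X ⊆ M ∪ U ∪ D := fun x hx => by
      simp only [hM, hU, hD, Finset.mem_union, Finset.mem_filter, hx, true_and]
      by_contra hh
      push Not at hh
      exact absurd (hh.2 hh.1.2) (not_lt.2 hh.1.1)
    have h := (Finset.card_le_card this).trans ((Finset.card_union_le _ _).trans
      (Nat.add_le_add_right (Finset.card_union_le _ _) _))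
    exact_mod_cast h
  have tot : (X.card : ℝ) + D.card * (τ ^ 2 / (4 * dm E)) ≤ P / 3 * (2 + δ) := by
    have e1 : (X.card : ℝ) + D.card * (τ ^ 2 / (4 * dm E)) = ∑ x ∈ X, (1 +
        if τ ≤ 2 * f (2 * φ x) ∧ 2 * f (2 * φ x) ≤ 1 - τ then τ ^ 2 / (4 * dm E) else 0) := by
      rw [Finset.sum_add_distrib, ← Finset.sum_filter]; simp [hD]
    have e2 : ∑ x ∈ X, (1 + if τ ≤ 2 * f (2 * φ x) ∧ 2 * f (2 * φ x) ≤ 1 - τ then
        τ ^ 2 / (4 * dm E) else 0) ≤
        ∑ x ∈ X, ((1 - f (2 * φ x)) + l * (f (2 * φ x) - f (2 * φ x + κ))) := by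
      refine Finset.sum_le_sum fun x hx => ?_
      split_ifs with h
      · have := lB _ (a0 x hx) h.1 h.2; linarith
      · have := lA _ (a0 x hx); linarith
    rw [Finset.sum_add_distrib (f := fun x => 1 - f (2 * φ x)), ← Finset.mul_sum] at e2
    have e3 := lev X (Finset.Subset.refl _)
    have e4 := mul_le_mul_of_nonneg_left slab l0
    have e5 := mul_le_mul_of_nonneg_left lC P0.le
    rw [e1]; nlinarith
  have hDc : (D.card : ℝ) ≤ 6 / 7 * τ * (P / 3) := by
    have e1 : (D.card : ℝ) * (τ ^ 2 / (4 * dm E)) ≤ δ * P := by linarith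
    rw [← mul_div_assoc, div_le_iff₀ (by positivity)] at e1
    have e2 : δ * P * (4 * dm E) ≤ 6 / 7 * τ * (P / 3) * τ ^ 2 := by
      have := mul_le_mul_of_nonneg_left hd P0.le
      nlinarith
    exact le_of_mul_le_mul_right (e1.trans e2) (by positivity)
  have sum : (2 - τ) * (P / 3) ≤ M.card + U.card := by
    have : 2 * δ * (P / 3) ≤ τ / 7 * (P / 3) :=
      mul_le_mul_of_nonneg_right (by linarith) (by positivity)
    nlinarith
  refine ⟨M, U, Finset.filter_subset _ _, Finset.filter_subset _ _, dis, fun x hx => ?_,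
    fun u hu => ?_, ?_, sum⟩
  · obtain ⟨hx, h⟩ := Finset.mem_filter.1 hx
    rcases le_total 1 (2 * φ x) with c | c
    · rw [fz _ c] at h; linarith
    · have := fu _ (a0 x hx) c
      have := hX.nn x hx
      linarith
  · obtain ⟨hu, h⟩ := Finset.mem_filter.1 hu
    refine ⟨hX.pos u hu fun e => ?_, ?_⟩
    · rw [e, map_zero, mul_zero, f0] at h; linarith
    · rw [fb, zero_sub, fn, map_smul, smul_eq_mul]; linarith
  · have e1 := lev (M ∪ U) (Finset.union_subset (Finset.filter_subset _ _) (Finset.filter_subset _ _))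
    rw [Finset.sum_union dis] at e1
    have e2 : (M.card : ℝ) * (1 / 2) ≤ ∑ x ∈ M, (1 - f (2 * φ x)) := by
      rw [← nsmul_eq_mul]
      refine Finset.card_nsmul_le_sum _ _ _ fun x hx => ?_
      have := fa (a0 x (Finset.mem_filter.1 hx).1)
      linarith
    have e3 : (U.card : ℝ) * (1 - τ / 2) ≤ ∑ x ∈ U, (1 - f (2 * φ x)) := by
      rw [← nsmul_eq_mul]
      refine Finset.card_nsmul_le_sum _ _ _ fun x hx => ?_
      have := (Finset.mem_filter.1 hx).2
      linarith
    have m0 : (0 : ℝ) ≤ M.card := Nat.cast_nonneg _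
    have e4 : ((2 - τ) * (P / 3) - M.card) * (1 - τ / 2) ≤ U.card * (1 - τ / 2) :=
      mul_le_mul_of_nonneg_right (by linarith) (by linarith)
    nlinarith [mul_nonneg m0 t0.le, mul_nonneg P0.le (mul_pos t0 t0).le]

end Pool.Agent.MP_39e5ce_co.PS

end
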