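import Pool.Agent.MP_39e5ce_co.ps.Spec
import Pool.Agent.MP_5b99fd_an.Slice

/-! Project PS: the Brunn-Minkowski inequality for any Haar measure. -/

noncomputable section

open MeasureTheory Set

namespace Pool.Agent.MP_39e5ce_co.PS

variable {E : Type} [NormedAddCommGroup E] [NormedSpace ℝ E] [FiniteDimensional ℝ E]
  [MeasurableSpace E] [BorelSpace E] (μ : Measure E) [μ.IsAddHaarMeasure]

theorem bm : BM μ := by
  intro A B C l a b hn h0 h1 ha hb hA hB hC vA vB h
  let L : E ≃L[ℝ] (Fin (dm E) → ℝ) := ContinuousLinearEquiv.ofFinrankEq (by simp)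
  obtain ⟨c, c0, hc⟩ : ∃ c : NNReal, 0 < c ∧ volume = c • μ.map L :=
    ⟨_, Measure.addHaarScalarFactor_pos_of_isAddHaarMeasure _ _,
      Measure.isAddLeftInvariant_eq_smul _ _⟩
  obtain ⟨t, t0, ht⟩ : ∃ t : ℝ, 0 < t ∧ t ^ dm E = c :=
    ⟨(c : ℝ) ^ ((dm E : ℝ)⁻¹), by positivity, Real.rpow_inv_natCast_pow c.2 (by omega)⟩
  have ms : ∀ {S : Set E}, MeasurableSet S → MeasurableSet (L.symm ⁻¹' S) := fun hS =>
    hS.preimage L.symm.continuous.measurable
  have v : ∀ {S : Set E}, MeasurableSet S → volume (L.symm ⁻¹' S) = c * μ S := fun {S} hS => by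
    rw [hc, Measure.coe_nnreal_smul_apply, Measure.map_apply L.continuous.measurable (ms hS)]
    simp [preimage_preimage]
  have e : ∀ x : ℝ, ENNReal.ofReal ((t * x) ^ dm E) = c * ENNReal.ofReal (x ^ dm E) := fun x => by
    rw [mul_pow, ht, ENNReal.ofReal_mul c.coe_nonneg, ENNReal.ofReal_coe_nnreal]
  have key := MP_5b99fd_an.bm h0 h1 (mul_pos t0 ha) (mul_pos t0 hb) (ms hA) (ms hB) (ms hC)
    (by rw [v hA, vA, e]) (by rw [v hB, vB, e]) fun x hx y hy => by simpa using h _ hx _ hy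
  rw [v hC, show (1 - l) * (t * a) + l * (t * b) = t * ((1 - l) * a + l * b) by ring, e] at key
  exact (ENNReal.mul_le_mul_iff_right (by simpa using c0.ne') ENNReal.coe_ne_top).1 key

end Pool.Agent.MP_39e5ce_co.PS

end
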