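import Pool.Agent.MP_39e5ce_co.ps.Spec

/-! Project PS, row CNT: averaging of a covering multiplicity. -/

noncomputable section

open MeasureTheory Metric Set
open scoped Classical

namespace Pool.Agent.MP_39e5ce_co.PS

variable {E : Type} [MeasurableSpace E]

theorem cnt (μ : Measure E) : CNT μ := by
  intro X G S K K' hS hfin hG hKK hK
  set c : E → ℝ := fun y => ∑ x ∈ X, (G x).indicator (fun _ => (1 : ℝ)) y with hc
  have hcard : ∀ y, ((X.filter fun x => y ∈ G x).card : ℝ) = c y := by
    intro y
    simp only [hc, Finset.card_filter, Set.indicator_apply]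
    push_cast
    rfl
  have hcm : Measurable c :=
    Finset.measurable_sum _ fun x hx => measurable_const.indicator (hG x hx).1
  have hGfin : ∀ x ∈ X, μ (G x) ≠ ⊤ := fun x hx =>
    ne_top_of_le_ne_top hfin (measure_mono (hG x hx).2)
  set B : Set E := S ∩ {y | c y < K'} with hB
  have hBm : MeasurableSet B := hS.inter (measurableSet_lt hcm measurable_const)
  have hBS : B ⊆ S := inter_subset_left
  have hBfin : μ B ≠ ⊤ := ne_top_of_le_ne_top hfin (measure_mono hBS)
  refine ⟨B, hBS, ?_, ?_⟩
  · intro y hy hyB
    rw [hcard]
    by_contra h
    exact hyB ⟨hy, lt_of_not_ge h⟩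
  · have hint : ∀ x ∈ X, Integrable ((G x).indicator fun _ => (1 : ℝ)) μ := fun x hx =>
      (integrableOn_const (hGfin x hx)).integrable_indicator (hG x hx).1
    have h1 : ∑ x ∈ X, μ.real (G x) = ∫ y, c y ∂μ := by
      rw [hc, integral_finsetSum _ hint]
      refine Finset.sum_congr rfl fun x hx => ?_
      rw [integral_indicator (hG x hx).1]
      simp
    have iS : Integrable (S.indicator fun _ => K) μ :=
      (integrableOn_const hfin).integrable_indicator hS
    have iB : Integrable (B.indicator fun _ => K - K') μ :=
      (integrableOn_const hBfin).integrable_indicator hBm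
    have h2 : ∫ y, c y ∂μ ≤
        ∫ y, (S.indicator (fun _ => K) y - B.indicator (fun _ => K - K') y) ∂μ := by
      refine integral_mono (integrable_finsetSum _ hint) (iS.sub iB) fun y => ?_
      by_cases hyS : y ∈ S
      · by_cases hyB : y ∈ B
        · have : c y < K' := hyB.2
          simp only [indicator_of_mem hyS, indicator_of_mem hyB]
          linarith
        · have := hK y hyS
          rw [hcard] at this
          simp only [indicator_of_mem hyS, indicator_of_notMem hyB]
          linarith
      · have hyB : y ∉ B := fun h => hyS (hBS h)
        simp only [indicator_of_notMem hyS, indicator_of_notMem hyB, hc]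
        rw [Finset.sum_eq_zero]
        · simp
        · intro x hx
          exact indicator_of_notMem (fun h => hyS ((hG x hx).2 h)) _
    rw [integral_sub iS iB, integral_indicator hS, integral_indicator hBm] at h2
    simp only [integral_const, MeasurableSet.univ, measureReal_restrict_apply, univ_inter,
      smul_eq_mul] at h2
    rw [h1]
    linarith

end Pool.Agent.MP_39e5ce_co.PS
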