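import Pool.Agent.MP_39e5ce_co.ps.Spec

/-! Project PS, rows CON and CVX: concavity and convexity of the volume of caps. -/

noncomputable section

open MeasureTheory Metric Set
open scoped Classical

namespace Pool.Agent.MP_39e5ce_co.PS

variable {E : Type} [NormedAddCommGroup E] [NormedSpace ℝ E] [FiniteDimensional ℝ E]
  [MeasurableSpace E] [BorelSpace E] (μ : Measure E) [μ.IsAddHaarMeasure]

omit [μ.IsAddHaarMeasure] in
theorem con (h1 : μ (ball 0 1) = 1) : BM μ → CAP μ → CON μ := by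
  intro bm cap g hg
  obtain ⟨-, -, -, c4, -, c6, -⟩ := cap g hg
  have hn := hg.one_le
  have n0 : dm E ≠ 0 := by omega
  have ms : ∀ a : ℝ, MeasurableSet (ball (0 : E) 1 ∩ {y | a < g y}) := fun a =>
    measurableSet_ball.inter (isOpen_lt continuous_const g.continuous).measurableSet
  have fin : ∀ a : ℝ, μ (ball (0 : E) 1 ∩ {y | a < g y}) ≠ ⊤ := fun a =>
    ne_top_of_le_ne_top ENNReal.one_ne_top (h1 ▸ measure_mono inter_subset_left)
  have val : ∀ a : ℝ, μ (ball (0 : E) 1 ∩ {y | a < g y}) =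
      ENNReal.ofReal ((T μ g a ^ ((1 : ℝ) / dm E)) ^ dm E) := fun a => by
    rw [one_div, Real.rpow_inv_natCast_pow (c4 a) n0, T, Measure.real,
      ENNReal.ofReal_toReal (fin a)]
  have pos : ∀ a ∈ Ico (0 : ℝ) 1, 0 < T μ g a ^ ((1 : ℝ) / dm E) := fun a ha =>
    Real.rpow_pos_of_pos ((half_pos (pow_pos (sub_pos.2 ha.2) _)).trans_le (c6 a ha.1 ha.2.le)) _
  refine concaveOn_iff_forall_pos.2 ⟨convex_Ico 0 1, fun x hx y hy a b ha hb hab => ?_⟩
  obtain rfl : a = 1 - b := by linarith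
  have h := bm _ _ _ b _ _ hn hb (by linarith) (pos x hx) (pos y hy) (ms x) (ms y)
    (ms ((1 - b) * x + b * y)) (val x) (val y) fun u hu v hv =>
      ⟨convex_ball (0 : E) 1 hu.1 hv.1 ha.le hb.le hab, by
        have e1 := mul_lt_mul_of_pos_left (show x < g u from hu.2) ha
        have e2 := mul_lt_mul_of_pos_left (show y < g v from hv.2) hb
        show _ < g _
        rw [map_add, map_smul, map_smul, smul_eq_mul, smul_eq_mul]
        linarith⟩
  rw [val, ENNReal.ofReal_le_ofReal_iff (pow_nonneg (Real.rpow_nonneg (c4 _) _) _)] at h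
  exact le_of_pow_le_pow_left₀ n0 (Real.rpow_nonneg (c4 _) _) h

omit [FiniteDimensional ℝ E] [BorelSpace E] [μ.IsAddHaarMeasure] in
theorem cvx : CV1 → CAP μ → SLAB μ → CVX μ := by
  intro cv cap slab g hg
  obtain ⟨c1, -, c3, c4, c5, -, -⟩ := cap g hg
  have h := (cv _ c3 (slab g hg)).2
  have key : ∀ s x : ℝ, 0 ≤ s → s ≤ 1 → 0 ≤ x →
      T μ g (s * x) ≤ (1 - s) / 2 + s * T μ g x := fun s x a b c => by
    have := h (mem_Ici.2 le_rfl) (mem_Ici.2 c) (sub_nonneg.2 b) a (by ring)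
    simp only [smul_eq_mul, mul_zero, zero_add, c1] at this
    linarith
  refine ⟨fun a a0 a1 => ?_, fun w w0 w1 => ?_⟩
  · have := key a 1 a0 a1 zero_le_one
    rwa [c5 1 le_rfl, mul_one, mul_zero, add_zero] at this
  · have e1 := key (2 / 3 * (1 + w)) (1 - w) (by linarith) (by linarith) (by linarith)
    have e2 := c3 (show 2 / 3 * (1 + w) * (1 - w) ≤ 2 / 3 by nlinarith)
    have e3 := mul_le_of_le_one_left (c4 (1 - w)) (show 2 / 3 * (1 + w) ≤ 1 by linarith)
    linarith

end Pool.Agent.MP_39e5ce_co.PS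

end
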