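import Pool.Agent.MP_39e5ce_co.ps.Spec

/-! Project PS: passage to the coordinates of the digits. -/

noncomputable section

open Set
open scoped Classical

namespace Pool.Agent.MP_39e5ce_co.PS

/-- a functional in the coordinates of a linear equivalence -/
theorem crd_co {E ι : Type} [NormedAddCommGroup E] [NormedSpace ℝ E] [Fintype ι]
    (Φ : E ≃ₗ[ℝ] (ι → ℝ)) (f : E →L[ℝ] ℝ) : ∃ c : ι → ℝ, ∀ z, c ⬝ᵥ Φ z = f z := by
  refine ⟨fun j => f (Φ.symm (Pi.single j 1)), fun z => ?_⟩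
  conv_rhs => rw [← Φ.symm_apply_apply z, pi_eq_sum_univ' (Φ z)]
  simp [dotProduct, map_sum, mul_comm]

theorem crd (E : Type) [NormedAddCommGroup E] [NormedSpace ℝ E] [FiniteDimensional ℝ E]
    (hE : END) : CRD E := by
  intro φ X Z M g v ε h2 ⟨_, b, b1, b2⟩ hX e0 e1 hg g0 hv near up hM mid cZ cM
  obtain ⟨Φ, hΦ⟩ : ∃ Φ : E ≃ₗ[ℝ] (Fin (dm E) → ℝ), ∀ z i, Φ z i = g i z :=
    ⟨LinearMap.linearEquivOfInjective (LinearMap.pi fun i => (g i : E →ₗ[ℝ] ℝ))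
      ((injective_iff_map_eq_zero _).2 fun z hz => g0 z (congrFun hz)) (by simp), fun _ _ => rfl⟩
  obtain ⟨c, hc⟩ := crd_co Φ φ
  have inv : ∀ z ∈ Z, Function.invFunOn v Z (v z) = z := fun z hz => hv.leftInvOn_invFunOn hz
  have L : 1 ≤ ∑ j, |c j| := by
    rw [← b2, ← hc]
    refine Finset.sum_le_sum fun j _ => (le_abs_self _).trans ?_
    rw [abs_mul, hΦ]
    exact mul_le_of_le_one_right (abs_nonneg _) (b1 ▸ hg j b)
  refine hE (Fin (dm E)) ε c (Φ '' X) (Z.image v) (M.image v)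
    (fun a => Φ (Function.invFunOn v Z a)) ⟨e0, by simpa using e1, by simpa using h2, ?_, ?_, ?_,
      ?_, ?_, Finset.image_subset_image hM, ?_, ?_, ?_⟩
  · rintro rfl
    norm_num at L
  · rintro _ ⟨x, hx, rfl⟩ h
    rw [hc]
    exact hX.pos x hx fun e => h (by simp [e])
  · rintro _ ⟨x, hx, rfl⟩ _ ⟨y, hy, rfl⟩ h
    obtain ⟨f, f1, f2⟩ := ex_sup (x - y)
    obtain ⟨ξ, hξ⟩ := crd_co Φ f
    refine ⟨ξ, ?_, ?_⟩
    · rintro _ ⟨z, hz, rfl⟩
      rw [hξ]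
      exact (f1 z).trans (hX.nm z hz)
    · rw [← map_sub, hξ, f2]
      exact hX.sep x hx y hy fun e => h (by rw [e])
  · intro a ha j
    obtain ⟨z, hz, rfl⟩ := Finset.mem_image.1 ha
    rw [inv z hz, hΦ]
    exact near z hz j
  · intro a ha h
    obtain ⟨z, hz, rfl⟩ := Finset.mem_image.1 ha
    rw [inv z hz] at h ⊢
    exact mem_image_of_mem _ (up z hz (hc z ▸ h))
  · intro a ha
    obtain ⟨z, hz, rfl⟩ := Finset.mem_image.1 ha
    rw [inv z (hM hz), hc, abs_of_nonneg (hX.nn z (mid z hz).1)]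
    exact ⟨mem_image_of_mem _ (mid z hz).1, (mid z hz).2.trans (le_mul_of_one_le_right e0 L)⟩
  · rwa [Finset.card_image_of_injOn hv, Fintype.card_fin]
  · rwa [Finset.card_image_of_injOn (hv.mono (Finset.coe_subset.2 hM)), Fintype.card_fin]

end Pool.Agent.MP_39e5ce_co.PS

end
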