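import Pool.Agent.MP_39e5ce_co.ps.Spec

/-! Project PS: few centres have a middle height when almost the full number is flush. -/

noncomputable section

open MeasureTheory Metric Set
open scoped Classical

namespace Pool.Agent.MP_39e5ce_co.PS

variable {E : Type} [NormedAddCommGroup E] [NormedSpace ℝ E] [FiniteDimensional ℝ E]
  [MeasurableSpace E] (μ : Measure E)

theorem dig (hC : CAP μ) (hV : CVX μ) (hH : HS μ) : DIG μ := by
  intro τ η β ε X Q g hP hg hη hτ hβ hε hε' hs hc
  obtain ⟨-, hneg, hanti, -, -, hlow, -⟩ := hC g hg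
  obtain ⟨hv1, hv2⟩ := hV g hg
  have hn : (1 : ℝ) ≤ dm E := by exact_mod_cast hg.one_le
  have hη' : η ≤ dm E * η := le_mul_of_one_le_left hη hn
  have hH' := (hH τ X Q hP).2 g
  have hp : (0 : ℝ) < 3 ^ dm E := by positivity
  unfold cn at hc
  set F := X.filter fun x => 1 - η ≤ g x with hF
  set M := X.filter fun x => ε < g x ∧ g x < 1 - η with hM
  have h1 : (F.card : ℝ) * (1 / 2 - dm E * η - τ) ≤ 3 ^ dm E * T μ g (2 / 3) := by
    refine le_trans ?_ ((hH' F (Finset.filter_subset _ _)).1 2)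
    rw [← nsmul_eq_mul]
    refine Finset.card_nsmul_le_sum _ _ _ fun x hx => ?_
    have hx' := (Finset.mem_filter.1 hx).2
    have a1 := hanti (show 2 - 2 * g x ≤ 2 * η by linarith)
    have a2 := hlow (2 * η) (by linarith) (by linarith)
    have a3 := one_add_mul_le_pow (show (-2 : ℝ) ≤ -(2 * η) by linarith) (dm E)
    rw [← sub_eq_add_neg] at a3
    linarith
  have h2 : 1 / 2 - β / 2 - dm E * η - τ ≤ 3 * T μ g (2 / 3) := by
    have a1 := mul_le_mul_of_nonneg_right hc (show 0 ≤ 1 / 2 - dm E * η - τ by linarith)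
    have a2 : 3 ^ dm E * ((1 - β) * (1 / 2 - dm E * η - τ)) ≤ 3 ^ dm E * (3 * T μ g (2 / 3)) := by
      linarith
    have a3 := le_of_mul_le_mul_left a2 hp
    have a4 : 0 ≤ β * (dm E * η + τ) := mul_nonneg hβ (by linarith)
    linarith
  have hd : Disjoint F M := Finset.disjoint_filter.2 fun x _ h h' => by linarith [h'.2]
  have h3 := (hH' (F ∪ M)
    (Finset.union_subset (Finset.filter_subset _ _) (Finset.filter_subset _ _))).1 1
  rw [Finset.sum_union hd] at h3
  have h4 : (F.card : ℝ) * (1 - η - τ) ≤ ∑ x ∈ F, (T μ g (1 - 2 * g x) - τ) := by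
    rw [← nsmul_eq_mul]
    refine Finset.card_nsmul_le_sum _ _ _ fun x hx => ?_
    have hx' := (Finset.mem_filter.1 hx).2
    have a1 := hanti (show 1 - 2 * g x ≤ -(1 - 2 * η) by linarith)
    have a2 := hv1 (1 - 2 * η) (by linarith) (by linarith)
    rw [hneg] at a1
    linarith
  have h5 : (M.card : ℝ) * (ε / 3) ≤ ∑ x ∈ M, (T μ g (1 - 2 * g x) - τ) := by
    rw [← nsmul_eq_mul]
    refine Finset.card_nsmul_le_sum _ _ _ fun x hx => ?_
    have hx' := (Finset.mem_filter.1 hx).2.1
    have a1 := hanti (show 1 - 2 * g x ≤ 1 - 2 * ε by linarith)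
    have a2 := hv2 (2 * ε) (by linarith) (by linarith)
    linarith
  have h6 := mul_le_mul_of_nonneg_left (hv1 (1 / 3) (by norm_num) (by norm_num)) hp.le
  have h7 := mul_le_mul_of_nonneg_right hc (show 0 ≤ 1 - η - τ by linarith)
  have h8 : 0 ≤ 3 ^ dm E * (β * (η + τ)) := mul_nonneg hp.le (mul_nonneg hβ (by linarith))
  linarith

end Pool.Agent.MP_39e5ce_co.PS

end
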