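import Pool.Agent.MP_39e5ce_co.ps.Spec

/-! Project PS: reduction of the final contradiction to nonnegative functionals. -/

set_option autoImplicit false

noncomputable section

open Set
open scoped Classical

namespace Pool.Agent.MP_39e5ce_co.PS

open Pool.Agent.MP_39e5ce_co.NC (pt)

namespace EndAux

variable {ι : Type} [Fintype ι]

/-- change of signs of the coordinates -/
def fl (s : ι → SignType) (x : ι → ℝ) : ι → ℝ := fun j => (s j : ℝ) * x j

omit [Fintype ι] in
theorem sq1 {s : ι → SignType} (hs : ∀ j, s j * s j = 1) (j : ι) : (s j : ℝ) * s j = 1 := by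
  rw [← SignType.coe_mul, hs, SignType.coe_one]

omit [Fintype ι] in
theorem abs1 {s : ι → SignType} (hs : ∀ j, s j * s j = 1) (j : ι) : |(s j : ℝ)| = 1 := by
  have h := sq1 hs j
  rcases mul_self_eq_one_iff.1 h with e | e <;> rw [e] <;> simp

omit [Fintype ι] in
theorem fl_fl {s : ι → SignType} (hs : ∀ j, s j * s j = 1) (x : ι → ℝ) : fl s (fl s x) = x := by
  funext j
  simp only [fl]
  rw [← mul_assoc, sq1 hs, one_mul]

theorem fl_dot (s : ι → SignType) (x y : ι → ℝ) : fl s x ⬝ᵥ y = x ⬝ᵥ fl s y := by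
  simp only [dotProduct, fl]
  exact Finset.sum_congr rfl fun j _ => by ring

omit [Fintype ι] in
theorem fl_sub (s : ι → SignType) (x y : ι → ℝ) : fl s (x - y) = fl s x - fl s y := by
  funext j
  simp only [fl, Pi.sub_apply, mul_sub]

omit [Fintype ι] in
theorem fl_zero (s : ι → SignType) : fl s 0 = 0 := by
  funext j
  simp only [fl, Pi.zero_apply, mul_zero]

theorem flip {ε : ℝ} {φ : ι → ℝ} {X : Set (ι → ℝ)} {A A0 : Finset (ι → SignType)}
    {p : (ι → SignType) → ι → ℝ} (h : En ε φ X A A0 p) {s : ι → SignType}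
    (hs : ∀ j, s j * s j = 1) :
    En ε (fl s φ) {x | fl s x ∈ X} (A.image fun a j => s j * a j) (A0.image fun a j => s j * a j)
      (fun a => fl s (p fun j => s j * a j)) := by
  have inv : ∀ a : ι → SignType, (fun j => s j * (s j * a j)) = a := fun a =>
    funext fun j => by rw [← mul_assoc, hs, one_mul]
  have inj : Function.Injective (fun (a : ι → SignType) j => s j * a j) :=
    Function.LeftInverse.injective (g := fun (a : ι → SignType) j => s j * a j) inv
  have finj : Function.Injective (fl s) := Function.LeftInverse.injective (fl_fl hs)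
  have dot : ∀ x, fl s φ ⬝ᵥ fl s x = φ ⬝ᵥ x := fun x => by rw [fl_dot, fl_fl hs]
  refine ⟨h.e0, h.e1, h.two, fun e => h.ne (finj (e.trans (fl_zero s).symm)), fun x hx h0 => ?_,
    fun a ha b hb hab => ?_, fun a ha j => ?_, fun a ha h0 => ?_,
    Finset.image_subset_image h.sub, fun a ha => ?_, ?_, ?_⟩
  · rw [fl_dot]
    exact h.pos _ hx fun e => h0 (finj (e.trans (fl_zero s).symm))
  · obtain ⟨ξ, h1, h2⟩ := h.sup _ ha _ hb fun e => hab (finj e)
    refine ⟨fl s ξ, fun c hc => ?_, ?_⟩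
    · rw [fl_dot]
      exact h1 _ hc
    · rw [fl_dot, fl_sub]
      exact h2
  · obtain ⟨b, hb, rfl⟩ := Finset.mem_image.1 ha
    simp only [inv, fl]
    rw [SignType.coe_mul, ← mul_sub, abs_mul, abs1 hs, one_mul]
    exact h.near b hb j
  · obtain ⟨b, hb, rfl⟩ := Finset.mem_image.1 ha
    simp only [inv, dot] at h0
    simp only [inv, mem_ofPred_eq, fl_fl hs]
    exact h.up b hb h0
  · obtain ⟨b, hb, rfl⟩ := Finset.mem_image.1 ha
    have e : ∑ j, |fl s φ j| = ∑ j, |φ j| :=
      Finset.sum_congr rfl fun j _ => by rw [fl, abs_mul, abs1 hs, one_mul]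
    simp only [inv, mem_ofPred_eq, fl_fl hs, dot, e]
    exact h.mid b hb
  · rw [Finset.card_image_of_injective _ inj]
    exact h.cA
  · rw [Finset.card_image_of_injective _ inj]
    exact h.cA0

theorem nonneg (lo : LO) (eu : ENDU) (et : ENDT) {ε : ℝ} {φ : ι → ℝ} {X : Set (ι → ℝ)}
    {A A0 : Finset (ι → SignType)} {p : (ι → SignType) → ι → ℝ} (h : En ε φ X A A0 p)
    (h0 : ∀ j, 0 ≤ φ j) : False := by
  have L0 : 0 ≤ ∑ j, |φ j| := Finset.sum_nonneg fun j _ => abs_nonneg _
  have e0 := h.e0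
  have sub : A0 ⊆ Finset.univ.filter
      fun a : ι → SignType => |φ ⬝ᵥ pt a| ≤ 2 * ε * ∑ j, |φ j| := by
    intro a ha
    refine Finset.mem_filter.2 ⟨Finset.mem_univ _, ?_⟩
    have b1 := (h.mid a ha).2
    have b2 : |φ ⬝ᵥ (p a - pt a)| ≤ ε * ∑ j, |φ j| := by
      rw [dotProduct, Finset.mul_sum]
      refine (Finset.abs_sum_le_sum_abs _ _).trans (Finset.sum_le_sum fun j _ => ?_)
      rw [abs_mul, mul_comm]
      exact mul_le_mul_of_nonneg_right (h.near a (h.sub ha) j) (abs_nonneg _)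
    rw [dotProduct_sub] at b2
    rw [abs_le] at b1 b2 ⊢
    constructor <;> linarith [b1.1, b1.2, b2.1, b2.2]
  have e : 2 * (2 * ε * ∑ j, |φ j|) = 4 * ε * ∑ j, |φ j| := by ring
  have := lo ι φ (2 * ε * ∑ j, |φ j|) h.two h0 (by positivity)
    (h.cA0.trans (Nat.mul_le_mul_left _ (Finset.card_le_card sub)))
  rw [e] at this
  rcases this with ⟨i, hi⟩ | ⟨i, k, hik, h1, h2⟩
  · exact eu ι ε φ X A A0 p h h0 i hi
  · exact et ι ε φ X A A0 p h h0 i k hik h1 h2

end EndAux

theorem endd : LO → ENDU → ENDT → END := by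
  intro lo eu et ι _ ε φ X A A0 p h
  refine EndAux.nonneg lo eu et (EndAux.flip h (s := fun j => if 0 ≤ φ j then 1 else -1)
    fun j => by split_ifs <;> rfl) fun j => ?_
  rw [EndAux.fl]
  split_ifs with c
  · simpa using c
  · simpa using (not_le.1 c).le

end Pool.Agent.MP_39e5ce_co.PS

end
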