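import Pool.Agent.MP_39e5ce_co.ps.Spec

/-! Project PS: the triangular case of the end game. -/

noncomputable section

open MeasureTheory Metric Set
open scoped Classical

namespace Pool.Agent.MP_39e5ce_co.PS

open Pool.Agent.MP_39e5ce_co.NC (pt)

section aux

variable {ι : Type} [Fintype ι]

theorem endt_near (ψ x : ι → ℝ) (u : ι → SignType) {ε : ℝ} (h : ∀ j, |x j - (u j : ℝ)| ≤ ε) :
    |ψ ⬝ᵥ x - ψ ⬝ᵥ pt u| ≤ ε * ∑ j, |ψ j| := by
  rw [← dotProduct_sub, dotProduct, Finset.mul_sum]
  refine (Finset.abs_sum_le_sum_abs _ _).trans (Finset.sum_le_sum fun j _ => ?_)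
  rw [abs_mul, mul_comm]
  exact mul_le_mul_of_nonneg_right (h j) (abs_nonneg _)

theorem endt_pair (ψ : ι → ℝ) (J : Finset ι) (u v : ι → SignType)
    (h : ∀ j ∉ J, v j = -1 * u j) :
    ψ ⬝ᵥ pt u + ψ ⬝ᵥ pt v = ∑ j ∈ J, ψ j * ((u j : ℝ) + v j) := by
  rw [← dotProduct_add, dotProduct]
  refine (Finset.sum_subset (f := fun j => ψ j * ((u j : ℝ) + v j)) (Finset.subset_univ J)
    fun j _ hj => ?_).symm
  simp [h j hj]

theorem endt_split (φ : ι → ℝ) {i k : ι} (hik : i ≠ k) {η : ℝ} (hη : 0 ≤ η) (h0 : ∀ j, 0 ≤ φ j)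
    (h : ∀ j, j ≠ i → j ≠ k → φ j ≤ η) (u : ι → SignType) :
    |φ ⬝ᵥ pt u - (φ i * u i + φ k * u k)| ≤ Fintype.card ι * η := by
  have e : φ ⬝ᵥ pt u - (φ i * u i + φ k * u k) =
      ∑ j ∈ ({i, k} : Finset ι)ᶜ, φ j * (u j : ℝ) := by
    rw [dotProduct, ← Finset.sum_add_sum_compl ({i, k} : Finset ι), Finset.sum_pair hik]
    simp [pt]
  rw [e]
  refine (Finset.abs_sum_le_sum_abs _ _).trans
    ((Finset.sum_le_card_nsmul _ _ η fun j hj => ?_).trans ?_)
  · simp only [Finset.mem_compl, Finset.mem_insert, Finset.mem_singleton, not_or] at hj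
    have h1 : |(u j : ℝ)| ≤ 1 := by rcases u j with _ | _ | _ <;> simp
    rw [abs_mul, abs_of_nonneg (h0 j)]
    exact (mul_le_of_le_one_right (h0 j) h1).trans (h j hj.1 hj.2)
  · rw [nsmul_eq_mul]
    exact mul_le_mul_of_nonneg_right (by exact_mod_cast Finset.card_le_univ _) hη

theorem endt_line (B : Finset (ι → SignType)) (k : ι) :
    (Finset.univ.filter fun a : ι → SignType => ∃ s, Function.update a k s ∈ B).card ≤
      3 * B.card := by
  have h : (Finset.univ.filter fun a : ι → SignType => ∃ s, Function.update a k s ∈ B) ⊆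
      (B ×ˢ (Finset.univ : Finset SignType)).image fun q => Function.update q.1 k q.2 := by
    intro a ha
    obtain ⟨s, hs⟩ := (Finset.mem_filter.1 ha).2
    exact Finset.mem_image.2 ⟨(Function.update a k s, a k),
      Finset.mem_product.2 ⟨hs, Finset.mem_univ _⟩, by simp⟩
  refine (Finset.card_le_card h).trans (Finset.card_image_le.trans ?_)
  rw [Finset.card_product, mul_comm]
  rfl

theorem endt_anti {i k : ι} (hik : i ≠ k) :
    3 * (Finset.univ.filter fun a : ι → SignType => a k = -a i).card ≤ 3 ^ Fintype.card ι := by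
  have h := Finset.card_le_card_of_injOn
    (s := (Finset.univ.filter fun a : ι → SignType => a k = -a i) ×ˢ
      (Finset.univ : Finset SignType)) (t := (Finset.univ : Finset (ι → SignType)))
    (fun q => Function.update q.1 k q.2) (fun _ _ => Finset.mem_coe.2 (Finset.mem_univ _)) (by
      rintro ⟨a, s⟩ ha ⟨b, t⟩ hb e
      have ha' := (Finset.mem_filter.1 (Finset.mem_product.1 (Finset.mem_coe.1 ha)).1).2
      have hb' := (Finset.mem_filter.1 (Finset.mem_product.1 (Finset.mem_coe.1 hb)).1).2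
      have h1 : ∀ j, j ≠ k → a j = b j := fun j hj => by simpa [hj] using congrFun e j
      have h2 : s = t := by simpa using congrFun e k
      refine Prod.ext (funext fun j => ?_) h2
      by_cases hj : j = k
      · subst hj
        exact ha'.trans ((congrArg Neg.neg (h1 i hik)).trans hb'.symm)
      · exact h1 j hj)
  rw [Finset.card_product, Finset.card_univ, Finset.card_univ, Fintype.card_fun, mul_comm] at h
  exact h

/-- good lines lie in the configuration -/
theorem endt_half {ε : ℝ} {φ : ι → ℝ} {X : Set (ι → ℝ)} {A A0 : Finset (ι → SignType)}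
    {p : (ι → SignType) → ι → ℝ} (hE : En ε φ X A A0 p) {i k : ι} (hik : i ≠ k)
    (hs : ∀ u : ι → SignType, u i = 1 → u k ≠ -1 → ε * ∑ j, |φ j| ≤ φ ⬝ᵥ pt u)
    (a : ι → SignType) (ha : a i = 1) (s : SignType) (h1 : Function.update a k s ∈ A)
    (h2 : s = -1 → Function.update a k s ∈ A0) : p (Function.update a k s) ∈ X := by
  by_cases h : s = -1
  · exact (hE.mid _ (h2 h)).1
  · have h3 := hs (Function.update a k s) (by simp [hik, ha]) (by simpa using h)
    have h4 := abs_le.1 (endt_near φ _ _ (hE.near _ h1))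
    exact hE.up _ h1 (by linarith [h4.1])

end aux

theorem endt : MAJ → FLAT → ENDT := by
  intro hM hF ι _ ε φ X A A0 p hE h0 i k hik hd ho
  set L := ∑ j, |φ j| with hL
  have e0 := hE.e0
  have d2 : (2 : ℝ) ≤ Fintype.card ι := by exact_mod_cast hE.two
  have e1 := hE.e1
  have e2 : ε ≤ 1 / 2000 := by nlinarith
  have hL0 : 0 < L := by
    obtain ⟨j, hj⟩ := Function.ne_iff.1 hE.ne
    exact Finset.sum_pos' (fun _ _ => abs_nonneg _) ⟨j, Finset.mem_univ _, abs_pos.2 hj⟩
  have hεL : ε * L ≤ L / 2000 := by nlinarith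
  have hεL0 : 0 ≤ ε * L := by positivity
  have sp : ∀ u : ι → SignType, |φ ⬝ᵥ pt u - (φ i * u i + φ k * u k)| ≤ L / 250 := fun u =>
    (endt_split φ hik (by positivity) h0 ho u).trans (by nlinarith)
  have hone : φ ⬝ᵥ pt (fun _ => 1) = L := by
    simp [dotProduct, pt, hL, abs_of_nonneg (h0 _)]
  have s1 := abs_le.1 (sp fun _ => 1)
  rw [hone] at s1
  simp only [SignType.coe_one, mul_one] at s1
  have hd' := abs_le.1 hd
  have hi : 49 / 100 * L ≤ φ i := by linarith [s1.2, hd'.1]
  have hk : 49 / 100 * L ≤ φ k := by linarith [s1.2, hd'.2]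
  have hA0 : ∀ a ∈ A0, a k = -a i := fun a ha => by
    have h1 := abs_le.1 (hE.mid a ha).2
    have h2 := abs_le.1 (endt_near φ _ _ (hE.near a (hE.sub ha)))
    have h3 := abs_le.1 (sp a)
    rw [← hL] at h1 h2
    rcases hai : a i with _ | _ | _ <;> rcases hak : a k with _ | _ | _ <;>
      simp [hai, hak] at h3 ⊢ <;> linarith [h1.1, h1.2, h2.1, h2.2, h3.1, h3.2]
  set B := Aᶜ ∪ ((Finset.univ.filter fun a : ι → SignType => a k = -a i) \ A0) with hB
  have hBc : 3000 * B.card ≤ 4 * 3 ^ Fintype.card ι := by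
    have h1 : B.card ≤ _ := Finset.card_union_le _ _
    have h2 := Finset.card_add_card_compl A
    have h3 := Finset.card_sdiff_add_card_eq_card (s := A0)
      (t := Finset.univ.filter fun a : ι → SignType => a k = -a i)
      fun a ha => Finset.mem_filter.2 ⟨Finset.mem_univ _, hA0 a ha⟩
    have h4 := endt_anti hik
    have h5 := hE.cA
    have h6 := hE.cA0
    rw [Fintype.card_fun, show Fintype.card SignType = 3 from rfl] at h2
    omega
  have hnB : ∀ b ∉ B, b ∈ A ∧ (b k = -b i → b ∈ A0) := fun b hb => by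
    simpa [hB] using hb
  set D := (Finset.univ.filter fun a : ι → SignType => ∃ s, Function.update a k s ∈ B) ∪
    (Finset.univ.filter fun a : ι → SignType => ∃ s, Function.update a i s ∈ B) with hD
  have hDc : 54 * D.card < 3 ^ Fintype.card ι := by
    have h1 : D.card ≤ _ := Finset.card_union_le _ _
    have h2 := endt_line B k
    have h3 := endt_line B i
    have h4 : 0 < 3 ^ Fintype.card ι := by positivity
    omega
  have hnD : ∀ a ∉ D, (∀ s, Function.update a k s ∉ B) ∧ ∀ s, Function.update a i s ∉ B :=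
    fun a ha => by simpa [hD] using ha
  have F1 : ∀ a ∉ D, a i = 1 → ∀ s : SignType, p (Function.update a k s) ∈ X ∧
      ∀ j, |p (Function.update a k s) j - (Function.update a k s j : ℝ)| ≤ ε := fun a ha hai s => by
    obtain ⟨h1, h2⟩ := hnB _ ((hnD a ha).1 s)
    refine ⟨endt_half hE hik (fun u hu hu' => ?_) a hai s h1 fun hs => h2 (by simp [hik, hai, hs]),
      hE.near _ h1⟩
    have h3 := abs_le.1 (sp u)
    rw [← hL]
    rcases huk : u k with _ | _ | _ <;> simp [hu, huk] at h3 hu' <;> linarith [h3.1, h3.2]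
  have F2 : ∀ a ∉ D, a k = 1 → ∀ s : SignType, p (Function.update a i s) ∈ X ∧
      ∀ j, |p (Function.update a i s) j - (Function.update a i s j : ℝ)| ≤ ε := fun a ha hak s => by
    obtain ⟨h1, h2⟩ := hnB _ ((hnD a ha).2 s)
    refine ⟨endt_half hE hik.symm (fun u hu hu' => ?_) a hak s h1
      fun hs => h2 (by simp [hik.symm, hak, hs]), hE.near _ h1⟩
    have h3 := abs_le.1 (sp u)
    rw [← hL]
    rcases hui : u i with _ | _ | _ <;> simp [hu, hui] at h3 hu' <;> linarith [h3.1, h3.2]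
  obtain ⟨G, g1, g2, g3⟩ := hF ι ε X D p i k hik e0 e1 hE.sup hDc F1
  obtain ⟨G', g1', g2', g3'⟩ := hF ι ε X D p k i hik.symm e0 e1 hE.sup hDc F2
  set ψ : ι → ℝ := (G i + G k + (G' k + G' i)) • φ - (φ i + φ k) • (G + G') with hψ
  set S := ∑ j, |ψ j| with hS
  have hz : ψ i + ψ k = 0 := by
    simp only [hψ, Pi.sub_apply, Pi.smul_apply, Pi.add_apply, smul_eq_mul]
    ring
  have key : ∀ (u : ι → SignType) (j : ι), u j = 1 → p u ∈ X → (∀ l, |p u l - (u l : ℝ)| ≤ ε) →
      G ⬝ᵥ p u = -1 ∨ G' ⬝ᵥ p u = -1 → -(ε * S) < ψ ⬝ᵥ pt u := fun u j hu h1 h2 h3 => by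
    have h4 : p u ≠ 0 := fun h => by
      have := abs_le.1 (h2 j)
      rw [h, hu] at this
      simp at this
      linarith [this.1]
    have h5 := hE.pos _ h1 h4
    have h6 := abs_le.1 (g1 _ h1)
    have h7 := abs_le.1 (g1' _ h1)
    have h8 : G ⬝ᵥ p u + G' ⬝ᵥ p u ≤ 0 := by rcases h3 with h | h <;> linarith [h6.2, h7.2]
    have h9 : 0 < ψ ⬝ᵥ p u := by
      rw [hψ, sub_dotProduct, smul_dotProduct, smul_dotProduct, add_dotProduct, smul_eq_mul,
        smul_eq_mul]
      have := mul_pos (add_pos g2 g2') h5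
      have := mul_nonneg (add_nonneg (h0 i) (h0 k)) (neg_nonneg.2 h8)
      linarith
    linarith [(abs_le.1 (endt_near ψ _ _ h2)).2]
  have K1 : ∀ a ∉ D, a i = 1 → -(ε * S) < ψ ⬝ᵥ pt (Function.update a k (-1)) := fun a ha h =>
    key _ i (by simp [hik, h]) (F1 a ha h _).1 (F1 a ha h _).2 (Or.inl (g3 a ha h))
  have K2 : ∀ a ∉ D, a k = 1 → -(ε * S) < ψ ⬝ᵥ pt (Function.update a i (-1)) := fun a ha h =>
    key _ k (by simp [hik.symm, h]) (F2 a ha h _).1 (F2 a ha h _).2 (Or.inr (g3' a ha h))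
  obtain ⟨a, b, ha, hb, h1, h2⟩ := hM ι D {i, k} (fun _ => 1) (fun _ => 1) (-1) (Or.inr rfl)
    (Finset.card_le_two.trans (by norm_num)) hDc
  have hai := h1 i (by simp)
  have hak := h1 k (by simp)
  have off : ∀ (J : Finset ι) (a b : ι → SignType) (x y : ι), x ∈ J → y ∈ J →
      (∀ j ∉ J, b j = -1 * a j) → ∀ j ∉ J, Function.update b y (-1) j =
        -1 * Function.update a x (-1) j := fun J a b x y hx hy h j hj => by
    have n1 : j ≠ y := fun e => hj (e ▸ hy)
    have n2 : j ≠ x := fun e => hj (e ▸ hx)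
    rw [Function.update_of_ne n1, Function.update_of_ne n2]
    exact h j hj
  have P1 := endt_pair ψ {i, k} _ _ (off _ a b k k (by simp) (by simp) h2)
  have P2 := endt_pair ψ {i, k} _ _ (off _ a b i i (by simp) (by simp) h2)
  rw [Finset.sum_pair hik] at P1 P2
  simp [hik, hik.symm, hai.1, hai.2, hak.1, hak.2] at P1 P2
  have Q1 : -(ε * S) < ψ i - ψ k := by linarith [K1 a ha hai.1, K1 b hb hai.2]
  have Q2 : -(ε * S) < ψ k - ψ i := by linarith [K2 a ha hak.1, K2 b hb hak.2]
  have Q3 : ∀ j, j ≠ i → j ≠ k → ∀ s : SignType, -(ε * S) < ψ j * s := fun j hji hjk s => by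
    obtain ⟨a, b, ha, hb, h1, h2⟩ := hM ι D {j, i, k} (Function.update (fun _ => 1) j s)
      (Function.update (fun _ => 1) j s) (-1) (Or.inr rfl) Finset.card_le_three hDc
    have hj := h1 j (by simp)
    have hi := h1 i (by simp)
    have hk := h1 k (by simp)
    simp only [Function.update_self, Function.update_of_ne hji.symm,
      Function.update_of_ne hjk.symm] at hj hi hk
    have P := endt_pair ψ {j, i, k} _ _ (off _ a b k i (by simp) (by simp) h2)
    rw [Finset.sum_insert (by simp [hji, hjk]), Finset.sum_pair hik] at P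
    simp [hik, hik.symm, hji, hjk, hj.1, hj.2, hi.1, hk.2] at P
    linarith [K1 a ha hi.1, K2 b hb hk.2]
  have hS0 : 0 ≤ S := Finset.sum_nonneg fun _ _ => abs_nonneg _
  have all : ∀ j, |ψ j| ≤ ε * S := fun j => by
    by_cases hji : j = i
    · subst hji; exact abs_le.2 ⟨by linarith, by linarith⟩
    by_cases hjk : j = k
    · subst hjk; exact abs_le.2 ⟨by linarith, by linarith⟩
    have q1 := Q3 j hji hjk 1
    have q2 := Q3 j hji hjk (-1)
    simp at q1 q2
    exact abs_le.2 ⟨by linarith, by linarith⟩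
  have hsum : S ≤ Fintype.card ι * (ε * S) := by
    have := Finset.sum_le_card_nsmul Finset.univ _ _ fun j _ => all j
    rwa [nsmul_eq_mul, Finset.card_univ] at this
  have : S = 0 := by nlinarith
  rw [this] at Q1 Q2
  linarith

end Pool.Agent.MP_39e5ce_co.PS

end
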