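import Pool.Agent.MP_39e5ce_co.ps.Spec

/-! Project PS: the end of the proof for the uniform type. -/

noncomputable section

open Finset
open scoped Classical

namespace Pool.Agent.MP_39e5ce_co.PS

open Pool.Agent.MP_39e5ce_co.NC (pt card_cells)

namespace EndU

variable {ι : Type} [Fintype ι]

theorem near_dot (c u v : ι → ℝ) {ε : ℝ} (h : ∀ j, |u j - v j| ≤ ε) :
    |c ⬝ᵥ u - c ⬝ᵥ v| ≤ ε * ∑ j, |c j| := by
  rw [← dotProduct_sub, dotProduct, mul_sum]
  refine (abs_sum_le_sum_abs _ _).trans (sum_le_sum fun j _ => ?_)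
  rw [abs_mul, mul_comm]
  exact mul_le_mul_of_nonneg_right (h j) (abs_nonneg _)

theorem abs_sg (s : SignType) : |(s : ℝ)| ≤ 1 := by cases s <;> simp

theorem split (c : ι → ℝ) (a : ι → SignType) (i : ι) :
    |c ⬝ᵥ pt a - c i * a i| ≤ ∑ j ∈ univ.erase i, |c j| := by
  rw [dotProduct, ← add_sum_erase _ _ (mem_univ i), pt, add_sub_cancel_left]
  refine (abs_sum_le_sum_abs _ _).trans (sum_le_sum fun j _ => ?_)
  rw [abs_mul]
  exact mul_le_of_le_one_right (abs_nonneg _) (abs_sg _)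

theorem card_line (A0 : Finset (ι → SignType)) (i : ι) (h : ∀ a ∈ A0, a i = 0) :
    3 * A0.card ≤ (univ.filter fun a : ι → SignType => Function.update a i 0 ∈ A0).card := by
  have e : (A0 ×ˢ (univ : Finset SignType)).card = 3 * A0.card := by
    rw [card_product, mul_comm]; rfl
  rw [← e]
  have k : ∀ a ∈ A0, ∀ s, Function.update (Function.update a i s) i 0 = a := fun a ha s => by
    rw [Function.update_idem, ← h a ha, Function.update_eq_self]
  refine card_le_card_of_injOn (fun x => Function.update x.1 i x.2) (fun x hx => ?_)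
    fun x hx y hy e => ?_
  · have := (mem_product.1 hx).1
    exact mem_filter.2 ⟨mem_univ _, by rwa [k _ this]⟩
  · have e' : Function.update x.1 i x.2 = Function.update y.1 i y.2 := e
    refine Prod.ext ?_ (by simpa using congrFun e' i)
    rw [← k _ (mem_product.1 hx).1 x.2, e', k _ (mem_product.1 hy).1]

theorem pair (c : ι → ℝ) {a b : ι → SignType} {i j : ι} (hj : j ≠ i) {s : SignType}
    (ai : a i = 1) (bi : b i = 1) (aj : a j = s) (bj : b j = s)
    (h : ∀ k ∉ ({i, j} : Finset ι), b k = -1 * a k) :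
    c ⬝ᵥ pt a + c ⬝ᵥ pt b = 2 * c i + 2 * (s * c j) := by
  rw [← dotProduct_add, dotProduct,
    ← sum_subset (subset_univ ({i, j} : Finset ι)) fun k _ hk => by simp [pt, h k hk],
    sum_pair hj.symm]
  simp only [pt, Pi.add_apply, ai, bi, aj, bj, SignType.coe_one]
  ring

end EndU

open EndU in
theorem endu (hM : MAJ) : ENDU := by
  intro ι _ ε φ X A A0 p h h0 i hi
  have e0 := h.e0
  have e1 := h.e1
  have hd : (2 : ℝ) ≤ Fintype.card ι := by exact_mod_cast h.two
  have e2 : ε ≤ 1 / 2000 := by nlinarith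
  set L := ∑ j, |φ j| with hL
  have hL0 : 0 < L := by
    obtain ⟨j, hj⟩ := Function.ne_iff.1 h.ne
    exact sum_pos' (fun _ _ => abs_nonneg _) ⟨j, mem_univ _, abs_pos.2 hj⟩
  have hR : ∑ j ∈ univ.erase i, |φ j| ≤ 4 / 1000 * L := by
    have h1 : ∑ j ∈ univ.erase i, |φ j| ≤ ∑ _j : ι, 4 * ε * L :=
      (sum_le_sum fun j hj => (abs_of_nonneg (h0 j)).trans_le (hi j (ne_of_mem_erase hj))).trans
        (sum_le_sum_of_subset_of_nonneg (erase_subset _ _) fun _ _ _ => by positivity)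
    rw [sum_const, card_univ, nsmul_eq_mul] at h1
    nlinarith
  have hφ : 996 / 1000 * L ≤ φ i := by
    have h1 := add_sum_erase univ (fun j => |φ j|) (mem_univ i)
    rw [abs_of_nonneg (h0 i)] at h1
    linarith
  have hεL : ε * L ≤ 1 / 2000 * L := mul_le_mul_of_nonneg_right e2 hL0.le
  have hn : ∀ (c : ι → ℝ), ∀ a ∈ A, |c ⬝ᵥ p a - c ⬝ᵥ pt a| ≤ ε * ∑ j, |c j| :=
    fun c a ha => near_dot c _ _ (h.near a ha)
  have hA0 : ∀ a ∈ A0, a i = 0 := by
    intro a ha
    have h1 := abs_le.1 (h.mid a ha).2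
    have h2 := abs_le.1 (hn φ a (h.sub ha))
    have h3 := abs_le.1 (split φ a i)
    rcases hs : a i with _ | _ | _
    · rfl
    · rw [hs] at h3
      simp only [SignType.neg_eq_neg_one, SignType.coe_neg_one] at h3
      linarith [h1.1, h2.2, h3.2]
    · rw [hs] at h3
      simp only [SignType.pos_eq_one, SignType.coe_one] at h3
      linarith [h1.2, h2.1, h3.1]
  set D := Aᶜ ∪ (univ.filter fun a : ι → SignType => Function.update a i 0 ∈ A0)ᶜ with hD
  have hDc : 54 * D.card < 3 ^ Fintype.card ι := by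
    have h1 := card_union_le Aᶜ (univ.filter fun a : ι → SignType => Function.update a i 0 ∈ A0)ᶜ
    have h2 := card_add_card_compl A
    have h3 := card_add_card_compl (univ.filter fun a : ι → SignType => Function.update a i 0 ∈ A0)
    have h4 := card_line A0 i hA0
    have h5 := h.cA
    have h6 := h.cA0
    have h7 : 0 < 3 ^ Fintype.card ι := by positivity
    rw [card_cells] at h2 h3
    rw [← hD] at h1
    omega
  have hD' : ∀ a, a ∉ D → a ∈ A ∧ Function.update a i 0 ∈ A0 := fun a ha => by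
    simpa [hD] using ha
  set T := univ.filter fun a : ι → SignType => a ∉ D ∧ a i = 1 ∧ ∃ j, j ≠ i ∧ a j ≠ 0 with hT
  have hmaj : ∀ j, j ≠ i → ∀ s : SignType, s ≠ 0 → ∃ a ∈ T, ∃ b ∈ T,
      ∀ c : ι → ℝ, c ⬝ᵥ pt a + c ⬝ᵥ pt b = 2 * c i + 2 * (s * c j) := by
    intro j hj s hs
    obtain ⟨a, b, ha, hb, h1, h2⟩ := hM ι D {i, j} (fun k => if k = i then 1 else s)
      (fun k => if k = i then 1 else s) (-1) (Or.inr rfl) (card_le_two.trans (by norm_num)) hDc
    have h3 := h1 i (by simp)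
    have h4 := h1 j (by simp)
    simp only [if_true, if_neg hj] at h3 h4
    exact ⟨a, mem_filter.2 ⟨mem_univ _, ha, h3.1, j, hj, h4.1 ▸ hs⟩,
      b, mem_filter.2 ⟨mem_univ _, hb, h3.2, j, hj, h4.2 ▸ hs⟩,
      fun c => pair c hj h3.1 h3.2 h4.1 h4.2 h2⟩
  have hTA : ∀ t ∈ T, t ∈ A := fun t ht => (hD' t (mem_filter.1 ht).2.1).1
  have hTp : ∀ t ∈ T, 0 ≤ φ ⬝ᵥ p t := by
    intro t ht
    have h2 := abs_le.1 (hn φ t (hTA t ht))
    have h3 := abs_le.1 (split φ t i)
    rw [(mem_filter.1 ht).2.2.1, SignType.coe_one] at h3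
    linarith [h2.1, h3.1]
  have hTX : ∀ t ∈ T, p t ∈ X := fun t ht => h.up t (hTA t ht) (hTp t ht)
  obtain ⟨j₀, hj₀⟩ : ∃ j, j ≠ i := by
    have : Nontrivial ι := Fintype.one_lt_card_iff_nontrivial.1 h.two
    exact exists_ne i
  obtain ⟨y, hy, hmin⟩ := exists_min_image T (fun t => φ ⬝ᵥ p t)
    (by obtain ⟨a, ha, -⟩ := hmaj j₀ hj₀ 1 one_ne_zero; exact ⟨a, ha⟩)
  obtain ⟨-, hyD, hyi, k, hk, hyk⟩ := mem_filter.1 hy
  obtain ⟨hyA, hy0⟩ := hD' y hyD
  set x := p (Function.update y i 0) with hx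
  have hxX : x ∈ X := (h.mid _ hy0).1
  have hxn := h.near _ (h.sub hy0)
  have hx0 : x ≠ 0 := by
    intro h1
    have h2 := hxn k
    rw [← hx, h1, Function.update_of_ne hk, Pi.zero_apply, zero_sub, abs_neg] at h2
    revert h2 hyk
    cases y k <;> simp <;> linarith
  have hne : p y ≠ x := by
    intro h1
    have h2 := abs_le.1 (hxn i)
    have h3 := abs_le.1 (h.near y hyA i)
    rw [← hx, Function.update_self, SignType.coe_zero] at h2
    rw [h1, hyi, SignType.coe_one] at h3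
    linarith [h2.2, h3.1]
  obtain ⟨ξ, hξ, hξ1⟩ := h.sup _ (hTX y hy) _ hxX hne
  set μ := φ ⬝ᵥ p y with hμ
  have hμ0 : 0 ≤ μ := hTp y hy
  set ψ := φ - μ • ξ with hψ
  have hψd : ∀ z, ψ ⬝ᵥ z = φ ⬝ᵥ z - μ * ξ ⬝ᵥ z := fun z => by
    rw [hψ, sub_dotProduct, smul_dotProduct, smul_eq_mul]
  have k1 : ∀ t ∈ T, 0 ≤ ψ ⬝ᵥ p t := by
    intro t ht
    have h1 := mul_le_mul_of_nonneg_left (abs_le.1 (hξ _ (hTX t ht))).2 hμ0
    have h2 : μ ≤ φ ⬝ᵥ p t := hmin t ht
    rw [hψd]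
    linarith
  have k2 : ψ ⬝ᵥ p y - ψ ⬝ᵥ x < 0 := by
    have h1 := mul_le_mul_of_nonneg_left hξ1 hμ0
    have h2 := h.pos x hxX hx0
    rw [dotProduct_sub] at h1
    rw [hψd, hψd]
    linarith
  set S := ∑ j, |ψ j| with hS
  have k3 : ψ i ≤ 2 * (ε * S) := by
    have h1 := abs_le.1 (hn ψ y hyA)
    have h2 := abs_le.1 (hn ψ _ (h.sub hy0))
    have h3 : ψ ⬝ᵥ pt y - ψ ⬝ᵥ pt (Function.update y i 0) = ψ i := by
      rw [← dotProduct_sub, dotProduct, sum_eq_single i
        (fun j _ hj => by simp [pt, Function.update_of_ne hj]) (by simp)]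
      simp [pt, hyi]
    linarith [h1.1, h2.2]
  have k4 : ∀ j, j ≠ i → ∀ s : SignType, s ≠ 0 → -(ε * S) ≤ ψ i + s * ψ j := by
    intro j hj s hs
    obtain ⟨a, ha, b, hb, e⟩ := hmaj j hj s hs
    have h1 := abs_le.1 (hn ψ a (hTA a ha))
    have h2 := abs_le.1 (hn ψ b (hTA b hb))
    linarith [h1.2, h2.2, e ψ, k1 a ha, k1 b hb]
  have hS0 : 0 ≤ S := sum_nonneg fun _ _ => abs_nonneg _
  have hεS : 0 ≤ ε * S := mul_nonneg e0 hS0
  have k5 : ∀ j, |ψ j| ≤ 3 * (ε * S) := by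
    intro j
    by_cases hj : j = i
    · have h1 := k4 j₀ hj₀ 1 one_ne_zero
      have h2 := k4 j₀ hj₀ (-1) (by decide)
      simp only [SignType.coe_one, SignType.coe_neg_one] at h1 h2
      rw [hj, abs_le]
      constructor <;> linarith
    · have h1 := k4 j hj 1 one_ne_zero
      have h2 := k4 j hj (-1) (by decide)
      simp only [SignType.coe_one, SignType.coe_neg_one] at h1 h2
      rw [abs_le]
      constructor <;> linarith
  have k6 : S ≤ 0 := by
    have h1 : S ≤ ∑ _j : ι, 3 * (ε * S) := sum_le_sum fun j _ => k5 j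
    rw [sum_const, card_univ, nsmul_eq_mul] at h1
    nlinarith
  have k7 : ψ = 0 := funext fun j => abs_nonpos_iff.1 (by nlinarith [k5 j])
  simp [k7] at k2

end Pool.Agent.MP_39e5ce_co.PS

end
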