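import Pool.Agent.MP_39e5ce_co.ps.Spec

/-!
Project PS, row FLAT: a common supporting functional of the lower points of almost all lines.
-/

noncomputable section

open scoped Classical

namespace Pool.Agent.MP_39e5ce_co.PS

open Pool.Agent.MP_39e5ce_co.NC (pt)

namespace Flat

variable {ι : Type} [Fintype ι]

theorem comb (ψ : ι → ℝ) (a b : ι → SignType) (σ : SignType) (hσ : σ = 1 ∨ σ = -1)
    (J : Finset ι) (h : ∀ j ∉ J, b j = σ * a j) :
    ψ ⬝ᵥ pt a - (σ : ℝ) * ψ ⬝ᵥ pt b = ∑ j ∈ J, ψ j * ((a j : ℝ) - (σ : ℝ) * (b j : ℝ)) := by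
  have e : ψ ⬝ᵥ pt a - (σ : ℝ) * ψ ⬝ᵥ pt b =
      ∑ j, ψ j * ((a j : ℝ) - (σ : ℝ) * (b j : ℝ)) := by
    simp only [dotProduct, pt, Finset.mul_sum, ← Finset.sum_sub_distrib]
    exact Finset.sum_congr rfl fun j _ => by ring
  rw [e]
  refine (Finset.sum_subset (Finset.subset_univ J) fun j _ hj => ?_).symm
  rw [h j hj]
  rcases hσ with rfl | rfl <;> simp

theorem near (ψ x : ι → ℝ) (a : ι → SignType) {ε : ℝ} (h : ∀ j, |x j - (a j : ℝ)| ≤ ε) :
    |ψ ⬝ᵥ x - ψ ⬝ᵥ pt a| ≤ ε * ∑ j, |ψ j| := by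
  have e : ψ ⬝ᵥ x - ψ ⬝ᵥ pt a = ∑ j, ψ j * (x j - (a j : ℝ)) := by
    simp only [dotProduct, pt, ← Finset.sum_sub_distrib]
    exact Finset.sum_congr rfl fun j _ => by ring
  rw [e, Finset.mul_sum]
  refine (Finset.abs_sum_le_sum_abs _ _).trans (Finset.sum_le_sum fun j _ => ?_)
  rw [abs_mul, mul_comm]
  exact mul_le_mul_of_nonneg_right (h j) (abs_nonneg _)

theorem same (ψ : ι → ℝ) (a : ι → SignType) (k : ι) (u v : SignType) :
    ψ ⬝ᵥ pt (Function.update a k u) - ψ ⬝ᵥ pt (Function.update a k v) =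
      ψ k * ((u : ℝ) - (v : ℝ)) := by
  have := comb ψ (Function.update a k u) (Function.update a k v) 1 (Or.inl rfl) {k}
    (fun j hj => by
      have hj' : j ≠ k := by simpa using hj
      simp [Function.update_of_ne hj'])
  simpa using this

theorem pat2 (hM : MAJ) (D : Finset (ι → SignType)) (hD : 54 * D.card < 3 ^ Fintype.card ι)
    {i k : ι} (ik : i ≠ k) :
    ∃ a b : ι → SignType, (a ∉ D ∧ a i = 1) ∧ (b ∉ D ∧ b i = 1) ∧ ∀ (ψ : ι → ℝ) (u v : SignType),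
      ψ ⬝ᵥ pt (Function.update a k u) + ψ ⬝ᵥ pt (Function.update b k v) =
        2 * ψ i + ψ k * ((u : ℝ) + (v : ℝ)) := by
  obtain ⟨a, b, ha, hb, h1, h2⟩ := hM ι D {i, k} (fun _ => 1) (fun _ => 1) (-1) (Or.inr rfl)
    (Finset.card_le_two.trans (by norm_num)) hD
  have hi := h1 i (by simp)
  refine ⟨a, b, ⟨ha, hi.1⟩, ⟨hb, hi.2⟩, fun ψ u v => ?_⟩
  have := comb ψ (Function.update a k u) (Function.update b k v) (-1) (Or.inr rfl) {i, k}
    (fun j hj => by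
      have hj' : j ≠ k := fun h => hj (by simp [h])
      rw [Function.update_of_ne hj', Function.update_of_ne hj']
      exact h2 j hj)
  rw [Finset.sum_pair ik, Function.update_of_ne ik, Function.update_of_ne ik, hi.1, hi.2] at this
  simp only [Function.update_self, SignType.coe_neg, SignType.coe_one] at this
  linarith

theorem pat3 (hM : MAJ) (D : Finset (ι → SignType)) (hD : 54 * D.card < 3 ^ Fintype.card ι)
    {i k j : ι} (ik : i ≠ k) (ji : j ≠ i) (jk : j ≠ k) (s t σ : SignType)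
    (hσ : σ = 1 ∨ σ = -1) :
    ∃ a b : ι → SignType, (a ∉ D ∧ a i = 1) ∧ (b ∉ D ∧ b i = 1) ∧ ∀ (ψ : ι → ℝ) (u v : SignType),
      ψ ⬝ᵥ pt (Function.update a k u) - (σ : ℝ) * ψ ⬝ᵥ pt (Function.update b k v) =
        ψ i * (1 - (σ : ℝ)) + ψ k * ((u : ℝ) - (σ : ℝ) * (v : ℝ)) +
          ψ j * ((s : ℝ) - (σ : ℝ) * (t : ℝ)) := by
  obtain ⟨a, b, ha, hb, h1, h2⟩ := hM ι D {i, k, j} (fun l => if l = j then s else 1)
    (fun l => if l = j then t else 1) σ hσ Finset.card_le_three hD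
  have hi := h1 i (by simp)
  have hj := h1 j (by simp)
  simp only [if_neg ji.symm] at hi
  simp only [if_true] at hj
  refine ⟨a, b, ⟨ha, hi.1⟩, ⟨hb, hi.2⟩, fun ψ u v => ?_⟩
  have := comb ψ (Function.update a k u) (Function.update b k v) σ hσ {i, k, j}
    (fun l hl => by
      have hl' : l ≠ k := fun h => hl (by simp [h])
      rw [Function.update_of_ne hl', Function.update_of_ne hl']
      exact h2 l hl)
  rw [Finset.sum_insert (by simp [ik, ji.symm]), Finset.sum_pair jk.symm,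
    Function.update_of_ne ik, Function.update_of_ne ik, Function.update_of_ne jk,
    Function.update_of_ne jk, hi.1, hi.2, hj.1, hj.2] at this
  simp only [Function.update_self, SignType.coe_one] at this
  linarith

theorem sum_le (ψ : ι → ℝ) (k : ι) (c e : ℝ) (hk : |ψ k| ≤ e + c) (h : ∀ j, j ≠ k → |ψ j| ≤ e) :
    ∑ j, |ψ j| ≤ Fintype.card ι * e + c := by
  have : ∑ j, |ψ j| ≤ ∑ j, (e + if j = k then c else 0) := by
    refine Finset.sum_le_sum fun j _ => ?_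
    by_cases hj : j = k
    · simpa [hj] using hk
    · simpa [hj] using h j hj
  simpa [Finset.sum_add_distrib] using this

end Flat

open Flat in
theorem flat (hM : MAJ) : FLAT := by
  intro ι _ ε X D p i k ik e0 e1 sup hD hp
  set P : (ι → SignType) → SignType → ι → ℝ := fun a s => p (Function.update a k s) with hP
  have hX : ∀ a, a ∉ D ∧ a i = 1 → ∀ s, P a s ∈ X := fun a ha s => (hp a ha.1 ha.2 s).1
  have hN : ∀ a, a ∉ D ∧ a i = 1 → ∀ s (ψ : ι → ℝ),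
      |ψ ⬝ᵥ P a s - ψ ⬝ᵥ pt (Function.update a k s)| ≤ ε * ∑ j, |ψ j| :=
    fun a ha s ψ => near ψ _ _ (hp a ha.1 ha.2 s).2
  have hd : (1 : ℝ) ≤ Fintype.card ι := by
    have : 0 < Fintype.card ι := Fintype.card_pos_iff.2 ⟨i⟩
    exact_mod_cast this
  have e2 : 1000 * ε ≤ 1 := by nlinarith
  let up : Bool → SignType := fun t => if t then 1 else 0
  let lo : Bool → SignType := fun t => if t then 0 else -1
  have hul : ∀ t, ((up t : SignType) : ℝ) - ((lo t : SignType) : ℝ) = 1 := by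
    intro t
    cases t <;> simp [up, lo]
  let I : Type := {a : ι → SignType // a ∉ D ∧ a i = 1} × Bool
  have hne : ∀ x : I, P x.1.1 (up x.2) ≠ P x.1.1 (lo x.2) := by
    intro x h
    have h1 := (hp x.1.1 x.1.2.1 x.1.2.2 (up x.2)).2 k
    have h2 := (hp x.1.1 x.1.2.1 x.1.2.2 (lo x.2)).2 k
    have h3 : p (Function.update x.1.1 k (up x.2)) k = p (Function.update x.1.1 k (lo x.2)) k :=
      congrFun h k
    rw [Function.update_self] at h1 h2
    have h4 := hul x.2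
    rw [abs_le] at h1 h2
    linarith [h1.1, h2.2]
  choose ξ hξ1 hξ2 using fun x : I =>
    sup _ (hX x.1.1 x.1.2 (up x.2)) _ (hX x.1.1 x.1.2 (lo x.2)) (hne x)
  obtain ⟨a0, b0, ha0, hb0, h0⟩ := pat2 hM D hD ik
  have : Nonempty I := ⟨(⟨a0, ha0⟩, true)⟩
  obtain ⟨x0, hx0⟩ := Finite.exists_max fun x : I => ξ x k
  set G := ξ x0 with hG
  obtain ⟨x1, hx1⟩ := Finite.exists_max fun x : I =>
    1 - G ⬝ᵥ (P x.1.1 (up x.2) - P x.1.1 (lo x.2))
  set m := 1 - G ⬝ᵥ (P x1.1.1 (up x1.2) - P x1.1.1 (lo x1.2)) with hm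
  have hG1 : ∀ c ∈ X, |G ⬝ᵥ c| ≤ 1 := hξ1 x0
  have hb : ∀ a, a ∉ D ∧ a i = 1 → 0 ≤ 1 - G ⬝ᵥ P a 1 ∧ 0 ≤ 1 + G ⬝ᵥ P a (-1) ∧
      (1 - G ⬝ᵥ P a 1) + (1 + G ⬝ᵥ P a (-1)) ≤ 2 * m := by
    intro a ha
    have h1 := abs_le.1 (hG1 _ (hX a ha 1))
    have h2 := abs_le.1 (hG1 _ (hX a ha (-1)))
    have h3 := hx1 (⟨a, ha⟩, true)
    have h4 := hx1 (⟨a, ha⟩, false)
    simp only [up, lo, if_true, Bool.false_eq_true, if_false, dotProduct_sub] at h3 h4
    exact ⟨by linarith [h1.2], by linarith [h2.1], by linarith⟩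
  have m0 : 0 ≤ m := by
    obtain ⟨h1, h2, h3⟩ := hb a0 ha0
    linarith
  have m1 : m ≤ 0 := by
    set ψ : ι → ℝ := ξ x1 - G with hψ
    set S := ∑ j, |ψ j| with hS
    have S0 : 0 ≤ S := Finset.sum_nonneg fun j _ => abs_nonneg _
    have k0 : ψ k ≤ 0 := by
      have := hx0 x1
      simp only [hψ, Pi.sub_apply]
      linarith
    have k1 : m ≤ ψ k + 2 * (ε * S) := by
      have h1 := hξ2 x1
      have h2 := abs_le.1 (hN _ x1.1.2 (up x1.2) ψ)
      have h3 := abs_le.1 (hN _ x1.1.2 (lo x1.2) ψ)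
      have h4 := same ψ x1.1.1 k (up x1.2) (lo x1.2)
      rw [hul, mul_one] at h4
      have h5 : ψ ⬝ᵥ P x1.1.1 (up x1.2) - ψ ⬝ᵥ P x1.1.1 (lo x1.2) =
          ξ x1 ⬝ᵥ (P x1.1.1 (up x1.2) - P x1.1.1 (lo x1.2)) -
            G ⬝ᵥ (P x1.1.1 (up x1.2) - P x1.1.1 (lo x1.2)) := by
        rw [hψ, ← dotProduct_sub, sub_dotProduct]
      linarith [h2.2, h3.1]
    have hu : ∀ a, a ∉ D ∧ a i = 1 →
        ψ ⬝ᵥ pt (Function.update a k 1) ≤ 2 * m + ε * S ∧
        -(2 * m + ε * S) ≤ ψ ⬝ᵥ pt (Function.update a k (-1)) := by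
      intro a ha
      obtain ⟨h1, h2, h3⟩ := hb a ha
      have h4 := abs_le.1 (hξ1 x1 _ (hX a ha 1))
      have h5 := abs_le.1 (hξ1 x1 _ (hX a ha (-1)))
      have h6 := abs_le.1 (hN a ha 1 ψ)
      have h7 := abs_le.1 (hN a ha (-1) ψ)
      have h8 : ψ ⬝ᵥ P a 1 = ξ x1 ⬝ᵥ P a 1 - G ⬝ᵥ P a 1 := by rw [hψ, sub_dotProduct]
      have h9 : ψ ⬝ᵥ P a (-1) = ξ x1 ⬝ᵥ P a (-1) - G ⬝ᵥ P a (-1) := by rw [hψ, sub_dotProduct]
      exact ⟨by linarith [h4.2, h6.1], by linarith [h5.1, h7.2]⟩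
    have hall : ∀ j, j ≠ k → |ψ j| ≤ 7 * (ε * S) := by
      intro j jk
      by_cases ji : j = i
      · have h1 := h0 ψ 1 1
        have h2 := h0 ψ (-1) (-1)
        simp only [SignType.coe_neg, SignType.coe_one] at h1 h2
        have h3 := hu a0 ha0
        have h4 := hu b0 hb0
        rw [ji, abs_le]
        exact ⟨by linarith [h3.2, h4.2], by linarith [h3.1, h4.1]⟩
      · obtain ⟨a, b, ha, hb', h1⟩ := pat3 hM D hD ik ji jk 1 (-1) 1 (Or.inl rfl)
        obtain ⟨a', b', ha', hb'', h2⟩ := pat3 hM D hD ik ji jk (-1) 1 1 (Or.inl rfl)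
        have h3 := h1 ψ 1 (-1)
        have h4 := h2 ψ 1 (-1)
        simp only [SignType.coe_neg, SignType.coe_one] at h3 h4
        rw [abs_le]
        exact ⟨by linarith [(hu a' ha').1, (hu b' hb'').2],
          by linarith [(hu a ha).1, (hu b hb').2]⟩
    have eS : 0 ≤ ε * S := mul_nonneg e0 S0
    have hs := sum_le ψ k 0 (7 * (ε * S)) (by rw [abs_le]; constructor <;> linarith) hall
    have hs2 : Fintype.card ι * (7 * (ε * S)) ≤ 7 / 1000 * S := by
      have : Fintype.card ι * (7 * (ε * S)) = 7 / 1000 * ((1000 * Fintype.card ι * ε) * S) := by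
        ring
      rw [this]
      have := mul_le_mul_of_nonneg_right e1 S0
      linarith
    have S1 : S ≤ 0 := by linarith
    have : ε * S ≤ 0 := mul_nonpos_of_nonneg_of_nonpos e0 S1
    linarith
  have hv : ∀ a, a ∉ D ∧ a i = 1 → G ⬝ᵥ P a 1 = 1 ∧ G ⬝ᵥ P a (-1) = -1 := by
    intro a ha
    obtain ⟨h1, h2, h3⟩ := hb a ha
    exact ⟨by linarith, by linarith⟩
  refine ⟨G, hG1, ?_, fun a ha hi => (hv a ⟨ha, hi⟩).2⟩
  set S := ∑ j, |G j| with hS
  have S0 : 0 ≤ S := Finset.sum_nonneg fun j _ => abs_nonneg _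
  have eS : 0 ≤ ε * S := mul_nonneg e0 S0
  have hu : ∀ a, a ∉ D ∧ a i = 1 →
      |1 - G ⬝ᵥ pt (Function.update a k 1)| ≤ ε * S ∧
      |-1 - G ⬝ᵥ pt (Function.update a k (-1))| ≤ ε * S := by
    intro a ha
    have h1 := hN a ha 1 G
    have h2 := hN a ha (-1) G
    rw [(hv a ha).1] at h1
    rw [(hv a ha).2] at h2
    exact ⟨h1, h2⟩
  have a1 := abs_le.1 (hu a0 ha0).1
  have a2 := abs_le.1 (hu a0 ha0).2
  have b1 := abs_le.1 (hu b0 hb0).1
  have b2 := abs_le.1 (hu b0 hb0).2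
  have h1 := h0 G 1 1
  have h2 := h0 G 1 (-1)
  have h3 := same G a0 k 1 (-1)
  simp only [SignType.coe_neg, SignType.coe_one] at h1 h2 h3
  have gi : |G i| ≤ ε * S := by
    rw [abs_le]
    exact ⟨by linarith [a1.2, b2.2], by linarith [a1.1, b2.1]⟩
  have hall : ∀ j, j ≠ k → |G j| ≤ 2 * (ε * S) := by
    intro j jk
    by_cases ji : j = i
    · rw [ji]
      linarith
    · obtain ⟨a, b, ha, hb', h4⟩ := pat3 hM D hD ik ji jk 1 1 (-1) (Or.inr rfl)
      have h5 := h4 G 1 (-1)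
      simp only [SignType.coe_neg, SignType.coe_one] at h5
      have c1 := abs_le.1 (hu a ha).1
      have c2 := abs_le.1 (hu b hb').2
      have c3 := abs_le.1 gi
      rw [abs_le]
      exact ⟨by linarith [c1.2, c2.2, c3.2], by linarith [c1.1, c2.1, c3.1]⟩
  have hs := sum_le G k 1 (2 * (ε * S))
    (by
      rw [abs_le]
      exact ⟨by linarith [a1.2, a2.1], by linarith [a1.1, a2.2]⟩) hall
  have hs2 : Fintype.card ι * (2 * (ε * S)) ≤ 2 / 1000 * S := by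
    have : Fintype.card ι * (2 * (ε * S)) = 2 / 1000 * ((1000 * Fintype.card ι * ε) * S) := by
      ring
    rw [this]
    have := mul_le_mul_of_nonneg_right e1 S0
    linarith
  have S2 : S ≤ 2 := by linarith
  have S3 : ε * S ≤ ε * 2 := mul_le_mul_of_nonneg_left S2 e0
  linarith [a1.2, b1.2]

end Pool.Agent.MP_39e5ce_co.PS

end
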