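import Pool.Agent.MP_39e5ce_co.ps.Spec
import Pool.Agent.MP_39e5ce_co.nc.Geo

/-! Project PS, row GEO: from a convex body to the norm of its difference body. -/

noncomputable section

open Set
open scoped Classical Pointwise

namespace Pool.Agent.MP_39e5ce_co.PS

open Pool.Agent.MP_39e5ce_co.NC (sepa)

/-- the bound for a norm given as a definite seminorm -/
theorem geo_semi (h : CORE1) (F : Type) [AddCommGroup F] [Module ℝ F] [FiniteDimensional ℝ F]
    (p : Seminorm ℝ F) (hp : ∀ x, p x = 0 → x = 0) (φ : F →ₗ[ℝ] ℝ) (X : Finset F)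
    (h2 : 2 ≤ Module.finrank ℝ F) (h0 : φ ≠ 0) (h1 : ∀ x ∈ X, p x ≤ 1)
    (hs : ∀ x ∈ X, ∀ y ∈ X, x ≠ y → 1 ≤ p (x - y)) (hx : ∀ x ∈ X, x ≠ 0 → 0 < φ x) :
    (X.card : ℝ) ≤
      (1 - 1 / (1000 * (Module.finrank ℝ F : ℝ) ^ 3) ^ 634) *
        (2 * 3 ^ (Module.finrank ℝ F - 1)) := by
  let : NormedAddCommGroup F :=
    (⟨p.toAddGroupSeminorm, hp⟩ : AddGroupNorm F).toNormedAddCommGroup
  let : NormedSpace ℝ F := ⟨fun a b => (map_smul_eq_mul p a b).le⟩
  exact h F φ X h2 h0 h1 hs hx

theorem geo : CORE1 → GEO := by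
  intro h d K w V hd hc hK hi hw hV hV' hn
  have c1 : Convex ℝ (K - K) := hK.sub hK
  have c2 : Balanced ℝ (K - K) := (balanced_iff_neg_mem c1).2 fun x ⟨a, ha, b, hb, e⟩ =>
    ⟨b, hb, a, ha, by rw [← e]; exact (neg_sub a b).symm⟩
  have c3 : Absorbent ℝ (K - K) := by
    obtain ⟨k, hk⟩ := hi
    refine absorbent_nhds_zero ?_
    have a1 : ContinuousAt (fun x => x + k) 0 := (continuous_add_const k).continuousAt
    have a2 : K ∈ nhds (0 + k) := by
      rw [zero_add]
      exact mem_interior_iff_mem_nhds.1 hk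
    exact Filter.mem_of_superset (a1.preimage_mem_nhds a2) fun x hx =>
      ⟨x + k, hx, k, interior_subset hk, add_sub_cancel_right x k⟩
  have c4 : Bornology.IsVonNBounded ℝ (K - K) :=
    (NormedSpace.isVonNBounded_iff ℝ).2 (hc.isBounded.sub hc.isBounded)
  have V0 : (0 : EuclideanSpace ℝ (Fin d)) ∉ V := fun h => by simpa using hn 0 h
  have sp : ∀ a b, Disjoint (interior ((fun x => x + a) '' K)) (interior ((fun x => x + b) '' K)) →
      1 ≤ gauge (K - K) (a - b) := fun a b hab => by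
    obtain ⟨f, f1, f2⟩ := sepa hK hi hab
    by_contra hlt
    obtain ⟨t, t0, t1, _, ⟨x, hx, y, hy, rfl⟩, e⟩ := exists_lt_of_gauge_lt c3 (not_le.1 hlt)
    have a1 : t * f (x - y) = 1 := by rw [← f1, ← e]; exact (map_smul f t _).symm
    have a2 := mul_le_mul_of_nonneg_left (f2 x hx y hy) t0.le
    linarith
  have z0 : (fun x => x + (0 : EuclideanSpace ℝ (Fin d))) '' K = K := by simp
  have := geo_semi h _ (gaugeSeminorm c2 c1 c3) (fun x hx => (gauge_eq_zero c3 c4).1 hx)
    (-(innerₗ _ w)) (insert 0 V) (by simpa using hd)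
    (fun e => hw (by simpa using LinearMap.congr_fun e w))
    (fun x hx => by
      rcases Finset.mem_insert.1 hx with rfl | hx
      · simp
      · obtain ⟨_, ⟨y, hy, rfl⟩, hz⟩ := (hV' x hx).2
        exact gauge_le_one_of_mem ⟨_, hz, y, hy, add_sub_cancel_left y x⟩)
    (fun x hx y hy hxy => by
      refine sp x y ?_
      rcases Finset.mem_insert.1 hx with rfl | hx <;> rcases Finset.mem_insert.1 hy with rfl | hy
      · exact absurd rfl hxy
      · rw [z0]
        exact (hV' y hy).1.symm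
      · rw [z0]
        exact (hV' x hx).1
      · exact hV x hx y hy hxy)
    (fun x hx h0 => by simpa using hn x ((Finset.mem_insert.1 hx).resolve_left h0))
  rw [Finset.card_insert_of_notMem V0, finrank_euclideanSpace_fin] at this
  exact_mod_cast this

end Pool.Agent.MP_39e5ce_co.PS

end
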