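import Pool.Agent.MP_39e5ce_co.ps.Spec

/-! Project PS, row HS: volume inequalities for almost full packings. -/

noncomputable section

open MeasureTheory Metric Set
open scoped Classical Pointwise

namespace Pool.Agent.MP_39e5ce_co.PS

variable {E : Type} [NormedAddCommGroup E] [NormedSpace ℝ E] [FiniteDimensional ℝ E]
  [MeasurableSpace E] [BorelSpace E] (μ : Measure E) [μ.IsAddHaarMeasure]

omit [FiniteDimensional ℝ E] in
theorem hs_tr (g : E →L[ℝ] ℝ) (c : E) (s : ℝ) :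
    μ.real (ball c 1 ∩ {z | s < g z}) = T μ g (s - g c) := by
  unfold T
  have h : ball (0 : E) 1 ∩ {y | s - g c < g y} =
      (fun y => c + y) ⁻¹' (ball c 1 ∩ {z | s < g z}) := by
    ext y
    simp only [mem_inter_iff, mem_ball, mem_ofPred_eq, mem_preimage, map_add, dist_zero_right,
      dist_self_add_left]
    constructor
    · rintro ⟨h1, h2⟩; exact ⟨h1, by linarith⟩
    · rintro ⟨h1, h2⟩; exact ⟨h1, by linarith⟩
  rw [h, Measure.real, Measure.real, measure_preimage_add]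

theorem hs_sc (g : E →L[ℝ] ℝ) (s : ℝ) :
    μ.real (ball 0 3 ∩ {z | s < g z}) = 3 ^ dm E * T μ g (s / 3) := by
  unfold T
  have h : ball (0 : E) 3 ∩ {z | s < g z} =
      (3 : ℝ) • (ball (0 : E) 1 ∩ {y | s / 3 < g y}) := by
    ext z
    rw [mem_smul_set_iff_inv_smul_mem₀ (by norm_num)]
    simp only [mem_inter_iff, mem_ball, mem_ofPred_eq, dist_zero_right, map_smul, smul_eq_mul,
      norm_smul, Real.norm_eq_abs]
    rw [abs_of_pos (by norm_num : (0 : ℝ) < 3⁻¹)]
    constructor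
    · rintro ⟨h1, h2⟩; exact ⟨by linarith, by linarith⟩
    · rintro ⟨h1, h2⟩; exact ⟨by linarith, by linarith⟩
  rw [h, Measure.real, Measure.real, Measure.addHaar_smul, ENNReal.toReal_mul,
    ENNReal.toReal_ofReal (abs_nonneg _), abs_of_pos (by positivity)]

theorem hs_key (h1 : μ (ball 0 1) = 1) {τ : ℝ} {X : Finset E} {Q : E → Set E}
    (hP : Pack μ τ X Q) {Y : Finset E} (hY : Y ⊆ X) {S : Set E} (hS : MeasurableSet S) :
    ∑ x ∈ Y, (μ.real (ball ((2 : ℝ) • x) 1 ∩ S) - τ) ≤ μ.real (ball 0 3 ∩ S) := by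
  have hfin : ∀ (c : E) (r : ℝ) (A : Set E), A ⊆ ball c r → μ A ≠ ⊤ := fun c r A hA =>
    ((measure_mono hA).trans_lt measure_ball_lt_top).ne
  have step : ∀ x ∈ Y, μ.real (ball ((2 : ℝ) • x) 1 ∩ S) - τ ≤ μ.real (Q x ∩ S) := by
    intro x hx
    have hx' := hY hx
    have hd : μ.real (ball ((2 : ℝ) • x) 1 \ Q x) = 1 - μ.real (Q x) := by
      rw [measureReal_sdiff (hP.sub x hx') (hP.ms x hx') (hfin _ _ _ subset_rfl),
        vol_ball μ h1 _ one_pos, one_pow]
    have hsub : ball ((2 : ℝ) • x) 1 ∩ S ⊆ (Q x ∩ S) ∪ (ball ((2 : ℝ) • x) 1 \ Q x) := by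
      intro y hy
      by_cases hq : y ∈ Q x
      · exact Or.inl ⟨hq, hy.2⟩
      · exact Or.inr ⟨hy.1, hq⟩
    have h2 : μ.real (ball ((2 : ℝ) • x) 1 ∩ S) ≤
        μ.real ((Q x ∩ S) ∪ (ball ((2 : ℝ) • x) 1 \ Q x)) :=
      measureReal_mono hsub (hfin ((2 : ℝ) • x) 1 _
        (union_subset (inter_subset_left.trans (hP.sub x hx')) sdiff_subset))
    have h3 := measureReal_union_le (μ := μ) (Q x ∩ S) (ball ((2 : ℝ) • x) 1 \ Q x)
    have h4 := hP.big x hx'
    linarith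
  refine (Finset.sum_le_sum step).trans ?_
  rw [← measureReal_biUnion_finset (f := fun x => Q x ∩ S)
    (fun x hx y hy hxy =>
      (hP.dj x (hY hx) y (hY hy) hxy).mono inter_subset_left inter_subset_left)
    (fun x hx => (hP.ms x (hY hx)).inter hS)
    (fun x hx => hfin ((2 : ℝ) • x) 1 _ (inter_subset_left.trans (hP.sub x (hY hx))))]
  refine measureReal_mono ?_ (hfin 0 3 _ inter_subset_left)
  intro y hy
  simp only [mem_iUnion] at hy
  obtain ⟨x, hx, hq, hs⟩ := hy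
  refine ⟨?_, hs⟩
  have h5 := hP.sub x (hY hx) hq
  have h6 := hP.nm x (hY hx)
  rw [mem_ball, dist_eq_norm] at h5
  rw [mem_ball, dist_zero_right]
  have h7 : ‖y‖ ≤ ‖y - (2 : ℝ) • x‖ + ‖(2 : ℝ) • x‖ := by
    simpa using norm_add_le (y - (2 : ℝ) • x) ((2 : ℝ) • x)
  rw [norm_smul, Real.norm_eq_abs, abs_of_pos (by norm_num : (0 : ℝ) < 2)] at h7
  linarith

theorem hs_diff (g : E →L[ℝ] ℝ) (c : E) (r : ℝ) {s s' : ℝ} (h : s' ≤ s) :
    μ.real (ball c r ∩ ({z | s' < g z} \ {z | s < g z})) =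
      μ.real (ball c r ∩ {z | s' < g z}) - μ.real (ball c r ∩ {z | s < g z}) := by
  have hm : MeasurableSet {z : E | s < g z} :=
    (isOpen_lt continuous_const g.continuous).measurableSet
  have hsub : ball c r ∩ {z : E | s < g z} ⊆ ball c r ∩ {z : E | s' < g z} :=
    fun z hz => ⟨hz.1, lt_of_le_of_lt h hz.2⟩
  rw [← measureReal_sdiff hsub (measurableSet_ball.inter hm)
    ((measure_mono inter_subset_left).trans_lt measure_ball_lt_top).ne]
  congr 1
  ext z
  simp only [mem_inter_iff, mem_sdiff, mem_ofPred_eq]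
  tauto

theorem hs (h1 : μ (ball 0 1) = 1) : HS μ := by
  intro τ X Q hP
  have hm : ∀ (g : E →L[ℝ] ℝ) (s : ℝ), MeasurableSet {z : E | s < g z} := fun g s =>
    (isOpen_lt continuous_const g.continuous).measurableSet
  refine ⟨?_, fun g Y hY => ⟨fun s => ?_, fun s s' hss => ?_⟩⟩
  · have h := hs_key μ h1 hP (Finset.Subset.refl X) MeasurableSet.univ
    simp only [inter_univ, vol_ball μ h1 _ one_pos, one_pow, Finset.sum_const, nsmul_eq_mul,
      vol_ball μ h1 _ (by norm_num : (0 : ℝ) < 3)] at h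
    exact h
  · have h := hs_key μ h1 hP hY (hm g s)
    simp only [hs_tr, hs_sc, map_smul, smul_eq_mul] at h
    exact h
  · have h := hs_key μ h1 hP hY ((hm g s').diff (hm g s))
    simp only [hs_diff μ g _ _ hss, hs_tr, hs_sc, map_smul, smul_eq_mul] at h
    rw [mul_sub]
    exact h

end Pool.Agent.MP_39e5ce_co.PS

end
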