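import Pool.Agent.MP_39e5ce_co.ps.Spec

/-! Row LO: a slab with almost a third of the cells forces the uniform or the triangular type. -/

noncomputable section

open Finset Function
open scoped Classical

namespace Pool.Agent.MP_39e5ce_co.PS

open Pool.Agent.MP_39e5ce_co.NC (pt)

/-- two chains in the grid `3 × 3` -/
def loCh (a b : SignType) : Bool :=
  match a, b with
  | -1, 1 => true
  | 1, -1 => true
  | _, _ => false

theorem lo_gap {x y t : ℝ} (ht : 0 ≤ t) (hy : 2 * t < y) (hx : 2 * t < x - y)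
    (a b a' b' : SignType) (h : loCh a b = loCh a' b')
    (h1 : |x * ((a : ℝ) - a') + y * ((b : ℝ) - b')| ≤ 2 * t) : a = a' ∧ b = b' := by
  have h2 := abs_le.1 h1
  rcases a with _ | _ | _ <;> rcases b with _ | _ | _ <;> rcases a' with _ | _ | _ <;>
    rcases b' with _ | _ | _ <;>
    first
    | exact ⟨rfl, rfl⟩
    | exact absurd h (by decide)
    | (exfalso
       simp only [SignType.zero_eq_zero, SignType.neg_eq_neg_one, SignType.pos_eq_one,
         SignType.coe_zero, SignType.coe_one, SignType.coe_neg_one] at h2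
       obtain ⟨h3, h4⟩ := h2
       linarith)

theorem lo_two {κ : Type} [Fintype κ] (φ : κ → ℝ) {i k : κ} (ik : i ≠ k) {t : ℝ} (ht : 0 ≤ t)
    (hk : 2 * t < φ k) (hi : 2 * t < φ i - φ k) :
    9 * (univ.filter fun r : κ → SignType => |φ ⬝ᵥ pt r| ≤ t).card ≤ 2 * 3 ^ Fintype.card κ := by
  set Z := univ.filter fun r : κ → SignType => |φ ⬝ᵥ pt r| ≤ t
  have h1 : (Z ×ˢ (univ : Finset (SignType × SignType))).card ≤
      (univ : Finset ((κ → SignType) × Bool)).card := by
    refine card_le_card_of_injOn (fun q => (update (update q.1 i q.2.1) k q.2.2,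
      loCh (q.1 i) (q.1 k))) (fun _ _ => by simp) ?_
    rintro ⟨r, a, b⟩ hr ⟨r', a', b'⟩ hr' h
    have hr : r ∈ Z := (mem_product.1 hr).1
    have hr' : r' ∈ Z := (mem_product.1 hr').1
    obtain ⟨h1, h2⟩ := Prod.ext_iff.1 h
    have e1 : a = a' := by simpa [ik] using congrFun h1 i
    have e2 : b = b' := by simpa using congrFun h1 k
    have e4 : ∀ j, j ≠ i → j ≠ k → r j = r' j := fun j x y => by
      simpa [x, y] using congrFun h1 j
    have a1 := abs_le.1 (mem_filter.1 hr).2
    have a2 := abs_le.1 (mem_filter.1 hr').2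
    have a3 : φ ⬝ᵥ pt r - φ ⬝ᵥ pt r' =
        φ i * ((r i : ℝ) - r' i) + φ k * ((r k : ℝ) - r' k) := by
      rw [← dotProduct_sub, dotProduct]
      refine (Fintype.sum_eq_add i k ik fun j hj => ?_).trans rfl
      simp [pt, e4 j hj.1 hj.2]
    obtain ⟨f1, f2⟩ := lo_gap ht hk hi _ _ _ _ h2 (by
      rw [← a3, abs_le]; constructor <;> linarith [a1.1, a1.2, a2.1, a2.2])
    have e6 : r = r' := by
      funext j
      by_cases x : j = i
      · rw [x]; exact f1
      by_cases y : j = k
      · rw [y]; exact f2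
      exact e4 j x y
    rw [e1, e2, e6]
  rw [card_product, card_univ, card_univ, Fintype.card_prod, Fintype.card_prod,
    NC.card_cells, show Fintype.card SignType = 3 from rfl, Fintype.card_bool] at h1
  omega

theorem lo : LO := by
  intro ι _ c η h2 h0 hη hZ
  have hp : 0 < 3 ^ Fintype.card ι := by positivity
  by_contra hn
  rw [not_or] at hn
  obtain ⟨n1, n2⟩ := hn
  push Not at n1 n2
  obtain ⟨i0⟩ : Nonempty ι := Fintype.card_pos_iff.1 (by omega)
  obtain ⟨i, -, hi⟩ := n1 i0
  obtain ⟨k, ki, hk⟩ := n1 i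
  by_cases hd : |c i - c k| ≤ 2 * η
  · obtain ⟨l, li, lk, hl⟩ := n2 i k ki.symm hd
    have := NC.thin c h0 ki.symm li.symm lk.symm hi hk hl
    omega
  · rcases lt_abs.1 (not_le.1 hd) with g | g
    · have := lo_two c ki.symm hη hk g
      omega
    · have := lo_two c ki hη hi (by linarith)
      omega

end Pool.Agent.MP_39e5ce_co.PS

end
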