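import Pool.Agent.MP_39e5ce_co.ps.Spec

/-! Project PS, row MAJ: a pair of sign vectors with prescribed pattern outside a small set. -/

noncomputable section

open Finset
open scoped Classical

namespace Pool.Agent.MP_39e5ce_co.PS

theorem maj_card {ι : Type} [Fintype ι] (D : Finset (ι → SignType)) (J : Finset ι)
    (γ : ι → SignType) (σ : SignType) (hσ : σ = 1 ∨ σ = -1) (hJ : J.card ≤ 3) :
    (univ.filter fun c : ι → SignType =>
      (fun j => if j ∈ J then γ j else σ * c j) ∈ D).card ≤ 27 * D.card := by
  refine card_le_mul_card_image_of_maps_to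
    (f := fun c : ι → SignType => fun j => if j ∈ J then γ j else σ * c j)
    (fun c hc => (mem_filter.1 hc).2) 27 fun a _ => ?_
  have h1 : (univ : Finset (J → SignType)).card ≤ 27 := by
    rw [card_univ, Fintype.card_fun, Fintype.card_coe,
      show Fintype.card SignType = 3 from rfl]
    exact Nat.pow_le_pow_right (by norm_num) hJ
  refine le_trans (card_le_card_of_injOn (fun c : ι → SignType => fun j : J => c j)
    (fun _ _ => mem_coe.2 (mem_univ _)) fun c hc c' hc' h => ?_) h1
  have h2 := (mem_filter.1 (mem_coe.1 hc)).2.trans (mem_filter.1 (mem_coe.1 hc')).2.symm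
  funext j
  by_cases hj : j ∈ J
  · exact congrFun h ⟨j, hj⟩
  · have h3 := congrFun h2 j
    simp only [if_neg hj] at h3
    rcases hσ with rfl | rfl
    · simpa using h3
    · simpa using h3

theorem maj : MAJ := by
  intro ι _ D J α β σ hσ hJ hD
  have h1 := maj_card D J α 1 (Or.inl rfl) hJ
  have h2 := maj_card D J β σ hσ hJ
  have h3 : (univ : Finset (ι → SignType)).card = 3 ^ Fintype.card ι := by
    rw [card_univ, Fintype.card_fun, show Fintype.card SignType = 3 from rfl]
  obtain ⟨c, -, hc⟩ := exists_mem_notMem_of_card_lt_card (t := univ)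
    (((card_union_le _ _).trans (add_le_add h1 h2)).trans_lt (by rw [h3]; omega))
  simp only [mem_union, mem_filter, mem_univ, true_and, not_or] at hc
  refine ⟨_, _, hc.1, hc.2, fun j hj => ?_, fun j hj => ?_⟩
  · simp [hj]
  · simp [hj]

end Pool.Agent.MP_39e5ce_co.PS

end
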