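import Pool.Agent.MP_39e5ce_co.ps.Spec

/-! Project PS: the centres of small height are almost symmetric. -/

noncomputable section

open MeasureTheory Metric Set
open scoped Classical

namespace Pool.Agent.MP_39e5ce_co.PS

theorem mid (E : Type) [NormedAddCommGroup E] [NormedSpace ℝ E] [FiniteDimensional ℝ E] :
    SYM → MID E := by
  intro hS φ M ε τ hn hφ hM hτ hε hε1 hτ0 hτ1 hc
  obtain ⟨-, b, hb, hb1⟩ := hφ
  have hd : dm (LinearMap.ker (φ : E →ₗ[ℝ] ℝ)) + 1 = dm E :=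
    Module.Dual.finrank_ker_add_one_of_ne_zero (f := (φ : E →ₗ[ℝ] ℝ)) fun e => by
      have := LinearMap.congr_fun e b
      simp [hb1] at this
  set F := LinearMap.ker (φ : E →ₗ[ℝ] ℝ) with hF
  have n2 : (2 : ℝ) ≤ dm E := by exact_mod_cast hn
  have hm : (dm F : ℝ) ≤ dm E := by exact_mod_cast (by omega : dm F ≤ dm E)
  have hm0 : (0 : ℝ) ≤ dm F := Nat.cast_nonneg _
  have h3 : (3 : ℝ) ^ dm E / 3 = 3 ^ dm F := by rw [← hd, pow_succ]; ring
  have e1 : ε ≤ 1 / 2 := by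
    have : (1 : ℝ) ≤ (dm E : ℝ) ^ 3 := one_le_pow₀ (by linarith)
    nlinarith
  have e2 : τ ≤ ε := by
    have : ε ^ 14 ≤ ε := pow_le_of_le_one hε.le (by linarith) (by norm_num)
    nlinarith
  have p : 0 < 1 + τ := by linarith
  let π : E → F := fun x => ⟨(1 + τ)⁻¹ • (x - φ x • b), by simp [hF, hb1]⟩
  have hπ : ∀ x, (1 + τ) • (π x : E) = x - φ x • b := fun x => smul_inv_smul₀ p.ne' _
  have nb : ∀ t : ℝ, ‖t • b‖ = |t| := fun t => by rw [norm_smul, hb, mul_one, Real.norm_eq_abs]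
  have ns : ∀ y : F, ‖(1 + τ) • (y : E)‖ = (1 + τ) * ‖y‖ := fun y => by
    rw [norm_smul, Real.norm_eq_abs, abs_of_pos p]; rfl
  have a1 : ∀ x ∈ M, ‖π x‖ ≤ 1 := fun x hx => by
    have h := norm_sub_le x (φ x • b)
    rw [← hπ, ns, nb, abs_of_nonneg (hM.nn x hx)] at h
    have := hM.nm x hx
    have := hτ x hx
    exact le_of_mul_le_mul_left (by linarith) p
  have a2 : ∀ x ∈ M, ∀ y ∈ M, x ≠ y → 1 - τ ≤ (1 + τ) * ‖π x - π y‖ := fun x hx y hy n => by
    have h := norm_add_le ((1 + τ) • ((π x - π y : F) : E)) ((φ x - φ y) • b)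
    rw [ns, nb, Submodule.coe_sub, smul_sub, hπ, hπ, sub_smul,
      show x - φ x • b - (y - φ y • b) + (φ x • b - φ y • b) = x - y by abel] at h
    have := hM.sep x hx y hy n
    have : |φ x - φ y| ≤ τ := abs_le.2
      ⟨by linarith [hM.nn x hx, hτ y hy], by linarith [hM.nn y hy, hτ x hx]⟩
    linarith
  have inj : InjOn π M := fun x hx y hy e => by
    by_contra n
    have := a2 x hx y hy n
    rw [e, sub_self, norm_zero] at this
    linarith
  have hcard : (M.image π).card = M.card := Finset.card_image_of_injOn inj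
  obtain ⟨r1, Y', r2, r3, r4⟩ := hS F ε τ (M.image π) (by omega) hε
    (le_trans (by gcongr) hε1) hτ0 (le_trans (by gcongr) hτ1)
    (fun y hy => by
      obtain ⟨x, hx, rfl⟩ := Finset.mem_image.1 hy
      exact a1 x hx)
    (fun y hy y' hy' n => by
      obtain ⟨x, hx, rfl⟩ := Finset.mem_image.1 hy
      obtain ⟨x', hx', rfl⟩ := Finset.mem_image.1 hy'
      have := a2 x hx x' hx' fun e => n (by rw [e])
      exact le_of_mul_le_mul_left (by nlinarith [sq_nonneg τ]) p)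
    (by rw [hcard, ← h3]; exact hc)
  rw [h3]
  rw [hcard] at r1
  refine ⟨r1.trans (by gcongr), M.filter fun x => π x ∈ Y', Finset.filter_subset _ _,
    r3.trans ?_, fun x hx => ?_⟩
  · refine Nat.cast_le.2 (le_trans (Finset.card_le_card fun y hy => ?_)
      (Finset.card_image_le (f := π)))
    obtain ⟨x, hx, rfl⟩ := Finset.mem_image.1 (r2 hy)
    exact Finset.mem_image_of_mem π (Finset.mem_filter.2 ⟨hx, hy⟩)
  · obtain ⟨hx, hy⟩ := Finset.mem_filter.1 hx
    obtain ⟨y', hy', h⟩ := r4 _ hy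
    obtain ⟨x', hx', rfl⟩ := Finset.mem_image.1 hy'
    refine ⟨x', hx', ?_⟩
    have k := norm_add_le ((1 + τ) • ((π x + π x' : F) : E)) ((φ x + φ x') • b)
    rw [ns, nb, Submodule.coe_add, smul_add, hπ, hπ, add_smul,
      show x - φ x • b + (x' - φ x' • b) + (φ x • b + φ x' • b) = x + x' by abel,
      abs_of_nonneg (add_nonneg (hM.nn x hx) (hM.nn x' hx'))] at k
    have k1 : ‖π x + π x'‖ ≤ 96 * (dm E : ℝ) ^ 2 * ε := h.trans (by gcongr)
    have k2 : (1 + τ) * ‖π x + π x'‖ ≤ 2 * (96 * (dm E : ℝ) ^ 2 * ε) :=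
      mul_le_mul (by linarith) k1 (norm_nonneg _) (by norm_num)
    have k3 : 1 * ε ≤ (dm E : ℝ) ^ 2 * ε :=
      mul_le_mul_of_nonneg_right (one_le_pow₀ (by linarith)) hε.le
    linarith [hτ x hx, hτ x' hx']

end Pool.Agent.MP_39e5ce_co.PS

end
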