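import Pool.Agent.MP_39e5ce_co.ps.Spec

/-! Project PS, row NRM: a point of the outer shell whose supporting functionals see `u`. -/

noncomputable section

open MeasureTheory Metric Set
open scoped Classical

namespace Pool.Agent.MP_39e5ce_co.PS

theorem nrm_pow (r t : ℝ) (hr : 0 ≤ r) (ht : 0 ≤ t) (h : r + t ≤ 1) (n : ℕ) :
    (r + t) ^ n - r ^ n ≤ n * t := by
  induction n with
  | zero => simp
  | succ n ih =>
    have h1 : r ^ n ≤ 1 := pow_le_one₀ hr (by linarith)
    have h2 : r ^ n ≤ (r + t) ^ n := pow_le_pow_left₀ hr (by linarith) n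
    have h3 : 0 ≤ r ^ n := pow_nonneg hr n
    have h4 : (r + t) * ((r + t) ^ n - r ^ n) ≤ (r + t) ^ n - r ^ n :=
      mul_le_of_le_one_left (by linarith) h
    have h5 : t * r ^ n ≤ t := mul_le_of_le_one_right ht h1
    have h6 : (r + t) ^ (n + 1) - r ^ (n + 1) = (r + t) * ((r + t) ^ n - r ^ n) + t * r ^ n := by
      ring
    push_cast
    linarith

variable {E : Type} [NormedAddCommGroup E] [NormedSpace ℝ E] [FiniteDimensional ℝ E]
  [MeasurableSpace E] [BorelSpace E] (μ : Measure E) [μ.IsAddHaarMeasure]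

omit [BorelSpace E] in
theorem nrm_fin {S : Set E} {c : E} {r : ℝ} (h : S ⊆ ball c r) : μ S ≠ ⊤ :=
  ((measure_mono h).trans_lt measure_ball_lt_top).ne

theorem nrm_ind (w : E) (r : ℝ) (j : ℕ) :
    μ.real (ball ((j : ℝ) • w) r \ ball 0 r) ≤ j * μ.real (ball w r \ ball 0 r) := by
  induction j with
  | zero => simp
  | succ j ih =>
    have h1 : μ.real (ball (((j + 1 : ℕ) : ℝ) • w) r \ ball ((j : ℝ) • w) r)
        = μ.real (ball w r \ ball 0 r) := by
      have h2 : ball w r \ ball 0 r = (fun h => (j : ℝ) • w + h) ⁻¹'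
          (ball (((j + 1 : ℕ) : ℝ) • w) r \ ball ((j : ℝ) • w) r) := by
        ext y
        have e1 : (j : ℝ) • w + y - ((j + 1 : ℕ) : ℝ) • w = y - w := by
          push_cast
          rw [add_smul, one_smul]
          abel
        have e2 : (j : ℝ) • w + y - (j : ℝ) • w = y - 0 := by abel
        simp only [mem_preimage, mem_sdiff, mem_ball, dist_eq_norm, e1, e2]
      rw [h2, Measure.real, Measure.real, measure_preimage_add]
    have h3 : ball (((j + 1 : ℕ) : ℝ) • w) r \ ball 0 r ⊆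
        (ball (((j + 1 : ℕ) : ℝ) • w) r \ ball ((j : ℝ) • w) r) ∪
          (ball ((j : ℝ) • w) r \ ball 0 r) := by
      intro y hy
      by_cases h : y ∈ ball ((j : ℝ) • w) r
      · exact Or.inr ⟨h, hy.2⟩
      · exact Or.inl ⟨hy.1, h⟩
    have h4 := measureReal_mono (μ := μ) h3
      (measure_union_ne_top (nrm_fin μ sdiff_subset) (nrm_fin μ sdiff_subset))
    have h5 := measureReal_union_le (μ := μ)
      (ball (((j + 1 : ℕ) : ℝ) • w) r \ ball ((j : ℝ) • w) r) (ball ((j : ℝ) • w) r \ ball 0 r)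
    rw [h1] at h5
    have h6 : ((j + 1 : ℕ) : ℝ) * μ.real (ball w r \ ball 0 r)
        = j * μ.real (ball w r \ ball 0 r) + μ.real (ball w r \ ball 0 r) := by
      push_cast
      ring
    rw [h6]
    linarith

theorem nrm_low (h1 : μ (ball 0 1) = 1) {η : ℝ} {u : E} (h0 : 0 < η) (hη : η ≤ 1 / 2)
    (hn : dm E * η ≤ 1 / 2) (hu : ‖u‖ = 1) :
    η / 6 ≤ μ.real (ball (η • u) (1 - η) \ ball 0 (1 - η)) := by
  have h2 := nrm_ind μ (η • u) (1 - η) ⌈2 / η⌉₊
  have h3 : 2 / η ≤ (⌈2 / η⌉₊ : ℝ) := Nat.le_ceil _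
  have h4 : (⌈2 / η⌉₊ : ℝ) < 2 / η + 1 := Nat.ceil_lt_add_one (by positivity)
  generalize ⌈2 / η⌉₊ = j at h2 h3 h4
  have h5 : 2 ≤ (j : ℝ) * η := (div_le_iff₀ h0).1 h3
  have h6 : (j : ℝ) * η ≤ 3 := by
    have h7 : (j : ℝ) * η ≤ (2 / η + 1) * η := mul_le_mul_of_nonneg_right h4.le h0.le
    rw [add_mul, div_mul_cancel₀ _ h0.ne'] at h7
    linarith
  have h7 : Disjoint (ball ((j : ℝ) • η • u) (1 - η)) (ball (0 : E) (1 - η)) := by
    refine ball_disjoint_ball ?_
    rw [dist_zero_right, norm_smul, norm_smul, hu, Real.norm_of_nonneg (Nat.cast_nonneg j),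
      Real.norm_of_nonneg h0.le, mul_one]
    linarith
  rw [h7.sdiff_eq_left, vol_ball μ h1 _ (by linarith)] at h2
  have h8 : 1 + (dm E : ℝ) * (-η) ≤ (1 + -η) ^ dm E := one_add_mul_le_pow (by linarith) _
  rw [← sub_eq_add_neg] at h8
  have h9 : 0 ≤ μ.real (ball (η • u) (1 - η) \ ball 0 (1 - η)) := measureReal_nonneg
  generalize μ.real (ball (η • u) (1 - η) \ ball 0 (1 - η)) = m at h2 h9 ⊢
  have h10 : 1 / 2 ≤ (j : ℝ) * m := by linarith
  have h11 : 1 / 2 * η ≤ (j : ℝ) * m * η := mul_le_mul_of_nonneg_right h10 h0.le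
  have h12 : (j : ℝ) * η * m ≤ 3 * m := mul_le_mul_of_nonneg_right h6 h9
  nlinarith

theorem nrm (h1 : μ (ball 0 1) = 1) : NRM μ := by
  intro η B u h0 hn hu hB hm
  have hnt : Nontrivial E := ⟨u, 0, fun h => by simp [h] at hu⟩
  have hd : 1 ≤ dm E := Module.finrank_pos
  have hd' : (1 : ℝ) ≤ dm E := by exact_mod_cast hd
  have hη : η ≤ 1 / 2 := by nlinarith
  have hA := nrm_low μ h1 h0 hη hn hu
  obtain ⟨t, ht0, ht⟩ : ∃ t : ℝ, 0 < t ∧ 24 * dm E * t = η :=
    ⟨η / (24 * dm E), by positivity, by field_simp⟩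
  have ht1 : t ≤ η := by nlinarith
  have hL : μ.real (ball (0 : E) (1 - η + t) \ ball 0 (1 - η)) ≤ η / 24 := by
    rw [measureReal_sdiff (ball_subset_ball (by linarith)) measurableSet_ball
      measure_ball_lt_top.ne, vol_ball μ h1 _ (by linarith), vol_ball μ h1 _ (by linarith)]
    have h2 := nrm_pow (1 - η) t (by linarith) ht0.le (by linarith) (dm E)
    linarith
  have hN : μ.real (-B) = μ.real B := by
    rw [Measure.real, Measure.real, Measure.measure_neg]
  have hBf : μ B ≠ ⊤ := nrm_fin μ hB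
  have hNf : μ (-B) ≠ ⊤ := by rwa [Measure.measure_neg]
  have hex : ¬ ball (η • u) (1 - η) \ ball 0 (1 - η) ⊆
      (ball (0 : E) (1 - η + t) \ ball 0 (1 - η)) ∪ (B ∪ -B) := by
    intro hs
    have h2 := measureReal_mono (μ := μ) hs
      (measure_union_ne_top (nrm_fin μ sdiff_subset) (measure_union_ne_top hBf hNf))
    have h3 := measureReal_union_le (μ := μ) (ball (0 : E) (1 - η + t) \ ball 0 (1 - η)) (B ∪ -B)
    have h4 := measureReal_union_le (μ := μ) B (-B)
    linarith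
  obtain ⟨y, hy, hy'⟩ := not_subset.1 hex
  have hy1 : ‖y - η • u‖ < 1 - η := by
    have h2 := hy.1
    rwa [mem_ball, dist_eq_norm] at h2
  have hy2 : 1 - η + t ≤ ‖y‖ := by
    by_contra hc
    exact hy' (Or.inl ⟨mem_ball_zero_iff.2 (not_le.1 hc), hy.2⟩)
  have hy3 : ‖y‖ < 1 := by
    have h2 : ‖y‖ ≤ ‖y - η • u‖ + ‖η • u‖ := by
      have h3 := norm_add_le (y - η • u) (η • u)
      rwa [sub_add_cancel] at h3
    rw [norm_smul, hu, Real.norm_of_nonneg h0.le, mul_one] at h2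
    linarith
  refine ⟨y, by linarith, hy3, fun h => hy' (Or.inr (Or.inl h)),
    fun h => hy' (Or.inr (Or.inr (mem_neg.2 h))), fun g hg hgy => ?_⟩
  have h2 := (le_abs_self _).trans (hg (y - η • u))
  rw [map_sub, map_smul, smul_eq_mul, hgy] at h2
  have h3 : t < η * g u := by linarith
  rw [← ht] at h3
  by_contra hc
  have h4 : t * (24 * dm E * g u) < t * 1 := mul_lt_mul_of_pos_left (not_le.1 hc) ht0
  nlinarith

end Pool.Agent.MP_39e5ce_co.PS

end
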