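import Pool.Agent.MP_39e5ce_co.ps.Spec

/-!
Project PS: most points of the outer shell have many flush centres.
-/

noncomputable section

open MeasureTheory Metric Set
open scoped Classical

namespace Pool.Agent.MP_39e5ce_co.PS

variable {E : Type} [NormedAddCommGroup E] [NormedSpace ℝ E]

theorem shl_pt {x y : E} {η θ : ℝ} (hx : ‖x‖ ≤ 1) (h0 : 0 < η) (h1 : η ≤ θ) (h2 : θ ≤ 1 / 2)
    (hy : y ∈ AffineMap.homothety x (1 - θ) '' Wx x η) :
    (‖y‖ < 1 ∧ 1 - η < ‖y‖) ∧ ∀ g : E →L[ℝ] ℝ, Sh g → g y = ‖y‖ → 1 - η / θ ≤ g x := by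
  obtain ⟨z, ⟨a, b⟩, rfl⟩ := hy
  have e : AffineMap.homothety x (1 - θ) z = (1 - θ) • z + θ • x := by
    rw [AffineMap.homothety_apply, vsub_eq_sub, vadd_eq_add]
    module
  rw [e]
  have a' : ‖z‖ < 1 := mem_ball_zero_iff.1 a
  have b' : 3 - η < ‖(2 : ℝ) • x + z‖ := b
  have t0 : 0 < θ := h0.trans_le h1
  have c : 1 - η < ‖(1 - θ) • z + θ • x‖ := by
    have f := norm_add_le ((1 - θ) • z + θ • x) ((2 - 3 * θ) • x)
    rw [show (1 - θ) • z + θ • x + (2 - 3 * θ) • x = (1 - θ) • ((2 : ℝ) • x + z) by module,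
      norm_smul_of_nonneg (by linarith), norm_smul_of_nonneg (by linarith)] at f
    nlinarith
  refine ⟨⟨?_, c⟩, fun g hg e' => ?_⟩
  · have f := norm_add_le ((1 - θ) • z) (θ • x)
    rw [norm_smul_of_nonneg (by linarith), norm_smul_of_nonneg t0.le] at f
    nlinarith
  · rw [← e', map_add, map_smul, map_smul, smul_eq_mul, smul_eq_mul] at c
    have f := (le_abs_self _).trans (hg z)
    rw [sub_le_iff_le_add, ← sub_le_iff_le_add', le_div_iff₀ t0]
    nlinarith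

theorem shl_num {N u A t τ β W P m s : ℝ} (hN : 0 < N) (hu : 0 ≤ u) (hA : 0 ≤ A) (ht : 0 ≤ t)
    (ht' : t ≤ 1) (hτ : 0 ≤ τ) (hm : 0 ≤ m) (hW : 0 ≤ W) (hP : 1 - t ≤ P) (hs : s ≤ A)
    (h1 : N * (A * (1 - A / 3) - 6 * τ) ≤ W)
    (h2 : (N * (1 + 4 * u) - (1 - β) * N) * m ≤ N * (1 + 4 * u) * s - P * W) :
    β * m ≤ A * (4 * u + t + A / 3) + 6 * τ := by
  refine le_of_mul_le_mul_left ?_ hN
  have a1 := mul_le_mul_of_nonneg_right hP hW
  have a2 := mul_le_mul_of_nonneg_left h1 (sub_nonneg.2 ht')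
  have a3 := mul_le_mul_of_nonneg_left hs (show 0 ≤ N * (1 + 4 * u) by positivity)
  have a4 : 0 ≤ N * u * m := by positivity
  have a5 : 0 ≤ N * t * τ := by positivity
  have a6 : 0 ≤ N * t * A * A := by positivity
  nlinarith

variable [FiniteDimensional ℝ E] [MeasurableSpace E] [BorelSpace E] (μ : Measure E)
  [μ.IsAddHaarMeasure]

theorem shl (h1 : μ (ball 0 1) = 1) : UB μ → CNT μ → WX μ → SH μ := by
  intro ub cnt wx τ η θ β X Q hn hp hτ hX h0 h2 h3 hβ h4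
  have n1 : (1 : ℝ) ≤ dm E := by exact_mod_cast hn
  have t0 : 0 < θ := h0.trans_le h2
  have t1 : θ ≤ 1 / 2 := by nlinarith
  have u0 : 0 ≤ η / θ := by positivity
  have u1 : 0 ≤ dm E * (η / θ) := by positivity
  have hN : (0 : ℝ) < 3 ^ dm E / 3 := by positivity
  have key : ∀ (y : E) (g : E →L[ℝ] ℝ), Sh g → g y = ‖y‖ →
      ((X.filter fun x => y ∈ AffineMap.homothety x (1 - θ) '' Wx x η).card : ℝ) ≤
        cn g X (η / θ) := fun y g hg e =>
    Nat.cast_le.2 (Finset.card_le_card fun x hx => by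
      obtain ⟨a, b⟩ := Finset.mem_filter.1 hx
      exact Finset.mem_filter.2 ⟨a, (shl_pt (hp.nm x a) h0 h2 t1 b).2 g hg e⟩)
  have mS : ∀ y : E, y ∈ ball (0 : E) 1 \ closedBall 0 (1 - η) ↔ ‖y‖ < 1 ∧ 1 - η < ‖y‖ :=
    fun y => by simp
  obtain ⟨B, b1, b2, b3⟩ := cnt X (fun x => AffineMap.homothety x (1 - θ) '' Wx x η)
    (ball 0 1 \ closedBall 0 (1 - η)) (3 ^ dm E / 3 * (1 + 4 * (dm E * (η / θ) + τ)))
    ((1 - β) * (3 ^ dm E / 3)) (measurableSet_ball.diff measurableSet_closedBall)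
    (ne_top_of_le_ne_top measure_ball_lt_top.ne (measure_mono sdiff_subset))
    (fun x hx => ⟨(AffineMap.homothety_isOpenMap x (1 - θ) (by linarith) _ (isOpen_ball.inter
      (isOpen_lt continuous_const (by fun_prop)))).measurableSet,
      fun y hy => (mS y).2 (shl_pt (hp.nm x hx) h0 h2 t1 hy).1⟩) (by nlinarith) fun y hy => by
      obtain ⟨g, g1, g2⟩ := ex_sup y
      have y0 : y ≠ 0 := norm_pos_iff.1 (by linarith [((mS y).1 hy).2])
      refine (key y g g1 g2).trans (ub τ _ X Q g hp ⟨g1, ‖y‖⁻¹ • y, norm_smul_inv_norm y0, ?_⟩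
        u0 hτ h4)
      rw [map_smul, g2, smul_eq_mul, inv_mul_cancel₀ (norm_ne_zero_iff.2 y0)]
  refine ⟨B, b1.trans sdiff_subset, ?_, fun y y1 y2 y3 g g1 g2 =>
    (b2 y ((mS y).2 ⟨y2, y1⟩) y3).trans (key y g g1 g2)⟩
  have e : ∑ x ∈ X, μ.real (AffineMap.homothety x (1 - θ) '' Wx x η) =
      (1 - θ) ^ dm E * ∑ x ∈ X, μ.real (Wx x η) := by
    rw [Finset.mul_sum]
    refine Finset.sum_congr rfl fun x _ => ?_
    rw [Measure.real, Measure.addHaar_image_homothety, ENNReal.toReal_mul,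
      ENNReal.toReal_ofReal (abs_nonneg _), abs_of_nonneg (pow_nonneg (by linarith) _),
      Measure.real]
  have pw : ∀ r : ℝ, r ≤ 1 → 1 - dm E * r ≤ (1 - r) ^ dm E := fun r hr => by
    have := one_add_mul_le_pow (show -2 ≤ -r by linarith) (dm E)
    rwa [mul_neg, ← sub_eq_add_neg, ← sub_eq_add_neg] at this
  rw [e] at b3
  refine shl_num hN (add_nonneg u1 hτ) (by positivity) (by positivity) (by linarith) hτ
    measureReal_nonneg (Finset.sum_nonneg fun _ _ => measureReal_nonneg) (pw θ (by linarith)) ?_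
    (wx τ η X Q hp hτ (by linarith) hX h0 (by linarith)) b3
  rw [measureReal_sdiff (closedBall_subset_ball (by linarith)) measurableSet_closedBall
    measure_ball_lt_top.ne, vol_ball μ h1 0 one_pos, vol_cball μ h1 0 (by linarith), one_pow]
  linarith [pw η (by linarith)]

end Pool.Agent.MP_39e5ce_co.PS

end
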