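import Pool.Agent.MP_39e5ce_co.ps.Spec

/-! Project PS: slabs of equal width get smaller away from the centre. -/

noncomputable section

open MeasureTheory Metric Set
open scoped Classical

namespace Pool.Agent.MP_39e5ce_co.PS

variable {E : Type} [NormedAddCommGroup E] [NormedSpace ℝ E] [FiniteDimensional ℝ E]
  [MeasurableSpace E] [BorelSpace E] (μ : Measure E) [μ.IsAddHaarMeasure]

theorem slab (h1 : μ (ball 0 1) = 1) : BM μ → CAP μ → SLAB μ := by
  intro hB _ g hg a a' w ha haa hw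
  have hm : ∀ s : ℝ, MeasurableSet {y | s < g y} := fun s =>
    (isOpen_lt continuous_const g.continuous).measurableSet
  let S : ℝ → Set E := fun s => (ball 0 1 ∩ {y | s < g y}) \ {y | s + w < g y}
  have hS : ∀ s, MeasurableSet (S s) := fun s => (measurableSet_ball.inter (hm s)).diff (hm _)
  have hf : ∀ t ⊆ ball (0 : E) 1, μ t ≠ ⊤ := fun t ht =>
    ne_top_of_le_ne_top (h1.trans_ne ENNReal.one_ne_top) (measure_mono ht)
  have hfS : ∀ s, μ (S s) ≠ ⊤ := fun s => hf _ fun y hy => hy.1.1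
  have e : ∀ s, T μ g s - T μ g (s + w) = μ.real (S s) := fun s => by
    have h2 := measureReal_inter_add_sdiff (μ := μ) (s := ball 0 1 ∩ {y | s < g y}) (hm (s + w))
      (hf _ inter_subset_left)
    have h3 : ball (0 : E) 1 ∩ {y | s < g y} ∩ {y | s + w < g y} = ball 0 1 ∩ {y | s + w < g y} :=
      Set.ext fun y => ⟨fun h => ⟨h.1.1, h.2⟩,
        fun h => ⟨⟨h.1, lt_trans (lt_add_of_pos_right s hw) h.2⟩, h.2⟩⟩
    rw [h3] at h2
    rw [T, T, ← h2, add_sub_cancel_left]
  rw [e, e]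
  rcases haa.eq_or_lt with rfl | hlt
  · exact le_rfl
  rcases (measureReal_nonneg (μ := μ) (s := S a')).eq_or_lt with h0 | h0
  · exact h0 ▸ measureReal_nonneg
  have hn := hg.one_le
  obtain ⟨r, hr, hr1⟩ : ∃ r : ℝ, 0 < r ∧ r ^ dm E = μ.real (S a') :=
    ⟨_, Real.rpow_pos_of_pos h0 _, Real.rpow_inv_natCast_pow h0.le (by omega)⟩
  have hd : 0 < 2 * a' + w := by linarith
  obtain ⟨l, hl⟩ : ∃ l : ℝ, l * (2 * a' + w) = a' - a := ⟨_, div_mul_cancel₀ _ hd.ne'⟩
  have hl0 : 0 < l := lt_of_mul_lt_mul_right (by linarith) hd.le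
  have hl1 : l < 1 := lt_of_mul_lt_mul_right (by linarith) hd.le
  have hA : μ (S a') = ENNReal.ofReal (r ^ dm E) := by
    rw [hr1, ofReal_measureReal (hfS _)]
  have h2 := hB (S a') (Neg.neg ⁻¹' S a') (S a) l r r hn hl0 hl1 hr hr (hS _)
    (measurable_neg (hS _)) (hS _) hA (by rw [Measure.measure_preimage_neg, hA]) (by
      rintro x ⟨⟨x1, x2⟩, x3⟩ y ⟨⟨y1, y2⟩, y3⟩
      simp only [mem_ofPred_eq, map_neg, not_lt] at x2 x3 y2 y3
      have y0 : y ∈ ball (0 : E) 1 := by simpa using y1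
      have hl2 : 0 < 1 - l := by linarith
      refine ⟨⟨convex_ball 0 1 x1 y0 hl2.le hl0.le (by ring), ?_⟩, ?_⟩
      · simp only [mem_ofPred_eq, map_add, map_smul, smul_eq_mul]
        linarith [mul_lt_mul_of_pos_left x2 hl2, mul_le_mul_of_nonneg_left y3 hl0.le]
      · simp only [mem_ofPred_eq, map_add, map_smul, smul_eq_mul, not_lt]
        linarith [mul_le_mul_of_nonneg_left x3 hl2.le, mul_lt_mul_of_pos_left y2 hl0])
  rw [show (1 - l) * r + l * r = r by ring, ← hA] at h2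
  exact ENNReal.toReal_mono (hfS _) h2

end Pool.Agent.MP_39e5ce_co.PS

end
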