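import Pool.Agent.MP_39e5ce_co.ps.Spec

/-! The structure theorem from its steps. -/

set_option linter.unusedSectionVars false

noncomputable section

open MeasureTheory Metric Set
open scoped Classical

namespace Pool.Agent.MP_39e5ce_co.PS

variable {E : Type} [NormedAddCommGroup E] [NormedSpace ℝ E] [FiniteDimensional ℝ E]
  [MeasurableSpace E] [BorelSpace E] (μ : Measure E) [μ.IsAddHaarMeasure]

theorem sta_neg {F : Type} [NormedAddCommGroup F] [NormedSpace ℝ F] {g : F →L[ℝ] ℝ} (h : Sh g) :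
    Sh (-g) := fun y => by
  rw [neg_apply, abs_neg]; exact h y

theorem sta_un {F : Type} [NormedAddCommGroup F] [NormedSpace ℝ F] {g : F →L[ℝ] ℝ} (h : Sh g)
    {y : F} (hy : 0 < ‖y‖) (e : g y = ‖y‖) : Un g := by
  refine ⟨h, ‖y‖⁻¹ • y, ?_, ?_⟩
  · rw [norm_smul, norm_inv, norm_norm, inv_mul_cancel₀ hy.ne']
  · rw [map_smul, e, smul_eq_mul, inv_mul_cancel₀ hy.ne']

theorem sta_num {n ε τ m : ℝ} (hn : 1 ≤ n) (h0 : 0 < ε) (h1 : n * ε ≤ 1 / 1000) (hτ : τ ≤ ε ^ 14)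
    (h : ε ^ 3 * m ≤ n * ε ^ 10 * (4 * (n * ε ^ 5 + τ) + n * ε ^ 5 + n * ε ^ 10 / 3) + 6 * τ) :
    m < ε ^ 10 / 16 := by
  have e1 : ε ≤ 1 / 1000 := by nlinarith
  have p : ∀ k : ℕ, ε ^ k ≤ 1 := fun k => pow_le_one₀ h0.le (by linarith)
  have n0 : 0 ≤ n * ε := by positivity
  have a1 : (n * ε) ^ 2 ≤ 1 / 1000 := by nlinarith
  have a2 : n * ε * ε ^ 10 ≤ 1 / 1000 := (mul_le_of_le_one_right n0 (p 10)).trans h1
  have a3 : (n * ε) ^ 2 * ε ^ 5 ≤ 1 / 1000 :=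
    (mul_le_of_le_one_right (by positivity) (p 5)).trans a1
  have b : n * ε ^ 10 * (4 * (n * ε ^ 5 + τ) + n * ε ^ 5 + n * ε ^ 10 / 3) + 6 * τ ≤
      n * ε ^ 10 * (4 * (n * ε ^ 5 + ε ^ 14) + n * ε ^ 5 + n * ε ^ 10 / 3) + 6 * ε ^ 14 := by
    gcongr
  have c : n * ε ^ 10 * (4 * (n * ε ^ 5 + ε ^ 14) + n * ε ^ 5 + n * ε ^ 10 / 3) + 6 * ε ^ 14 =
      ε ^ 13 * (5 * (n * ε) ^ 2 + 4 * (n * ε * ε ^ 10) + (n * ε) ^ 2 * ε ^ 5 / 3 + 6 * ε) := by
    ring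
  have d : ε ^ 13 * (5 * (n * ε) ^ 2 + 4 * (n * ε * ε ^ 10) + (n * ε) ^ 2 * ε ^ 5 / 3 + 6 * ε) <
      ε ^ 13 * (1 / 16) := mul_lt_mul_of_pos_left (by linarith) (by positivity)
  refine lt_of_mul_lt_mul_left ?_ (pow_pos h0 3).le
  calc ε ^ 3 * m < ε ^ 13 * (1 / 16) := by linarith
    _ = ε ^ 3 * (ε ^ 10 / 16) := by ring

theorem sta (_h1 : μ (ball 0 1) = 1) : SH μ → NRM μ → BAS E → DIG μ → INJ μ → ST μ := by
  intro hSH hNRM hBAS hDIG hINJ ε τ X Q hd h0 h3 hτ0 hτ hP hX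
  have hn : (1 : ℝ) ≤ dm E := by exact_mod_cast hd
  have n3 : (dm E : ℝ) ≤ (dm E : ℝ) ^ 3 := le_self_pow₀ hn (by norm_num)
  have h1 : (dm E : ℝ) * ε ≤ 1 / 1000 := by nlinarith
  have e1 : ε ≤ 1 / 1000 := by nlinarith
  have p : ∀ k : ℕ, ε ^ (k + 1) ≤ ε := fun k => by
    rw [pow_succ]; exact mul_le_of_le_one_left h0.le (pow_le_one₀ h0.le (by linarith))
  have pn : ∀ k : ℕ, (dm E : ℝ) * ε ^ (k + 1) ≤ 1 / 1000 := fun k =>
    (mul_le_mul_of_nonneg_left (p k) (by linarith)).trans h1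
  have q : ∀ j k : ℕ, ε ^ (j + (k + 1)) ≤ ε ^ j / 1000 := fun j k => by
    rw [pow_add, div_eq_mul_one_div]
    exact mul_le_mul_of_nonneg_left ((p k).trans e1) (by positivity)
  have ediv : ε ^ 10 / ε ^ 5 = ε ^ 5 := by field_simp
  have t1 : τ ≤ 1 / 1000 := hτ.trans ((p 13).trans e1)
  obtain ⟨B, hB, hB1, hB2⟩ := hSH τ (ε ^ 10) (ε ^ 5) (ε ^ 3) X Q hd hP hτ0 hX (by positivity)
    (by have := q 5 4; have : 0 < ε ^ 5 := by positivity
        linarith)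
    (by have := pn 4; linarith) (by positivity) (by rw [ediv]; have := pn 4; linarith)
  rw [ediv] at hB1 hB2
  have hB3 := sta_num hn h0 h1 hτ hB1
  obtain ⟨g, hg, hg2⟩ := hBAS {g | Un g ∧ Un (-g) ∧
      (1 - ε ^ 3) * (3 ^ dm E / 3) ≤ cn g X (ε ^ 5) ∧
      (1 - ε ^ 3) * (3 ^ dm E / 3) ≤ cn (-g) X (ε ^ 5)} (1 / (24 * dm E)) (by positivity)
    (fun g hg => hg.1.1) (fun u hu => by
      obtain ⟨y, y1, y2, y3, y4, y5⟩ := hNRM (ε ^ 10) B u (by positivity)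
        (by have := pn 9; linarith) hu hB hB3
      obtain ⟨g, g1, g2⟩ := ex_sup y
      have y0 : 0 < ‖y‖ := by
        have : ε ^ 10 ≤ ε := p 9
        linarith
      have g3 : (-g) (-y) = ‖-y‖ := by
        rw [neg_apply, map_neg, neg_neg, norm_neg, g2]
      refine ⟨g, ⟨sta_un g1 y0 g2, sta_un (sta_neg g1) (by rwa [norm_neg]) g3,
        hB2 y y1 y2 y3 g g1 g2, hB2 (-y) (by rwa [norm_neg]) (by rwa [norm_neg]) y4 _
          (sta_neg g1) g3⟩, ?_⟩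
      rw [div_le_iff₀ (by positivity)]
      have := y5 g g1 g2
      linarith)
  have hz : ∀ (z : E) (s : ℝ), (∀ i, |g i z| ≤ s) → ‖z‖ ≤ 48 * (dm E : ℝ) ^ 2 * s := by
    intro z s h
    have := hg2 z s h
    rw [one_div, inv_mul_le_iff₀ (by positivity)] at this
    linarith
  have dig : ∀ f : E →L[ℝ] ℝ, Un f → (1 - ε ^ 3) * (3 ^ dm E / 3) ≤ cn f X (ε ^ 5) →
      ((X.filter fun x => ε < f x ∧ f x < 1 - ε ^ 5).card : ℝ) ≤ 2 * ε ^ 2 * 3 ^ dm E := by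
    intro f f1 f2
    have a1 : ε ^ 3 ≤ ε ^ 1 / 1000 := q 1 1
    have a2 : ε ^ 14 ≤ ε ^ 1 / 1000 := q 1 12
    have a3 : (dm E : ℝ) * ε ^ 5 ≤ 1 / 1000 * ε := by
      calc (dm E : ℝ) * ε ^ 5 = dm E * ε ^ 4 * ε := by ring
        _ ≤ _ := mul_le_mul_of_nonneg_right (pn 3) h0.le
    rw [pow_one] at a1 a2
    have := hDIG τ (ε ^ 5) (ε ^ 3) ε X Q f hP f1 (by positivity) hτ0 (by positivity) h0
      (by linarith) (by linarith) f2
    refine le_of_mul_le_mul_right (this.trans ?_) h0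
    have a4 : ε ^ 5 ≤ ε ^ 3 / 1000 := q 3 1
    have a5 : ε ^ 14 ≤ ε ^ 3 / 1000 := q 3 10
    have a6 : 0 < ε ^ 3 := by positivity
    calc (3 : ℝ) ^ dm E * (ε ^ 3 + ε ^ 5 + τ) ≤ 3 ^ dm E * (2 * ε ^ 3) :=
          mul_le_mul_of_nonneg_left (by linarith) (by positivity)
      _ = _ := by ring
  set D : Finset E := Finset.univ.biUnion fun i =>
    (X.filter fun x => ε < g i x ∧ g i x < 1 - ε ^ 5) ∪
      X.filter fun x => ε < (-g i) x ∧ (-g i) x < 1 - ε ^ 5 with hD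
  have cD : (D.card : ℝ) ≤ ε / 2 * 3 ^ dm E := by
    have c1 : (D.card : ℝ) ≤ ∑ _i : Fin (dm E), 4 * ε ^ 2 * 3 ^ dm E := by
      refine le_trans (Nat.cast_le.2 Finset.card_biUnion_le) ?_
      rw [Nat.cast_sum]
      refine Finset.sum_le_sum fun i _ => le_trans (Nat.cast_le.2 (Finset.card_union_le _ _)) ?_
      rw [Nat.cast_add]
      have b1 := dig _ (hg i).1 (hg i).2.2.1
      have b2 := dig _ (hg i).2.1 (hg i).2.2.2
      linarith
    rw [Finset.sum_const, Finset.card_univ, Fintype.card_fin, nsmul_eq_mul] at c1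
    refine c1.trans ?_
    calc (dm E : ℝ) * (4 * ε ^ 2 * 3 ^ dm E) = (4 * (dm E * ε)) * (ε * 3 ^ dm E) := by ring
      _ ≤ (1 / 2) * (ε * 3 ^ dm E) := mul_le_mul_of_nonneg_right (by linarith) (by positivity)
      _ = _ := by ring
  let v : E → Fin (dm E) → SignType := fun x i =>
    if 1 / 2 < g i x then 1 else if g i x < -(1 / 2) then -1 else 0
  have near : ∀ x ∈ X \ D, ∀ i, |g i x - (v x i : ℝ)| ≤ ε := by
    intro x hx i
    obtain ⟨x1, x2⟩ := Finset.mem_sdiff.1 hx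
    have b0 := abs_le.1 (((hg i).1.1 x).trans (hP.nm x x1))
    have b1 : ¬ (ε < g i x ∧ g i x < 1 - ε ^ 5) := fun h => x2 (Finset.mem_biUnion.2
      ⟨i, Finset.mem_univ _, Finset.mem_union_left _ (Finset.mem_filter.2 ⟨x1, h⟩)⟩)
    have b2 : ¬ (ε < -g i x ∧ -g i x < 1 - ε ^ 5) := fun h => x2 (Finset.mem_biUnion.2
      ⟨i, Finset.mem_univ _, Finset.mem_union_right _ (Finset.mem_filter.2 ⟨x1, h⟩)⟩)
    have b3 : ε ^ 5 ≤ ε := p 4
    rw [not_and_or, not_lt, not_lt] at b1 b2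
    rw [abs_le]
    simp only [v]
    split_ifs with c1 c2
    · rw [SignType.coe_one]
      rcases b1 with b1 | b1 <;> constructor <;> linarith [b0.1, b0.2]
    · rw [SignType.coe_neg_one]
      rcases b2 with b2 | b2 <;> constructor <;> linarith [b0.1, b0.2]
    · rw [SignType.coe_zero]
      rw [not_lt] at c1 c2
      rcases b1 with b1 | b1 <;> rcases b2 with b2 | b2 <;> constructor <;> linarith
  refine ⟨g, X \ D, v, fun i => (hg i).1.1, hz, Finset.sdiff_subset, ?_, ?_, near⟩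
  · have : X.card ≤ (X \ D).card + D.card := Finset.card_le_card_sdiff_add_card
    have : (X.card : ℝ) ≤ (X \ D).card + D.card := by exact_mod_cast this
    linarith
  · intro x hx y hy e
    by_contra ne
    have a1 := hINJ τ X Q hP (by linarith) x (Finset.mem_sdiff.1 hx).1 y
      (Finset.mem_sdiff.1 hy).1 ne
    have a2 := hz (x - y) (2 * ε) fun i => by
      have b1 := abs_le.1 (near x hx i)
      have b2 := abs_le.1 (near y hy i)
      rw [e] at b1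
      rw [map_sub, abs_le]
      constructor <;> linarith [b1.1, b1.2, b2.1, b2.2]
    have a3 : 2 * (dm E : ℝ) * ‖x - y‖ ≤ 2 * dm E * (48 * (dm E : ℝ) ^ 2 * (2 * ε)) :=
      mul_le_mul_of_nonneg_left a2 (by positivity)
    have a4 : 2 * dm E * (48 * (dm E : ℝ) ^ 2 * (2 * ε)) = 192 * ((dm E : ℝ) ^ 3 * ε) := by ring
    linarith

end Pool.Agent.MP_39e5ce_co.PS

end
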