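import Pool.Agent.MP_39e5ce_co.ps.Spec

/-! Project PS, row STAR: the symmetrised configuration is an almost full packing. -/

noncomputable section

open MeasureTheory Metric Set
open scoped Classical

namespace Pool.Agent.MP_39e5ce_co.PS

variable {E : Type} [NormedAddCommGroup E] [NormedSpace ℝ E] [FiniteDimensional ℝ E]
  [MeasurableSpace E] [BorelSpace E] (μ : Measure E) [μ.IsAddHaarMeasure]

omit [FiniteDimensional ℝ E] [MeasurableSpace E] [BorelSpace E] in
theorem star_dj {x y : E} {r s : ℝ} (h : r + s ≤ 2 * ‖x - y‖) :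
    Disjoint (ball ((2 : ℝ) • x) r) (ball ((2 : ℝ) • y) s) := by
  refine ball_disjoint_ball ?_
  rwa [dist_eq_norm, ← smul_sub, norm_smul, Real.norm_ofNat]

theorem star (h1 : μ (ball 0 1) = 1) : STAR μ := by
  intro φ X M M' U τ ρ hX hM hU hd hM' hs hu r0 r1 r2
  have m0 : ∀ x ∈ M', 0 ≤ φ x := fun x hx => hX.nn x (hM (hM' hx))
  have n0 : ∀ z, -z ∈ U → φ z < 0 := fun z hz => by
    have := (hu _ hz).1
    rwa [map_neg, neg_pos] at this
  have mu : ∀ x ∈ U, x ∉ M' := fun x hx h => Finset.disjoint_left.1 hd (hM' h) hx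
  have nm : ∀ z, -z ∈ U → z ∉ M' := fun z hz h => (n0 z hz).not_ge (m0 z h)
  have nu : ∀ z, -z ∈ U → z ∉ U := fun z hz h => (n0 z hz).not_gt (hu z h).1
  have mem : ∀ z, z ∈ M' ∪ U ∪ U.image Neg.neg ↔ z ∈ M' ∨ z ∈ U ∨ -z ∈ U := fun z => by
    rw [Finset.mem_union, Finset.mem_union, or_assoc, Finset.mem_image]
    refine or_congr_right (or_congr_right ⟨?_, fun h => ⟨_, h, neg_neg z⟩⟩)
    rintro ⟨u, h, rfl⟩
    rwa [neg_neg]
  set Q : E → Set E := fun z => if z ∈ M' then ball ((2 : ℝ) • z) (1 - 2 * ρ) else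
    if z ∈ U then ball ((2 : ℝ) • z) 1 ∩ {y | 0 < φ y} else ball ((2 : ℝ) • z) 1 ∩ {y | φ y < 0}
    with hQ
  have q1 : ∀ z ∈ M', Q z = ball ((2 : ℝ) • z) (1 - 2 * ρ) := fun z h => if_pos h
  have q2 : ∀ z ∈ U, Q z = ball ((2 : ℝ) • z) 1 ∩ {y | 0 < φ y} := fun z h =>
    (if_neg (mu z h)).trans (if_pos h)
  have q3 : ∀ z, -z ∈ U → Q z = ball ((2 : ℝ) • z) 1 ∩ {y | φ y < 0} := fun z h =>
    (if_neg (nm z h)).trans (if_neg (nu z h))
  have sub : ∀ z, Q z ⊆ ball ((2 : ℝ) • z) 1 := fun z => by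
    simp only [hQ]
    split_ifs
    exacts [ball_subset_ball (by linarith), inter_subset_left, inter_subset_left]
  have far : ∀ x y : E, 1 ≤ ‖x - y‖ → Disjoint (Q x) (Q y) := fun x y h =>
    (star_dj (by linarith)).mono (sub x) (sub y)
  have d1 : ∀ x ∈ M', ∀ y, -y ∈ U → Disjoint (Q x) (Q y) := fun x hx y hy => by
    obtain ⟨x', a1, a2⟩ := hs x hx
    have a3 := hX.sep _ (hU hy) x' (hM a1) fun e => Finset.disjoint_left.1 hd a1 (e ▸ hy)
    have a4 := norm_sub_le (x - y) (x + x')
    rw [show x - y - (x + x') = -y - x' by abel] at a4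
    rw [q1 x hx]
    exact (star_dj (by linarith)).mono_right (sub y)
  have d2 : ∀ x ∈ U, ∀ y, -y ∈ U → Disjoint (Q x) (Q y) := fun x hx y hy => by
    rw [q2 x hx, q3 y hy]
    exact disjoint_left.2 fun z a b => lt_asymm (show 0 < φ z from a.2) b.2
  refine ⟨M' ∪ U ∪ U.image Neg.neg, Q, ⟨fun z hz => ?_, fun z _ => ?_, fun z _ => sub z,
    fun x hx y hy hne => ?_, fun z hz => ?_⟩, ?_, fun z hz => (mem z).2 (Or.inl hz),
    fun z hz h0 => ?_⟩
  · rcases (mem z).1 hz with h | h | h
    · exact hX.nm z (hM (hM' h))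
    · exact hX.nm z (hU h)
    · exact norm_neg z ▸ hX.nm _ (hU h)
  · simp only [hQ]
    split_ifs
    · exact measurableSet_ball
    · exact measurableSet_ball.inter (isOpen_lt continuous_const φ.continuous).measurableSet
    · exact measurableSet_ball.inter (isOpen_lt φ.continuous continuous_const).measurableSet
  · rcases (mem x).1 hx with h | h | h <;> rcases (mem y).1 hy with h' | h' | h'
    · exact far x y (hX.sep x (hM (hM' h)) y (hM (hM' h')) hne)
    · exact far x y (hX.sep x (hM (hM' h)) y (hU h') hne)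
    · exact d1 x h y h'
    · exact far x y (hX.sep x (hU h) y (hM (hM' h')) hne)
    · exact far x y (hX.sep x (hU h) y (hU h') hne)
    · exact d2 x h y h'
    · exact (d1 y h' x h).symm
    · exact (d2 y h' x h).symm
    · have := hX.sep _ (hU h') _ (hU h) fun e => hne (neg_injective e).symm
      rw [neg_sub_neg] at this
      exact far x y this
  · rcases (mem z).1 hz with h | h | h
    · rw [q1 z h, vol_ball μ h1 _ (by linarith)]
      have := one_add_mul_le_pow (a := -(2 * ρ)) (by linarith) (dm E)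
      rw [← sub_eq_add_neg] at this
      linarith
    · rw [q2 z h]
      exact (hu z h).2
    · have e : Q z = -(ball ((2 : ℝ) • -z) 1 ∩ {y | 0 < φ y}) := by
        rw [q3 z h]
        ext y
        simp only [mem_inter_iff, mem_ball, mem_ofPred_eq, Set.mem_neg, smul_neg, dist_neg_neg,
          map_neg, neg_pos]
      rw [e, Measure.real, Measure.measure_neg]
      exact (hu _ h).2
  · rw [Finset.card_union_of_disjoint, Finset.card_union_of_disjoint
      (Finset.disjoint_right.2 mu), Finset.card_image_of_injective _ neg_injective]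
    · ring
    · refine Finset.disjoint_right.2 fun z hz h => ?_
      obtain ⟨u, a, rfl⟩ := Finset.mem_image.1 hz
      rw [← neg_neg u] at a
      rcases Finset.mem_union.1 h with h | h
      exacts [nm _ a h, nu _ a h]
  · rcases (mem z).1 hz with h | h | h
    exacts [hM (hM' h), hU h, absurd h0 (n0 z h).not_ge]

end Pool.Agent.MP_39e5ce_co.PS

end
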