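import Pool.Agent.MP_39e5ce_co.ps.Spec

/-!
Row SYM: an almost full, almost separated set is almost symmetric.
-/

noncomputable section

open MeasureTheory Metric Set
open scoped Classical

namespace Pool.Agent.MP_39e5ce_co.PS

theorem sym_count {E ι : Type} [Fintype ι] (X : Finset E) (v : E → ι → SignType)
    (hv : InjOn v X) :
    2 * X.card ≤ (X.filter fun x => -v x ∈ X.image v).card + 3 ^ Fintype.card ι := by
  have h1 := Finset.card_filter_add_card_filter_not (s := X) (fun x => -v x ∈ X.image v)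
  have h2 : (X.filter fun x => ¬ -v x ∈ X.image v).card ≤ (X.image v)ᶜ.card := by
    refine Finset.card_le_card_of_injOn (fun x => -v x) (fun x hx => ?_) (fun x hx y hy e => ?_)
    · exact Finset.mem_coe.2 (Finset.mem_compl.2 (Finset.mem_filter.1 (Finset.mem_coe.1 hx)).2)
    · exact hv (Finset.mem_filter.1 (Finset.mem_coe.1 hx)).1
        (Finset.mem_filter.1 (Finset.mem_coe.1 hy)).1 (neg_injective e)
  have h3 := Finset.card_add_card_compl (X.image v)
  have h4 := Finset.card_image_of_injOn hv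
  have h5 : Fintype.card (ι → SignType) = 3 ^ Fintype.card ι := by
    rw [Fintype.card_fun]
    rfl
  omega

theorem sym : STALL → SYM := by
  intro hS F _ _ _ ε τ Y hm hε hε1 hτ hτ1 hn hsep hc
  borelize F
  obtain ⟨ν, hν, h1⟩ := ex_haar (E := F)
  obtain ⟨hST, hHS⟩ := hS F ν h1
  have hm' : (1 : ℝ) ≤ dm F := by exact_mod_cast hm
  have hε2 : ε ≤ 1 / 1000 := by
    have : (1 : ℝ) ≤ (dm F : ℝ) ^ 3 := one_le_pow₀ hm'
    nlinarith
  have hε3 : ε ^ 14 ≤ ε / 2 := by
    have k1 : ε ^ 13 ≤ ε ^ 1 := pow_le_pow_of_le_one hε.le (by linarith) (by norm_num)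
    have k2 : ε ^ 14 = ε ^ 13 * ε := by ring
    rw [k2]
    nlinarith
  have hτ2 : 4 * τ ≤ 4 * dm F * τ := by nlinarith
  have hτ3 : 0 < 1 - 2 * τ := by linarith
  have hP : ∀ t : ℝ, 2 * dm F * τ ≤ t → Pack ν t Y fun y => ball ((2 : ℝ) • y) (1 - 2 * τ) := by
    intro t ht
    refine ⟨hn, fun _ _ => measurableSet_ball, fun _ _ => ball_subset_ball (by linarith),
      fun x hx y hy e => ball_disjoint_ball ?_, fun x _ => ?_⟩
    · rw [dist_eq_norm, ← smul_sub, norm_smul, Real.norm_two]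
      linarith [hsep x hx y hy e]
    · rw [vol_ball ν h1 _ hτ3]
      have := one_add_mul_le_pow (a := -(2 * τ)) (by linarith) (dm F)
      rw [← sub_eq_add_neg] at this
      nlinarith
  have h3 : (0 : ℝ) < 3 ^ dm F := by positivity
  constructor
  · have k := (hHS _ Y _ (hP _ le_rfl)).1
    have k0 : (0 : ℝ) ≤ Y.card := by positivity
    have k1 : (0 : ℝ) ≤ 2 * dm F * τ := by positivity
    have k2 : 1 ≤ (1 - 2 * dm F * τ) * (1 + 4 * dm F * τ) := by nlinarith
    calc (Y.card : ℝ) ≤ Y.card * ((1 - 2 * dm F * τ) * (1 + 4 * dm F * τ)) :=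
          le_mul_of_one_le_right k0 k2
      _ = (1 + 4 * dm F * τ) * (Y.card * (1 - 2 * dm F * τ)) := by ring
      _ ≤ (1 + 4 * dm F * τ) * 3 ^ dm F := mul_le_mul_of_nonneg_left k (by linarith)
  · obtain ⟨g, X, v, -, hg, hX, hcard, hinj, hv⟩ := hST ε (4 * dm F * τ) Y _ hm hε hε1
      (by positivity) hτ1 (hP _ (by nlinarith)) (le_trans (by nlinarith) hc)
    refine ⟨X.filter fun x => -v x ∈ X.image v, (Finset.filter_subset _ _).trans hX, ?_, ?_⟩
    · have k := sym_count X v hinj
      rw [Fintype.card_fin] at k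
      have k' : 2 * (X.card : ℝ) ≤ (X.filter fun x => -v x ∈ X.image v).card + 3 ^ dm F := by
        exact_mod_cast k
      nlinarith
    · intro y hy
      obtain ⟨hy1, hy2⟩ := Finset.mem_filter.1 hy
      obtain ⟨y', hy', e⟩ := Finset.mem_image.1 hy2
      refine ⟨y', hX hy', (hg (y + y') (2 * ε) fun i => ?_).trans (le_of_eq (by ring))⟩
      have k1 := abs_le.1 (hv y hy1 i)
      have k2 := abs_le.1 (hv y' hy' i)
      rw [e, Pi.neg_apply, SignType.coe_neg] at k2
      rw [map_add, abs_le]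
      constructor <;> linarith [k1.1, k1.2, k2.1, k2.2]

end Pool.Agent.MP_39e5ce_co.PS

end
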