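import Pool.Agent.MP_39e5ce_co.ps.Spec

/-!
Rows UB and INJ of project PS: few centres are flush with a functional, and centres are apart.
-/

noncomputable section

open MeasureTheory Metric Set
open scoped Classical

namespace Pool.Agent.MP_39e5ce_co.PS

variable {E : Type} [NormedAddCommGroup E] [NormedSpace ℝ E] [FiniteDimensional ℝ E]
  [MeasurableSpace E] [BorelSpace E] (μ : Measure E) [μ.IsAddHaarMeasure]

omit [BorelSpace E] [μ.IsAddHaarMeasure] in
theorem ub (hcap : CAP μ) (hcvx : CVX μ) (hhs : HS μ) : UB μ := by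
  intro τ η X Q g hP hg hη hτ hu
  obtain ⟨-, -, han, -, -, hlo, -⟩ := hcap g hg
  have hn : (1 : ℝ) ≤ dm E := by exact_mod_cast hg.one_le
  have hη' : η ≤ 1 / 4 := by nlinarith
  have h6 : T μ g (2 / 3) ≤ 1 / 6 := by
    have := (hcvx g hg).1 (2 / 3) (by norm_num) (by norm_num)
    linarith
  have hs := ((hhs τ X Q hP).2 g (X.filter fun x => 1 - η ≤ g x) (Finset.filter_subset _ _)).1 2
  have hb : 1 - 2 * (dm E * η) ≤ (1 - 2 * η) ^ dm E := by
    have := one_add_mul_le_pow (a := -(2 * η)) (by linarith) (dm E)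
    rw [← sub_eq_add_neg] at this
    linarith
  have ht : ∀ x ∈ X.filter fun x => 1 - η ≤ g x,
      1 / 2 - (dm E * η + τ) ≤ T μ g (2 - 2 * g x) - τ := by
    intro x hx
    have h1 := (Finset.mem_filter.1 hx).2
    have h2 : T μ g (2 * η) ≤ T μ g (2 - 2 * g x) := han (by linarith)
    have h3 := hlo (2 * η) (by linarith) (by linarith)
    linarith
  have hc := Finset.card_nsmul_le_sum _ _ _ ht
  rw [nsmul_eq_mul] at hc
  have h3 : (0 : ℝ) < 3 ^ dm E := by positivity
  have hu0 : 0 ≤ dm E * η + τ := by positivity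
  have hk : (cn g X η : ℝ) * (1 / 2 - (dm E * η + τ)) ≤ 3 ^ dm E / 6 := by
    have := mul_le_mul_of_nonneg_left h6 h3.le
    unfold cn
    linarith
  have hc0 : (0 : ℝ) ≤ cn g X η := Nat.cast_nonneg _
  generalize (cn g X η : ℝ) = c at *
  generalize dm E * η + τ = u at *
  have h4 := mul_le_mul_of_nonneg_right hk (show 0 ≤ 1 + 4 * u by linarith)
  have h5 : 0 ≤ c * (u * (1 - 4 * u)) := mul_nonneg hc0 (mul_nonneg hu0 (by linarith))
  nlinarith

theorem inj (h1 : μ (ball 0 1) = 1) : INJ μ := by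
  intro τ X Q hP hτ x hx y hy hxy
  by_contra hc
  push Not at hc
  have : Nontrivial E := ⟨x, y, hxy⟩
  have hn : (1 : ℝ) ≤ dm E := by exact_mod_cast (Module.finrank_pos : 0 < Module.finrank ℝ E)
  have hr0 := norm_nonneg (x - y)
  have hr : ‖x - y‖ < 1 / 2 := by nlinarith
  have hd : ∀ z ∈ X, μ.real (ball ((2 : ℝ) • z) 1 \ Q z) ≤ τ := by
    intro z hz
    rw [measureReal_sdiff (hP.sub z hz) (hP.ms z hz) measure_ball_lt_top.ne,
      vol_ball μ h1 _ one_pos, one_pow]
    linarith [hP.big z hz]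
  have hin : ∀ a b z : E, z ∈ ball (a + b) (1 - ‖a - b‖) → z ∈ ball ((2 : ℝ) • a) 1 := by
    intro a b z hz
    rw [mem_ball, dist_eq_norm] at hz ⊢
    have e : z - (2 : ℝ) • a = (z - (a + b)) - (a - b) := by
      rw [two_smul]; abel
    have := norm_sub_le (z - (a + b)) (a - b)
    rw [e]
    linarith
  have hsub : ball (x + y) (1 - ‖x - y‖) ⊆
      (ball ((2 : ℝ) • x) 1 \ Q x) ∪ (ball ((2 : ℝ) • y) 1 \ Q y) := by
    intro z hz
    by_cases hq : z ∈ Q x
    · refine Or.inr ⟨hin y x z ?_, fun h => disjoint_left.1 (hP.dj x hx y hy hxy) hq h⟩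
      rwa [add_comm, norm_sub_rev]
    · exact Or.inl ⟨hin x y z hz, hq⟩
  have hfin : μ ((ball ((2 : ℝ) • x) 1 \ Q x) ∪ (ball ((2 : ℝ) • y) 1 \ Q y)) ≠ ⊤ :=
    (measure_union_lt_top ((measure_mono sdiff_subset).trans_lt measure_ball_lt_top)
      ((measure_mono sdiff_subset).trans_lt measure_ball_lt_top)).ne
  have hm := (measureReal_mono hsub hfin).trans (measureReal_union_le _ _)
  rw [vol_ball μ h1 _ (by linarith)] at hm
  have hb := one_add_mul_le_pow (a := -‖x - y‖) (by linarith) (dm E)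
  rw [← sub_eq_add_neg] at hb
  have := hd x hx
  have := hd y hy
  nlinarith

end Pool.Agent.MP_39e5ce_co.PS

end
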