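import Pool.Agent.MP_39e5ce_co.ps.Spec

/-! The weight of a slab against a half-space. -/

noncomputable section

open Set

namespace Pool.Agent.MP_39e5ce_co.PS

theorem wgt_pow (n : ℕ) {q d : ℝ} (h0 : 0 ≤ q) (h1 : q ≤ 1) (hd : 0 ≤ d) :
    q ^ n * (1 + n * d) ≤ (q + d) ^ n := by
  refine (mul_le_mul_of_nonneg_left (one_add_mul_le_pow (by linarith) n)
    (pow_nonneg h0 n)).trans ?_
  rw [← mul_pow]
  exact pow_le_pow_left₀ (by positivity) (by nlinarith) n

theorem wgt_ber (n : ℕ) {u : ℝ} (h : u ≤ 1) : 1 - n * u ≤ (1 - u) ^ n := by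
  have := one_add_mul_le_pow (a := -u) (by linarith) n
  rwa [mul_neg, ← sub_eq_add_neg, ← sub_eq_add_neg] at this

theorem wgt_cc {G : ℝ → ℝ} (h : ConcaveOn ℝ (Ico 0 1) G) {s t : ℝ} (s0 : 0 ≤ s) (s1 : s < 1)
    (t0 : 0 ≤ t) (t1 : t ≤ 1) : (1 - t) * G 0 + t * G s ≤ G (t * s) := by
  simpa using h.2 (⟨le_rfl, one_pos⟩ : (0 : ℝ) ∈ Ico 0 1) (⟨s0, s1⟩ : s ∈ Ico 0 1)
    (sub_nonneg.2 t1) t0 (sub_add_cancel 1 t)

theorem wgt : WGT := by
  intro n f τ κ hn k0 k1 t0 t1 f0 fa fp f1 fl fu hc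
  obtain ⟨G, hc, Gp, Gn⟩ : ∃ G : ℝ → ℝ, ConcaveOn ℝ (Ico 0 1) G ∧ (∀ a, 0 ≤ G a) ∧
      ∀ a, G a ^ n = f a := ⟨_, hc, fun a => Real.rpow_nonneg (fp a) _, fun a => by
        rw [one_div, Real.rpow_inv_natCast_pow (fp a) (by omega)]⟩
  have n0 : n ≠ 0 := by omega
  have n1 : (1 : ℝ) ≤ n := by exact_mod_cast hn
  have k4 : κ ≤ 1 / 4 := by nlinarith
  have xn : G 0 ^ n = 1 / 2 := (Gn 0).trans f0
  have x0 : 0 < G 0 := (Gp 0).lt_of_ne fun e => by
    rw [← e, zero_pow n0] at xn
    norm_num at xn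
  obtain ⟨u, hu⟩ : ∃ u, G κ = (1 - u) * G 0 := ⟨1 - G κ / G 0, by field_simp; ring⟩
  have u0 : 0 < u := by
    have := lt_of_pow_lt_pow_left₀ n (Gp 0) (show G κ ^ n < G 0 ^ n by
      rw [Gn, xn]
      linarith [fu κ k0.le (by linarith)])
    rw [hu] at this
    nlinarith
  have u1 : u ≤ κ := by
    have := le_of_pow_le_pow_left₀ n0 (Gp κ) (show ((1 - κ) * G 0) ^ n ≤ G κ ^ n by
      rw [Gn, mul_pow, xn]
      linarith [fl κ k0.le (by linarith)])
    rw [hu] at this
    nlinarith
  have nu : n * u ≤ n * κ := mul_le_mul_of_nonneg_left u1 (by linarith)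
  have nu0 : 0 < n * u := by positivity
  obtain ⟨h, hh⟩ : ∃ h, (1 - u) ^ n = 1 - h := ⟨1 - (1 - u) ^ n, by ring⟩
  have h1 : h ≤ n * u := by linarith [wgt_ber n (u := u) (by linarith)]
  have h2 : n * u ≤ h * (1 + n * u) := by
    have := wgt_pow n (q := 1 - u) (d := u) (by linarith) (by linarith) u0.le
    rw [hh, sub_add_cancel, one_pow] at this
    linarith
  have h0 : 0 < h := by
    by_contra c
    nlinarith
  have cc : ∀ a, 0 ≤ a → a + κ < 1 → G (a + κ) ≤ G a - u * G 0 := fun a a0 a1 => by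
    have s : 0 < a + κ := by linarith
    have b := wgt_cc hc s.le a1 (t := a / (a + κ)) (by positivity) ((div_le_one s).2 (by linarith))
    have c := wgt_cc hc s.le a1 (t := 1 - a / (a + κ))
      (sub_nonneg.2 ((div_le_one s).2 (by linarith))) (sub_le_self _ (by positivity))
    rw [div_mul_cancel₀ _ s.ne'] at b
    rw [sub_mul 1 _ (a + κ), div_mul_cancel₀ _ s.ne', one_mul, add_sub_cancel_left, hu] at c
    linarith
  refine ⟨h⁻¹, by positivity, fun a a0 => ?_, fun a a0 b c => ?_, ?_⟩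
  · rw [le_inv_mul_iff₀ h0]
    have := fp a
    rcases le_or_gt 1 (a + κ) with k | k
    · rw [f1 _ k]
      nlinarith
    · have x : G a ≤ G 0 := le_of_pow_le_pow_left₀ n0 (Gp 0) (by rw [Gn, Gn]; exact fa a0)
      have y := pow_le_pow_left₀ (Gp _) ((cc a a0 k).trans
        (show G a - u * G 0 ≤ (1 - u) * G a by nlinarith)) n
      rw [mul_pow, hh, Gn, Gn] at y
      linarith
  · rw [le_inv_mul_iff₀ h0]
    obtain ⟨r, hr⟩ : ∃ r, τ = n * r := ⟨τ / n, by field_simp⟩
    have r0 : 0 < r := by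
      by_contra e
      nlinarith
    have r1 : r ≤ τ := by nlinarith
    have e : τ ^ 2 / (4 * n) = τ * r / 4 := by
      rw [hr]
      field_simp
    rw [e]
    rcases le_or_gt 1 (a + κ) with k | k
    · rw [f1 _ k]
      have : τ * r / 4 ≤ f a := by nlinarith
      have := mul_le_mul_of_nonneg_right (show h ≤ 1 / 4 by linarith)
        (show 0 ≤ f a + τ * r / 4 by have := fp a; positivity)
      linarith [fp a]
    · have x : G a ≤ (1 - r) * G 0 := le_of_pow_le_pow_left₀ n0
        (mul_nonneg (by linarith) x0.le) (by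
          rw [Gn, mul_pow, xn]
          linarith [wgt_ber n (u := r) (by linarith)])
      have ur : u * r ≤ u := by nlinarith
      have ur0 : 0 ≤ u * r := by positivity
      have y := pow_le_pow_left₀ (Gp _) ((cc a a0 k).trans
        (show G a - u * G 0 ≤ (1 - (u + u * r)) * G a by
          have := Gp a
          have : G a ≤ G 0 := by nlinarith
          have := mul_le_mul_of_nonneg_left x u0.le
          have := mul_le_mul_of_nonneg_left ‹G a ≤ G 0› ur0
          linarith)) n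
      have z := wgt_pow n (q := 1 - (u + u * r)) (d := u * r) (by linarith) (by linarith) ur0
      have w := wgt_ber n (u := u + u * r) (by linarith)
      rw [show 1 - (u + u * r) + u * r = 1 - u by ring, hh] at z
      rw [mul_pow, Gn, Gn] at y
      generalize (1 - (u + u * r)) ^ n = q at y z w
      have e1 : n * (u * r) = u * τ := by
        rw [hr]
        ring
      have e2 : n * (u * r) ≤ n * u := mul_le_mul_of_nonneg_left ur (by linarith)
      rw [e1] at z
      have a1 : 1 / 2 * (u * τ) ≤ q * (u * τ) :=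
        mul_le_mul_of_nonneg_right (by linarith) (by positivity)
      have a2 : (q + u * τ / 2) * f a ≤ (1 - h) * f a :=
        mul_le_mul_of_nonneg_right (by linarith) (fp a)
      have a3 : u * τ * τ ≤ u * τ * (2 * f a) := mul_le_mul_of_nonneg_left b (by positivity)
      have a4 : h * (τ * r) ≤ n * u * (τ * r) := mul_le_mul_of_nonneg_right h1 (by positivity)
      have a5 : n * u * (τ * r) = u * τ * τ := by
        rw [hr]
        ring
      linarith
  · rw [inv_mul_le_iff₀ h0, f0]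
    have b := wgt_cc hc k0.le (by linarith) (t := 1 / 3) (by norm_num) (by norm_num)
    rw [hu, show 1 / 3 * κ = κ / 3 by ring] at b
    have y := pow_le_pow_left₀ (mul_nonneg (show 0 ≤ 1 - u / 3 by linarith) x0.le)
      (le_trans (by linarith) b) n
    rw [mul_pow, xn, Gn] at y
    have := mul_le_mul_of_nonneg_left nu h0.le
    have := mul_nonneg h0.le (nu0.le.trans nu)
    linarith [wgt_ber n (u := u / 3) (by linarith)]

end Pool.Agent.MP_39e5ce_co.PS

end
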