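import Pool.Agent.MP_39e5ce_co.ps.Spec

/-! Project PS, row WX: the tiles fill most of the outer shell of the container. -/

noncomputable section

open MeasureTheory Metric Set
open scoped Classical

namespace Pool.Agent.MP_39e5ce_co.PS

theorem wx_pow (n : ℕ) {u : ℝ} (h0 : 0 ≤ u) (h1 : u ≤ 1) :
    (1 - u) ^ n ≤ 1 - n * u + (n * u) ^ 2 := by
  induction n with
  | zero => simp
  | succ n ih =>
    have hn : (0 : ℝ) ≤ n := Nat.cast_nonneg n
    have h2 := mul_le_mul_of_nonneg_right ih (sub_nonneg.2 h1)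
    rw [pow_succ]
    push_cast
    nlinarith [mul_nonneg (mul_nonneg hn hn) (pow_nonneg h0 3), mul_nonneg hn (sq_nonneg u),
      sq_nonneg u]

variable {E : Type} [NormedAddCommGroup E] [NormedSpace ℝ E] [FiniteDimensional ℝ E]
  [MeasurableSpace E] [BorelSpace E] (μ : Measure E) [μ.IsAddHaarMeasure]

omit [FiniteDimensional ℝ E] [MeasurableSpace E] [BorelSpace E] in
theorem wx_sub {x : E} (hx : ‖x‖ ≤ 1) : ball ((2 : ℝ) • x) 1 ⊆ ball (0 : E) 3 := by
  refine ball_subset_ball' ?_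
  rw [dist_zero_right, norm_smul, Real.norm_ofNat]
  linarith

theorem wx (h1 : μ (ball 0 1) = 1) : WX μ := by
  intro τ η X Q hP hτ hτ1 hc hη hη1
  have fin : ∀ S : Set E, S ⊆ ball 0 3 → μ S ≠ ⊤ := fun S h =>
    ((measure_mono h).trans_lt measure_ball_lt_top).ne
  have hQ : ∀ x ∈ X, Q x ⊆ ball (0 : E) 3 := fun x hx => (hP.sub x hx).trans (wx_sub (hP.nm x hx))
  have h3 : μ.real (ball (0 : E) 3) = 3 ^ dm E := vol_ball μ h1 0 (by norm_num)
  have hUs : (⋃ x ∈ X, Q x) ⊆ ball (0 : E) 3 := iUnion₂_subset hQ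
  have hU : μ.real (⋃ x ∈ X, Q x) = ∑ x ∈ X, μ.real (Q x) :=
    measureReal_biUnion_finset (fun x hx y hy h => hP.dj x hx y hy h) hP.ms
      fun x hx => fin _ (hQ x hx)
  have hsum : (X.card : ℝ) * (1 - τ) ≤ ∑ x ∈ X, μ.real (Q x) := by
    have := Finset.card_nsmul_le_sum X (fun x => μ.real (Q x)) (1 - τ) hP.big
    rwa [nsmul_eq_mul] at this
  have hD : μ.real (ball (0 : E) 3 \ ⋃ x ∈ X, Q x) = 3 ^ dm E - ∑ x ∈ X, μ.real (Q x) := by
    rw [measureReal_sdiff hUs (Finset.measurableSet_biUnion X hP.ms) (fin _ Subset.rfl), h3, hU]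
  have hcs : closedBall (0 : E) (3 - η) ⊆ ball 0 3 := closedBall_subset_ball (by linarith)
  have hC : μ.real (ball (0 : E) 3 \ closedBall 0 (3 - η)) = 3 ^ dm E - (3 - η) ^ dm E := by
    rw [measureReal_sdiff hcs measurableSet_closedBall (fin _ Subset.rfl), h3,
      vol_cball μ h1 0 (by linarith)]
  have hcov : ball (0 : E) 3 \ closedBall 0 (3 - η) ⊆ (ball (0 : E) 3 \ ⋃ x ∈ X, Q x) ∪
      ⋃ x ∈ X, (fun z => -((2 : ℝ) • x) + z) ⁻¹' Wx x η := by
    intro z hz
    by_cases h : z ∈ ⋃ x ∈ X, Q x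
    · obtain ⟨x, hx, hzx⟩ := mem_iUnion₂.1 h
      refine Or.inr (mem_iUnion₂.2 ⟨x, hx, ?_, ?_⟩)
      · have := hP.sub x hx hzx
        rw [mem_ball, dist_eq_norm] at this
        rw [mem_ball, dist_zero_right]
        exact (congrArg norm (neg_add_eq_sub _ _)).trans_lt this
      · have := hz.2
        rw [mem_closedBall, dist_zero_right, not_le] at this
        simpa using this
    · exact Or.inl ⟨hz.1, h⟩
  have hW : ∀ x : E, μ ((fun z => -((2 : ℝ) • x) + z) ⁻¹' Wx x η) = μ (Wx x η) := fun x =>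
    measure_preimage_add μ _ _
  have hWf : ∀ x : E, μ (Wx x η) ≠ ⊤ := fun x =>
    ((measure_mono inter_subset_left).trans_lt measure_ball_lt_top).ne
  have hB : μ.real (⋃ x ∈ X, (fun z => -((2 : ℝ) • x) + z) ⁻¹' Wx x η) ≤
      ∑ x ∈ X, μ.real (Wx x η) := by
    refine (measureReal_biUnion_finset_le X _).trans (le_of_eq ?_)
    exact Finset.sum_congr rfl fun x _ => by rw [Measure.real, hW, Measure.real]
  have hBf : μ (⋃ x ∈ X, (fun z => -((2 : ℝ) • x) + z) ⁻¹' Wx x η) ≠ ⊤ :=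
    ((measure_biUnion_finset_le X _).trans_lt
      (ENNReal.sum_lt_top.2 fun x _ => by rw [hW]; exact (hWf x).lt_top)).ne
  have hle := (measureReal_mono hcov (measure_union_ne_top (fin _ sdiff_subset) hBf)).trans
    (measureReal_union_le _ _)
  rw [hC, hD] at hle
  have hp : (0 : ℝ) < 3 ^ dm E := by positivity
  have hw : (3 - η) ^ dm E ≤ 3 ^ dm E * (1 - dm E * (η / 3) + (dm E * (η / 3)) ^ 2) := by
    have e : (3 - η) ^ dm E = 3 ^ dm E * (1 - η / 3) ^ dm E := by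
      rw [← mul_pow]
      congr 1
      ring
    rw [e]
    exact mul_le_mul_of_nonneg_left (wx_pow _ (by linarith) (by linarith)) hp.le
  have h5 := mul_le_mul_of_nonneg_right hc (sub_nonneg.2 hτ1)
  have h6 := mul_nonneg hp.le (sq_nonneg τ)
  nlinarith

end Pool.Agent.MP_39e5ce_co.PS

end
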