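import Pool.Agent.MP_39e5ce_co.ps.Core
import Pool.Agent.MP_39e5ce_co.ps.Sta
import Pool.Agent.MP_39e5ce_co.ps.Shl
import Pool.Agent.MP_39e5ce_co.ps.Wgt
import Pool.Agent.MP_39e5ce_co.ps.Flat
import Pool.Agent.MP_39e5ce_co.ps.EndT
import Pool.Agent.MP_39e5ce_co.ps.EndU
import Pool.Agent.MP_39e5ce_co.ps.Bbs
import Pool.Agent.MP_39e5ce_co.ps.Bas
import Pool.Agent.MP_39e5ce_co.ps.Geo
import Pool.Agent.MP_39e5ce_co.ps.Nrm
import Pool.Agent.MP_39e5ce_co.ps.Cap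
import Pool.Agent.MP_39e5ce_co.ps.Hs
import Pool.Agent.MP_39e5ce_co.ps.Star
import Pool.Agent.MP_39e5ce_co.ps.Sym
import Pool.Agent.MP_39e5ce_co.ps.Mid
import Pool.Agent.MP_39e5ce_co.ps.Crd
import Pool.Agent.MP_39e5ce_co.ps.Lo
import Pool.Agent.MP_39e5ce_co.ps.End
import Pool.Agent.MP_39e5ce_co.ps.Dig
import Pool.Agent.MP_39e5ce_co.ps.Wx
import Pool.Agent.MP_39e5ce_co.ps.Bm
import Pool.Agent.MP_39e5ce_co.ps.Slab
import Pool.Agent.MP_39e5ce_co.ps.Cv1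
import Pool.Agent.MP_39e5ce_co.ps.Cnt
import Pool.Agent.MP_39e5ce_co.ps.Maj
import Pool.Agent.MP_39e5ce_co.ps.Conc
import Pool.Agent.MP_39e5ce_co.ps.Ub

/-! Project PS: assembly. -/

open MeasureTheory Metric

namespace Pool.Agent.MP_39e5ce_co.PS

theorem stall : STALL := by
  intro F _ _ _ _ _ ν _ h1
  have c := cap ν h1
  have v := cvx ν cv1 c (slab ν h1 (bm ν) c)
  have h := hs ν h1
  exact ⟨sta ν h1 (shl ν h1 (ub ν c v h) (cnt ν) (wx ν h1)) (nrm ν h1) (bas F) (dig ν c v h)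
    (inj ν h1), h⟩

theorem all : GEO := by
  refine geo (core1 (core fun E _ _ _ _ _ μ _ h1 => ?_))
  have c := cap μ h1
  have v := cvx μ cv1 c (slab μ h1 (bm μ) c)
  exact ⟨bbs μ h1 c v (con μ h1 (bm μ) c) (hs μ h1) wgt, mid E (sym stall), star μ h1,
    (stall E μ h1).1, crd E (endd lo (endu maj) (endt maj (flat maj)))⟩

end Pool.Agent.MP_39e5ce_co.PS
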