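import Pool.Agent.MP_39e5ce_co.ps.Spec

/-! Project PS, row `CAP`: volumes of caps of the unit ball. -/

noncomputable section

open MeasureTheory Metric Set
open scoped Classical

namespace Pool.Agent.MP_39e5ce_co.PS

variable {E : Type} [NormedAddCommGroup E] [NormedSpace ℝ E] [FiniteDimensional ℝ E]
  [MeasurableSpace E] [BorelSpace E] (μ : Measure E) [μ.IsAddHaarMeasure]

/-- hyperplanes are null -/
theorem cap_null {g : E →L[ℝ] ℝ} (hg : Un g) (a : ℝ) : μ {y | g y = a} = 0 := by
  obtain ⟨-, b, -, hb⟩ := hg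
  have h0 : μ ((LinearMap.ker (g : E →ₗ[ℝ] ℝ) : Submodule ℝ E) : Set E) = 0 := by
    refine Measure.addHaar_submodule μ _ fun h => ?_
    have hm : b ∈ LinearMap.ker (g : E →ₗ[ℝ] ℝ) := h ▸ Submodule.mem_top
    have : g b = 0 := hm
    rw [hb] at this
    exact one_ne_zero this
  have e : {y | g y = a} = (fun y => -(a • b) + y) ⁻¹'
      ((LinearMap.ker (g : E →ₗ[ℝ] ℝ) : Submodule ℝ E) : Set E) := by
    ext y
    simp only [mem_ofPred_eq, mem_preimage, SetLike.mem_coe, LinearMap.mem_ker,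
      ContinuousLinearMap.coe_coe, map_add, map_neg, map_smul, hb, smul_eq_mul, mul_one]
    constructor <;> intro h <;> linarith
  rw [e, measure_preimage_add, h0]

omit [FiniteDimensional ℝ E] in
theorem cap_ms (g : E →L[ℝ] ℝ) (a : ℝ) : MeasurableSet {y | a < g y} :=
  (isOpen_lt continuous_const g.continuous).measurableSet

omit [BorelSpace E] in
theorem cap_fin (S : Set E) : μ (ball 0 1 ∩ S) ≠ ⊤ :=
  ((measure_mono inter_subset_left).trans_lt measure_ball_lt_top).ne

theorem cap_neg (h1 : μ (ball 0 1) = 1) {g : E →L[ℝ] ℝ} (hg : Un g) (a : ℝ) :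
    T μ g (-a) = 1 - T μ g a := by
  have e1 : ball (0 : E) 1 ∩ {y | -a < g y} = Neg.neg ⁻¹' (ball (0 : E) 1 ∩ {y | g y < a}) := by
    ext y
    simp only [mem_inter_iff, mem_ball_zero_iff, mem_ofPred_eq, mem_preimage, norm_neg, map_neg]
    constructor <;> rintro ⟨h, h'⟩ <;> exact ⟨h, by linarith⟩
  have e2 : T μ g (-a) = μ.real (ball (0 : E) 1 ∩ {y | g y < a}) := by
    rw [T, e1, Measure.real, Measure.real, Measure.measure_preimage_neg]
  have e3 : μ.real (ball (0 : E) 1 ∩ {y | g y < a}) = μ.real (ball (0 : E) 1 \ {y | a < g y}) := by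
    refine measureReal_congr ?_
    have hn : ∀ᵐ y ∂μ, g y ≠ a := by
      rw [ae_iff]
      simpa using cap_null μ hg a
    filter_upwards [hn] with y hy
    refine propext ?_
    change (y ∈ ball (0 : E) 1 ∧ g y < a) ↔ (y ∈ ball (0 : E) 1 ∧ ¬ a < g y)
    exact and_congr_right fun _ => ⟨fun h => not_lt.2 h.le, fun h => lt_of_le_of_ne (not_lt.1 h) hy⟩
  have e4 := measureReal_inter_add_sdiff (μ := μ) (s := ball (0 : E) 1) (cap_ms g a)
    measure_ball_lt_top.ne
  have e5 : μ.real (ball (0 : E) 1) = 1 := by rw [Measure.real, h1, ENNReal.toReal_one]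
  rw [e2, e3, T]
  linarith

theorem cap_low {g : E →L[ℝ] ℝ} (hg : Un g) {a : ℝ} (h0 : 0 ≤ a) (ha : a < 1) :
    (1 - a) ^ dm E * T μ g 0 ≤ T μ g a := by
  obtain ⟨-, b, hb1, hb⟩ := hg
  have hp : 0 < 1 - a := by linarith
  have hs : AffineMap.homothety b (1 - a) '' (ball (0 : E) 1 ∩ {y | 0 < g y}) ⊆
      ball (0 : E) 1 ∩ {y | a < g y} := by
    rintro _ ⟨y, ⟨hy, hy'⟩, rfl⟩
    have e : AffineMap.homothety b (1 - a) y = (1 - a) • y + a • b := by
      rw [AffineMap.homothety_apply, vsub_eq_sub, vadd_eq_add, smul_sub, sub_smul (1 : ℝ) a b,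
        one_smul]
      abel
    rw [e]
    have hy1 : ‖y‖ < 1 := mem_ball_zero_iff.1 hy
    have hy2 : 0 < g y := hy'
    constructor
    · rw [mem_ball_zero_iff]
      refine (norm_add_le _ _).trans_lt ?_
      rw [norm_smul, norm_smul, Real.norm_of_nonneg hp.le, Real.norm_of_nonneg h0, hb1]
      nlinarith
    · change a < g ((1 - a) • y + a • b)
      rw [map_add, map_smul, map_smul, hb, smul_eq_mul, smul_eq_mul]
      nlinarith
  have hm := measureReal_mono hs (cap_fin μ _)
  rw [Measure.real, Measure.addHaar_image_homothety, ENNReal.toReal_mul,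
    ENNReal.toReal_ofReal (abs_nonneg _), abs_of_nonneg (pow_nonneg hp.le _)] at hm
  exact hm

theorem cap (h1 : μ (ball 0 1) = 1) : CAP μ := by
  intro g hg
  have z : T μ g 0 = 1 / 2 := by
    have := cap_neg μ h1 hg 0
    rw [neg_zero] at this
    linarith
  have nn : ∀ a, 0 ≤ T μ g a := fun a => measureReal_nonneg
  refine ⟨z, cap_neg μ h1 hg, fun a a' h => ?_, nn, fun a ha => ?_, fun a h0 ha => ?_,
    fun c s => ?_⟩
  · exact measureReal_mono (inter_subset_inter_right _ fun y (hy : a' < g y) => h.trans_lt hy)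
      (cap_fin μ _)
  · have : ball (0 : E) 1 ∩ {y | a < g y} = ∅ := by
      refine eq_empty_of_forall_notMem fun y ⟨hy, hy'⟩ => ?_
      have hy1 : ‖y‖ < 1 := mem_ball_zero_iff.1 hy
      have hy2 : a < g y := hy'
      have := (le_abs_self _).trans (hg.1 y)
      linarith
    rw [T, this, measureReal_empty]
  · rcases ha.eq_or_lt with rfl | ha
    · rw [sub_self, zero_pow (by have := hg.one_le; omega), zero_div]
      exact nn _
    · have := cap_low μ hg h0 ha
      rw [z] at this
      linarith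
  · have e : ball (0 : E) 1 ∩ {y | s - g c < g y} =
        (fun y => c + y) ⁻¹' (ball c 1 ∩ {z | s < g z}) := by
      ext y
      simp only [mem_inter_iff, mem_ball, mem_ofPred_eq, mem_preimage, map_add, dist_zero_right,
        dist_self_add_left]
      constructor <;> rintro ⟨h, h'⟩ <;> exact ⟨h, by linarith⟩
    rw [T, e, Measure.real, Measure.real, measure_preimage_add]

end Pool.Agent.MP_39e5ce_co.PS

end
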