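import Pool.Agent.MP_39e5ce_co.ps.Spec

/-! Project PS: the steps put together in one space, and the normalisation of the functional. -/

noncomputable section

open MeasureTheory Metric Set
open scoped Classical

namespace Pool.Agent.MP_39e5ce_co.PS

variable {E : Type} [NormedAddCommGroup E] [NormedSpace ℝ E] [FiniteDimensional ℝ E]
  [MeasurableSpace E] [BorelSpace E] (μ : Measure E) [μ.IsAddHaarMeasure]

omit [FiniteDimensional ℝ E] [BorelSpace E] [μ.IsAddHaarMeasure] in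
theorem core_gen (hB : BBS μ) (hM : MID E) (hS : STAR μ) (hT : ST μ) (hC : CRD E)
    (φ : E →L[ℝ] ℝ) (X : Finset E) (h2 : 2 ≤ dm E) (hφ : Un φ) (hX : Cfg φ X)
    {e t ε τ δ : ℝ} (e0 : 0 < e) (e1 : 1000 * (dm E : ℝ) ^ 3 * e ≤ 1) (t0 : 0 < t)
    (t1 : t ≤ e ^ 14) (t2 : t ≤ e) (ε0 : 0 < ε) (ε1 : 1000 * (dm E : ℝ) ^ 3 * ε ≤ t) (τ0 : 0 < τ)
    (τ1 : 1000 * dm E * τ ≤ ε ^ 14) (τ2 : 1000 * dm E * τ ≤ ε) (δ0 : 0 < δ)
    (δ1 : 1000 * dm E * δ ≤ τ ^ 3)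
    (hc : (1 - δ) * (2 * (3 ^ dm E / 3)) ≤ X.card) : False := by
  have n2 : (2 : ℝ) ≤ dm E := by exact_mod_cast h2
  have n3 : (dm E : ℝ) ≤ (dm E : ℝ) ^ 3 := le_self_pow₀ (by linarith) (by norm_num)
  have n8 : 8 ≤ (dm E : ℝ) ^ 3 :=
    le_trans (by norm_num) (pow_le_pow_left₀ (by norm_num : (0 : ℝ) ≤ 2) n2 3)
  have a1 : 1000 * (dm E : ℝ) * e ≤ 1 := by nlinarith [mul_le_mul_of_nonneg_right n3 e0.le]
  have a2 : 8000 * e ≤ 1 := by nlinarith [mul_le_mul_of_nonneg_right n8 e0.le]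
  have a3 : 8000 * ε ≤ t := by nlinarith [mul_le_mul_of_nonneg_right n8 ε0.le]
  have a4 : 2 * τ ≤ dm E * τ := mul_le_mul_of_nonneg_right n2 τ0.le
  have a5 : 0 ≤ (dm E : ℝ) * δ := by positivity
  have N0 : (0 : ℝ) < 3 ^ dm E / 3 := by positivity
  obtain ⟨N, hN⟩ : ∃ N : ℝ, N = 3 ^ dm E / 3 := ⟨_, rfl⟩
  have hN3 : (3 : ℝ) ^ dm E = 3 * N := by rw [hN]; ring
  obtain ⟨M, U, MX, UX, MU, hM1, hU1, cM, cMU⟩ := hB φ X τ δ hφ hX τ0 (by linarith) δ0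
    (by linarith) hc
  have hMc : Cfg φ M := ⟨fun x hx => hX.nm x (MX hx), fun x hx y hy => hX.sep x (MX hx) y (MX hy),
    fun x hx => hX.nn x (MX hx), fun x hx => hX.pos x (MX hx)⟩
  obtain ⟨uM, M', M'M, cM', hsym⟩ := hM φ M ε τ h2 hφ hMc hM1 ε0 (by linarith) τ0.le
    (by linarith) cM
  have r1 : (dm E : ℝ) ^ 2 * ε ≤ (dm E : ℝ) ^ 3 * ε :=
    mul_le_mul_of_nonneg_right (pow_le_pow_right₀ (by linarith) (by norm_num)) ε0.le
  have r2 : 0 ≤ (dm E : ℝ) ^ 3 * ε := by positivity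
  obtain ⟨Z, Q, hP, cZ, M'Z, hZ⟩ := hS φ X M M' U t (200 * (dm E : ℝ) ^ 2 * ε) hX MX UX MU M'M
    hsym (fun u hu => ⟨(hU1 u hu).1, by linarith [(hU1 u hu).2]⟩) (by positivity)
    (by linarith) (by linarith)
  have cZ' : (Z.card : ℝ) = M'.card + 2 * U.card := by exact_mod_cast cZ
  rw [← hN] at N0 cM cMU uM cM'
  have b1 : (1 - t) * 3 ^ dm E ≤ Z.card := by
    have : (2 * ε + 2 * τ + 8 * (dm E * τ)) * N ≤ 3 * t * N :=
      mul_le_mul_of_nonneg_right (by linarith) N0.le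
    rw [hN3, cZ']
    linarith
  obtain ⟨g, Z', v, g1, g2, Z'Z, cZ2, hinj, hnear⟩ := hT e t Z Q (by omega) e0 e1 t0.le t1 hP b1
  have c1 : (M'.card : ℝ) + Z'.card ≤ (M' ∩ Z').card + Z.card := by
    have := Finset.card_union_add_card_inter M' Z'
    have := Finset.card_le_card (Finset.union_subset M'Z Z'Z)
    exact_mod_cast (by omega : M'.card + Z'.card ≤ (M' ∩ Z').card + Z.card)
  have u1 : 8000 * e * N ≤ 1 * N := mul_le_mul_of_nonneg_right a2 N0.le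
  have u2 : t * N ≤ e * N := mul_le_mul_of_nonneg_right t2 N0.le
  have u3 : 8000 * ε * N ≤ t * N := mul_le_mul_of_nonneg_right a3 N0.le
  refine hC φ X Z' (M' ∩ Z') g v e h2 hφ hX e0.le a1 g1 (fun z hz => ?_) hinj hnear
    (fun z hz => hZ z (Z'Z hz)) Finset.inter_subset_right (fun x hx => ?_) ?_ ?_
  · simpa using g2 z 0 fun i => by simp [hz i]
  · have hx' := M'M (Finset.mem_inter.1 hx).1
    exact ⟨MX hx', by linarith [hM1 x hx']⟩
  · have : (999 : ℝ) * 3 ^ dm E ≤ 1000 * Z'.card := by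
      rw [hN3] at b1 cZ2 ⊢
      linarith
    exact_mod_cast this
  · have : (999 : ℝ) * 3 ^ dm E ≤ 3000 * (M' ∩ Z').card := by
      rw [hN3] at cZ2 ⊢
      linarith
    exact_mod_cast this

omit [FiniteDimensional ℝ E] [BorelSpace E] [μ.IsAddHaarMeasure] in
theorem core_at (hB : BBS μ) (hM : MID E) (hS : STAR μ) (hT : ST μ) (hC : CRD E)
    (φ : E →L[ℝ] ℝ) (X : Finset E) (h2 : 2 ≤ dm E) (hφ : Un φ) (hX : Cfg φ X) {e : ℝ}
    (e0 : 0 < e) (e1 : 1000 * (dm E : ℝ) ^ 3 * e ≤ 1)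
    (hc : (1 - e ^ 634) * (2 * (3 ^ dm E / 3)) ≤ X.card) : False := by
  have n2 : (2 : ℝ) ≤ dm E := by exact_mod_cast h2
  have n3 : (dm E : ℝ) ≤ (dm E : ℝ) ^ 3 := le_self_pow₀ (by linarith) (by norm_num)
  have a1 : 1000 * (dm E : ℝ) * e ≤ 1 := by nlinarith [mul_le_mul_of_nonneg_right n3 e0.le]
  have e1' : e ≤ 1 := by nlinarith [mul_le_mul_of_nonneg_right n2 e0.le]
  have pw : ∀ {i j : ℕ}, i ≤ j → e ^ j ≤ e ^ i := fun h => pow_le_pow_of_le_one e0.le e1' h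
  have st : ∀ {c : ℝ}, c * e ≤ 1 → ∀ j : ℕ, c * e ^ (j + 1) ≤ e ^ j := fun h j => by
    rw [pow_succ' e, ← mul_assoc]
    exact mul_le_of_le_one_left (pow_pos e0 j).le h
  refine core_gen μ hB hM hS hT hC φ X h2 hφ hX e0 e1 (t := e ^ 14) (ε := e ^ 15) (τ := e ^ 211)
    (pow_pos e0 _) le_rfl ((pw (by norm_num)).trans_eq (pow_one e)) (pow_pos e0 _) (st e1 14)
    (pow_pos e0 _) ?_ ((st a1 210).trans (pw (by norm_num))) (pow_pos e0 _) ?_ hc
  · rw [← pow_mul]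
    exact st a1 210
  · rw [← pow_mul]
    exact st a1 633

theorem core
    (h : ∀ (E : Type) [NormedAddCommGroup E] [NormedSpace ℝ E] [FiniteDimensional ℝ E]
      [MeasurableSpace E] [BorelSpace E] (μ : Measure E) [μ.IsAddHaarMeasure],
      μ (ball 0 1) = 1 → BBS μ ∧ MID E ∧ STAR μ ∧ ST μ ∧ CRD E) : CORE := by
  intro E _ _ _ φ X h2 hφ hX
  borelize E
  obtain ⟨μ, _, h1⟩ := ex_haar (E := E)
  obtain ⟨a, b, c, d, f⟩ := h E μ h1
  have n2 : (2 : ℝ) ≤ dm E := by exact_mod_cast h2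
  by_contra hc
  refine core_at μ a b c d f φ X h2 hφ hX (e := 1 / (1000 * (dm E : ℝ) ^ 3)) (by positivity)
    (le_of_eq (by field_simp)) (le_trans ?_ (not_le.1 hc).le)
  have e3 : (3 : ℝ) ^ dm E / 3 = 3 ^ (dm E - 1) := by
    conv_lhs => rw [show dm E = dm E - 1 + 1 by omega, pow_succ]
    ring
  rw [e3, one_div_pow]

theorem core1 (h : CORE) : CORE1 := by
  intro E _ _ _ φ X h2 h0 a1 a2 a3
  let f : E →L[ℝ] ℝ := LinearMap.toContinuousLinearMap φ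
  have : Nontrivial E := Module.nontrivial_of_finrank_pos (R := ℝ) (by change 0 < dm E; omega)
  obtain ⟨b, hb, hm⟩ := (isCompact_sphere (0 : E) 1).exists_isMaxOn
    (NormedSpace.sphere_nonempty.2 zero_le_one) f.continuous.continuousOn
  have b1 : ‖b‖ = 1 := by simpa using hb
  have key : ∀ y, f y ≤ f b * ‖y‖ := fun y => by
    by_cases hy : y = 0
    · simp [hy]
    have p : 0 < ‖y‖ := norm_pos_iff.2 hy
    have := hm (show ‖y‖⁻¹ • y ∈ sphere (0 : E) 1 by simp [norm_smul, p.ne'])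
    simp only [mem_ofPred_eq, map_smul, smul_eq_mul] at this
    rwa [inv_mul_le_iff₀ p, mul_comm] at this
  have ab : ∀ y, |f y| ≤ f b * ‖y‖ := fun y =>
    abs_le.2 ⟨by have := key (-y); rw [map_neg, norm_neg] at this; linarith, key y⟩
  have p : 0 < f b := by
    by_contra hn
    refine h0 (LinearMap.ext fun y => ?_)
    have := (ab y).trans (mul_nonpos_of_nonpos_of_nonneg (not_lt.1 hn) (norm_nonneg y))
    exact abs_nonpos_iff.1 this
  have ps : ∀ x ∈ X, x ≠ 0 → 0 < ((f b)⁻¹ • f) x := fun x hx h0 =>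
    mul_pos (inv_pos.2 p) (a3 x hx h0)
  refine h E ((f b)⁻¹ • f) X h2 ⟨fun y => ?_, b, b1, inv_mul_cancel₀ p.ne'⟩
    ⟨a1, a2, fun x hx => ?_, ps⟩
  · change |(f b)⁻¹ * f y| ≤ _
    rw [abs_mul, abs_of_pos (inv_pos.2 p), inv_mul_le_iff₀ p]
    exact ab y
  · by_cases h0 : x = 0
    · simp [h0]
    · exact (ps x hx h0).le

end Pool.Agent.MP_39e5ce_co.PS

end
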