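import Pool.Agent.MP_39e5ce_co.ps.Spec

/-! Project PS: an antitone function with decreasing decrements is convex. -/

noncomputable section

open Set

namespace Pool.Agent.MP_39e5ce_co.PS

theorem cv1 : CV1 := by
  intro f hf hs
  refine convexOn_of_slope_mono_adjacent (convex_Ici 0) fun {x y z} hx _ hxy hyz => ?_
  have hx0 : 0 ≤ x := hx
  have hA : 0 ≤ f x - f y := sub_nonneg.2 (hf hxy.le)
  have lo : ∀ h : ℝ, 0 < h → ∀ k : ℕ, x + k * h ≤ y →
      k * (f y - f (y + h)) ≤ f x - f (x + k * h) := by
    intro h hh k
    induction k with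
    | zero => simp
    | succ k ih =>
      intro hk
      push_cast at hk ⊢
      have h1 : x + k * h ≤ y := by linarith
      have h2 := hs (x + k * h) y h (by positivity) h1 hh
      rw [show x + (k + 1) * h = x + k * h + h by ring]
      linarith [ih h1]
  have up : ∀ h : ℝ, 0 < h → ∀ m : ℕ, f y - f (y + m * h) ≤ m * (f y - f (y + h)) := by
    intro h hh m
    induction m with
    | zero => simp
    | succ m ih =>
      push_cast
      have h2 := hs y (y + m * h) h (by linarith) (le_add_of_nonneg_right (by positivity)) hh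
      rw [show y + (m + 1) * h = y + m * h + h by ring]
      linarith
  have hd : 0 < y - x := by linarith
  have he : 0 < z - y := by linarith
  have key : f y - f z ≤ (z - y) / (y - x) * (f x - f y) := by
    refine le_of_forall_pos_le_add fun ε hε => ?_
    obtain ⟨k, hk⟩ := exists_nat_gt ((f x - f y) / ε)
    have hk0 : (0 : ℝ) < k := lt_of_le_of_lt (by positivity) hk
    have hh : 0 < (y - x) / k := by positivity
    have e1 : x + k * ((y - x) / k) = y := by field_simp; ring
    have h1 := lo _ hh k e1.le
    rw [e1] at h1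
    have hD : 0 ≤ f y - f (y + (y - x) / k) := sub_nonneg.2 (hf (by linarith))
    have h2 := up _ hh ⌈(z - y) / ((y - x) / k)⌉₊
    have h3 := Nat.le_ceil ((z - y) / ((y - x) / k))
    have h4 := (Nat.ceil_lt_add_one (by positivity : 0 ≤ (z - y) / ((y - x) / k))).le
    rw [div_le_iff₀ hh] at h3
    have h5 := hf (show z ≤ y + ⌈(z - y) / ((y - x) / k)⌉₊ * ((y - x) / k) by linarith)
    have h6 := mul_le_mul_of_nonneg_right h4 hD
    have e2 : (z - y) / ((y - x) / k) = (z - y) / (y - x) * k := by field_simp
    rw [e2] at h6 h2 h5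
    have h7 := mul_le_mul_of_nonneg_left h1 (div_pos he hd).le
    rw [div_lt_iff₀ hε] at hk
    have h8 : f y - f (y + (y - x) / k) ≤ ε := le_of_mul_le_mul_left (by linarith) hk0
    linarith
  rw [div_le_div_iff₀ hd he]
  rw [div_mul_eq_mul_div, le_div_iff₀ hd] at key
  linarith

end Pool.Agent.MP_39e5ce_co.PS

end
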