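import Pool.Agent.MP_39e5ce_co.nc.Round

/-!
Project PS: a polynomial gap in the open one-sided Hadwiger bound. Statements of the steps.
Tiles are the open unit balls around `2 x`, the container is the ball of radius `3`.
-/

noncomputable section

open MeasureTheory Metric Set
open scoped Classical

namespace Pool.Agent.MP_39e5ce_co.PS

open Pool.Agent.MP_39e5ce_co.NC (pt)

/-- the dimension -/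
abbrev dm (E : Type) [NormedAddCommGroup E] [NormedSpace ℝ E] : ℕ := Module.finrank ℝ E

section defs

variable {E : Type} [NormedAddCommGroup E] [NormedSpace ℝ E]

/-- functional of norm at most one -/
def Sh (g : E →L[ℝ] ℝ) : Prop := ∀ y, |g y| ≤ ‖y‖

/-- functional of norm one, attained -/
def Un (g : E →L[ℝ] ℝ) : Prop := Sh g ∧ ∃ b, ‖b‖ = 1 ∧ g b = 1

/-- number of centres that are flush with `g` -/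
def cn (g : E →L[ℝ] ℝ) (X : Finset E) (η : ℝ) : ℕ := (X.filter fun x => 1 - η ≤ g x).card

/-- the part of the tile of `x` in the outer shell of the container -/
def Wx (x : E) (η : ℝ) : Set E := ball 0 1 ∩ {y | 3 - η < ‖(2 : ℝ) • x + y‖}

/-- open one-sided configuration (the origin is allowed) -/
structure Cfg (φ : E →L[ℝ] ℝ) (X : Finset E) : Prop where
  nm : ∀ x ∈ X, ‖x‖ ≤ 1
  sep : ∀ x ∈ X, ∀ y ∈ X, x ≠ y → 1 ≤ ‖x - y‖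
  nn : ∀ x ∈ X, 0 ≤ φ x
  pos : ∀ x ∈ X, x ≠ 0 → 0 < φ x

variable [MeasurableSpace E]

/-- volume of a cap of the unit ball -/
def T (μ : Measure E) (g : E →L[ℝ] ℝ) (a : ℝ) : ℝ := μ.real (ball 0 1 ∩ {y | a < g y})

/-- disjoint pieces that almost fill their tiles -/
structure Pack (μ : Measure E) (τ : ℝ) (X : Finset E) (Q : E → Set E) : Prop where
  nm : ∀ x ∈ X, ‖x‖ ≤ 1
  ms : ∀ x ∈ X, MeasurableSet (Q x)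
  sub : ∀ x ∈ X, Q x ⊆ ball ((2 : ℝ) • x) 1
  dj : ∀ x ∈ X, ∀ y ∈ X, x ≠ y → Disjoint (Q x) (Q y)
  big : ∀ x ∈ X, 1 - τ ≤ μ.real (Q x)

def BM (μ : Measure E) : Prop :=
  ∀ (A B C : Set E) (l a b : ℝ), 1 ≤ dm E → 0 < l → l < 1 → 0 < a → 0 < b → MeasurableSet A →
    MeasurableSet B → MeasurableSet C → μ A = ENNReal.ofReal (a ^ dm E) →
    μ B = ENNReal.ofReal (b ^ dm E) → (∀ x ∈ A, ∀ y ∈ B, (1 - l) • x + l • y ∈ C) →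
    ENNReal.ofReal (((1 - l) * a + l * b) ^ dm E) ≤ μ C

def CAP (μ : Measure E) : Prop :=
  ∀ g : E →L[ℝ] ℝ, Un g → T μ g 0 = 1 / 2 ∧ (∀ a, T μ g (-a) = 1 - T μ g a) ∧
    Antitone (T μ g) ∧ (∀ a, 0 ≤ T μ g a) ∧ (∀ a, 1 ≤ a → T μ g a = 0) ∧
    (∀ a, 0 ≤ a → a ≤ 1 → (1 - a) ^ dm E / 2 ≤ T μ g a) ∧
    ∀ (c : E) (s : ℝ), μ.real (ball c 1 ∩ {z | s < g z}) = T μ g (s - g c)

def SLAB (μ : Measure E) : Prop :=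
  ∀ g : E →L[ℝ] ℝ, Un g → ∀ a a' w : ℝ, 0 ≤ a → a ≤ a' → 0 < w →
    T μ g a' - T μ g (a' + w) ≤ T μ g a - T μ g (a + w)

def CVX (μ : Measure E) : Prop :=
  ∀ g : E →L[ℝ] ℝ, Un g → (∀ a, 0 ≤ a → a ≤ 1 → T μ g a ≤ (1 - a) / 2) ∧
    ∀ w, 0 ≤ w → w ≤ 1 / 3 → T μ g (2 / 3) - 1 / 6 + w / 3 ≤ T μ g (1 - w)

def CON (μ : Measure E) : Prop :=
  ∀ g : E →L[ℝ] ℝ, Un g → ConcaveOn ℝ (Ico 0 1) fun a => T μ g a ^ ((1 : ℝ) / dm E)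

def HS (μ : Measure E) : Prop :=
  ∀ (τ : ℝ) (X : Finset E) (Q : E → Set E), Pack μ τ X Q →
    (X.card : ℝ) * (1 - τ) ≤ 3 ^ dm E ∧
    ∀ g : E →L[ℝ] ℝ, ∀ Y ⊆ X,
      (∀ s : ℝ, ∑ x ∈ Y, (T μ g (s - 2 * g x) - τ) ≤ 3 ^ dm E * T μ g (s / 3)) ∧
      ∀ s s' : ℝ, s' ≤ s → ∑ x ∈ Y, (T μ g (s' - 2 * g x) - T μ g (s - 2 * g x) - τ) ≤
        3 ^ dm E * (T μ g (s' / 3) - T μ g (s / 3))

def INJ (μ : Measure E) : Prop :=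
  ∀ (τ : ℝ) (X : Finset E) (Q : E → Set E), Pack μ τ X Q → τ ≤ 1 / 8 →
    ∀ x ∈ X, ∀ y ∈ X, x ≠ y → 1 ≤ 2 * dm E * ‖x - y‖

def UB (μ : Measure E) : Prop :=
  ∀ (τ η : ℝ) (X : Finset E) (Q : E → Set E) (g : E →L[ℝ] ℝ), Pack μ τ X Q → Un g → 0 ≤ η →
    0 ≤ τ → dm E * η + τ ≤ 1 / 4 → (cn g X η : ℝ) ≤ 3 ^ dm E / 3 * (1 + 4 * (dm E * η + τ))

def DIG (μ : Measure E) : Prop :=
  ∀ (τ η β ε : ℝ) (X : Finset E) (Q : E → Set E) (g : E →L[ℝ] ℝ), Pack μ τ X Q → Un g →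
    0 ≤ η → 0 ≤ τ → 0 ≤ β → 0 < ε → ε ≤ 1 / 6 → β + dm E * η + 4 * τ ≤ ε →
    (1 - β) * (3 ^ dm E / 3) ≤ cn g X η →
    ((X.filter fun x => ε < g x ∧ g x < 1 - η).card : ℝ) * ε ≤ 3 ^ dm E * (β + η + τ)

def CNT (μ : Measure E) : Prop :=
  ∀ (X : Finset E) (G : E → Set E) (S : Set E) (K K' : ℝ), MeasurableSet S → μ S ≠ ⊤ →
    (∀ x ∈ X, MeasurableSet (G x) ∧ G x ⊆ S) → K' ≤ K →
    (∀ y ∈ S, ((X.filter fun x => y ∈ G x).card : ℝ) ≤ K) →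
    ∃ B ⊆ S, (∀ y ∈ S, y ∉ B → K' ≤ (X.filter fun x => y ∈ G x).card) ∧
      (K - K') * μ.real B ≤ K * μ.real S - ∑ x ∈ X, μ.real (G x)

def WX (μ : Measure E) : Prop :=
  ∀ (τ η : ℝ) (X : Finset E) (Q : E → Set E), Pack μ τ X Q → 0 ≤ τ → τ ≤ 1 →
    (1 - τ) * 3 ^ dm E ≤ X.card → 0 < η → η ≤ 1 →
    3 ^ dm E / 3 * (dm E * η * (1 - dm E * η / 3) - 6 * τ) ≤ ∑ x ∈ X, μ.real (Wx x η)

def SH (μ : Measure E) : Prop :=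
  ∀ (τ η θ β : ℝ) (X : Finset E) (Q : E → Set E), 1 ≤ dm E → Pack μ τ X Q → 0 ≤ τ →
    (1 - τ) * 3 ^ dm E ≤ X.card → 0 < η → η ≤ θ → dm E * θ ≤ 1 / 2 → 0 < β →
    dm E * (η / θ) + τ ≤ 1 / 4 →
    ∃ B ⊆ ball (0 : E) 1, β * μ.real B ≤
        dm E * η * (4 * (dm E * (η / θ) + τ) + dm E * θ + dm E * η / 3) + 6 * τ ∧
      ∀ y : E, 1 - η < ‖y‖ → ‖y‖ < 1 → y ∉ B → ∀ g : E →L[ℝ] ℝ, Sh g → g y = ‖y‖ →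
        (1 - β) * (3 ^ dm E / 3) ≤ cn g X (η / θ)

def NRM (μ : Measure E) : Prop :=
  ∀ (η : ℝ) (B : Set E) (u : E), 0 < η → dm E * η ≤ 1 / 2 → ‖u‖ = 1 → B ⊆ ball 0 1 →
    μ.real B < η / 16 → ∃ y : E, 1 - η < ‖y‖ ∧ ‖y‖ < 1 ∧ y ∉ B ∧ -y ∉ B ∧
      ∀ g : E →L[ℝ] ℝ, Sh g → g y = ‖y‖ → 1 ≤ 24 * dm E * g u

/-- the structure theorem: almost all centres have digits -/
def ST (μ : Measure E) : Prop :=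
  ∀ (ε τ : ℝ) (X : Finset E) (Q : E → Set E), 1 ≤ dm E → 0 < ε →
    1000 * (dm E : ℝ) ^ 3 * ε ≤ 1 → 0 ≤ τ → τ ≤ ε ^ 14 → Pack μ τ X Q →
    (1 - τ) * 3 ^ dm E ≤ X.card →
    ∃ (g : Fin (dm E) → E →L[ℝ] ℝ) (X' : Finset E) (v : E → Fin (dm E) → SignType),
      (∀ i, Sh (g i)) ∧ (∀ (z : E) (s : ℝ), (∀ i, |g i z| ≤ s) → ‖z‖ ≤ 48 * (dm E : ℝ) ^ 2 * s) ∧
      X' ⊆ X ∧ (X.card : ℝ) ≤ X'.card + ε / 2 * 3 ^ dm E ∧ InjOn v X' ∧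
      ∀ x ∈ X', ∀ i, |g i x - (v x i : ℝ)| ≤ ε

def BBS (μ : Measure E) : Prop :=
  ∀ (φ : E →L[ℝ] ℝ) (X : Finset E) (τ δ : ℝ), Un φ → Cfg φ X → 0 < τ → τ ≤ 1 / 2 → 0 < δ →
    14 * dm E * δ ≤ τ ^ 3 → (1 - δ) * (2 * (3 ^ dm E / 3)) ≤ X.card →
    ∃ M U : Finset E, M ⊆ X ∧ U ⊆ X ∧ Disjoint M U ∧ (∀ x ∈ M, φ x ≤ τ) ∧
      (∀ u ∈ U, 0 < φ u ∧ 1 - τ ≤ μ.real (ball ((2 : ℝ) • u) 1 ∩ {z | 0 < φ z})) ∧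
      (1 - 4 * τ) * (3 ^ dm E / 3) ≤ M.card ∧ (2 - τ) * (3 ^ dm E / 3) ≤ M.card + U.card

def STAR (μ : Measure E) : Prop :=
  ∀ (φ : E →L[ℝ] ℝ) (X M M' U : Finset E) (τ ρ : ℝ), Cfg φ X → M ⊆ X → U ⊆ X → Disjoint M U →
    M' ⊆ M → (∀ x ∈ M', ∃ x' ∈ M, ‖x + x'‖ ≤ ρ) →
    (∀ u ∈ U, 0 < φ u ∧ 1 - τ ≤ μ.real (ball ((2 : ℝ) • u) 1 ∩ {z | 0 < φ z})) →
    0 ≤ ρ → ρ ≤ 1 / 4 → 2 * dm E * ρ ≤ τ →
    ∃ (Z : Finset E) (Q : E → Set E), Pack μ τ Z Q ∧ Z.card = M'.card + 2 * U.card ∧ M' ⊆ Z ∧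
      ∀ z ∈ Z, 0 ≤ φ z → z ∈ X

end defs

def CV1 : Prop :=
  ∀ f : ℝ → ℝ, Antitone f →
    (∀ a a' w : ℝ, 0 ≤ a → a ≤ a' → 0 < w → f a' - f (a' + w) ≤ f a - f (a + w)) →
    ConvexOn ℝ (Ici 0) f

def WGT : Prop :=
  ∀ (n : ℕ) (f : ℝ → ℝ) (τ κ : ℝ), 1 ≤ n → 0 < κ → n * κ ≤ 1 / 4 → 0 < τ → τ ≤ 1 / 2 →
    f 0 = 1 / 2 → Antitone f → (∀ a, 0 ≤ f a) → (∀ a, 1 ≤ a → f a = 0) →
    (∀ a, 0 ≤ a → a ≤ 1 → (1 - a) ^ n / 2 ≤ f a) → (∀ a, 0 ≤ a → a ≤ 1 → f a ≤ (1 - a) / 2) →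
    ConcaveOn ℝ (Ico 0 1) (fun a => f a ^ ((1 : ℝ) / n)) →
    ∃ l : ℝ, 0 ≤ l ∧ (∀ a, 0 ≤ a → f a ≤ l * (f a - f (a + κ))) ∧
      (∀ a, 0 ≤ a → τ ≤ 2 * f a → 2 * f a ≤ 1 - τ →
        f a + τ ^ 2 / (4 * n) ≤ l * (f a - f (a + κ))) ∧
      l * (f 0 - f (κ / 3)) ≤ 1 / 6 + n * κ / 3

def BAS (E : Type) [NormedAddCommGroup E] [NormedSpace ℝ E] : Prop :=
  ∀ (G : Set (E →L[ℝ] ℝ)) (ν : ℝ), 0 < ν → (∀ g ∈ G, Sh g) →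
    (∀ u : E, ‖u‖ = 1 → ∃ g ∈ G, ν ≤ g u) →
    ∃ g : Fin (dm E) → E →L[ℝ] ℝ, (∀ i, g i ∈ G) ∧
      ∀ (z : E) (s : ℝ), (∀ i, |g i z| ≤ s) → ν * ‖z‖ ≤ 2 * dm E * s

/-- `ST` and `HS` in every space -/
def STALL : Prop :=
  ∀ (F : Type) [NormedAddCommGroup F] [NormedSpace ℝ F] [FiniteDimensional ℝ F]
    [MeasurableSpace F] [BorelSpace F] (ν : Measure F) [ν.IsAddHaarMeasure],
    ν (ball 0 1) = 1 → ST ν ∧ HS ν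

def SYM : Prop :=
  ∀ (F : Type) [NormedAddCommGroup F] [NormedSpace ℝ F] [FiniteDimensional ℝ F]
    (ε τ : ℝ) (Y : Finset F), 1 ≤ dm F → 0 < ε → 1000 * (dm F : ℝ) ^ 3 * ε ≤ 1 → 0 ≤ τ →
    4 * dm F * τ ≤ ε ^ 14 → (∀ y ∈ Y, ‖y‖ ≤ 1) →
    (∀ y ∈ Y, ∀ y' ∈ Y, y ≠ y' → 1 - 2 * τ ≤ ‖y - y'‖) → (1 - 4 * τ) * 3 ^ dm F ≤ Y.card →
    (Y.card : ℝ) ≤ (1 + 4 * dm F * τ) * 3 ^ dm F ∧
      ∃ Y' ⊆ Y, (1 - 2 * ε) * 3 ^ dm F ≤ Y'.card ∧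
        ∀ y ∈ Y', ∃ y' ∈ Y, ‖y + y'‖ ≤ 96 * (dm F : ℝ) ^ 2 * ε

def MID (E : Type) [NormedAddCommGroup E] [NormedSpace ℝ E] : Prop :=
  ∀ (φ : E →L[ℝ] ℝ) (M : Finset E) (ε τ : ℝ), 2 ≤ dm E → Un φ → Cfg φ M → (∀ x ∈ M, φ x ≤ τ) →
    0 < ε → 1000 * (dm E : ℝ) ^ 3 * ε ≤ 1 → 0 ≤ τ → 4 * dm E * τ ≤ ε ^ 14 →
    (1 - 4 * τ) * (3 ^ dm E / 3) ≤ M.card →
    (M.card : ℝ) ≤ (1 + 4 * dm E * τ) * (3 ^ dm E / 3) ∧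
      ∃ M' ⊆ M, (1 - 2 * ε) * (3 ^ dm E / 3) ≤ M'.card ∧
        ∀ x ∈ M', ∃ x' ∈ M, ‖x + x'‖ ≤ 200 * (dm E : ℝ) ^ 2 * ε

/-- the configuration in the coordinates of the digits -/
structure En {ι : Type} [Fintype ι] (ε : ℝ) (φ : ι → ℝ) (X : Set (ι → ℝ))
    (A A0 : Finset (ι → SignType)) (p : (ι → SignType) → ι → ℝ) : Prop where
  e0 : 0 ≤ ε
  e1 : 1000 * (Fintype.card ι : ℝ) * ε ≤ 1
  two : 2 ≤ Fintype.card ι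
  ne : φ ≠ 0
  pos : ∀ x ∈ X, x ≠ 0 → 0 < φ ⬝ᵥ x
  sup : ∀ a ∈ X, ∀ b ∈ X, a ≠ b → ∃ ξ : ι → ℝ, (∀ c ∈ X, |ξ ⬝ᵥ c| ≤ 1) ∧ 1 ≤ ξ ⬝ᵥ (a - b)
  near : ∀ a ∈ A, ∀ j, |p a j - (a j : ℝ)| ≤ ε
  up : ∀ a ∈ A, 0 ≤ φ ⬝ᵥ p a → p a ∈ X
  sub : A0 ⊆ A
  mid : ∀ a ∈ A0, p a ∈ X ∧ |φ ⬝ᵥ p a| ≤ ε * ∑ j, |φ j|
  cA : 999 * 3 ^ Fintype.card ι ≤ 1000 * A.card
  cA0 : 999 * 3 ^ Fintype.card ι ≤ 3000 * A0.card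

def MAJ : Prop :=
  ∀ (ι : Type) [Fintype ι] (D : Finset (ι → SignType)) (J : Finset ι)
    (α β : ι → SignType) (σ : SignType), (σ = 1 ∨ σ = -1) → J.card ≤ 3 →
    54 * D.card < 3 ^ Fintype.card ι →
    ∃ a b : ι → SignType, a ∉ D ∧ b ∉ D ∧ (∀ j ∈ J, a j = α j ∧ b j = β j) ∧
      ∀ j ∉ J, b j = σ * a j

def LO : Prop :=
  ∀ (ι : Type) [Fintype ι] (c : ι → ℝ) (η : ℝ), 2 ≤ Fintype.card ι → (∀ j, 0 ≤ c j) → 0 ≤ η →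
    999 * 3 ^ Fintype.card ι ≤
      3000 * (Finset.univ.filter fun a : ι → SignType => |c ⬝ᵥ pt a| ≤ η).card →
    (∃ i, ∀ j, j ≠ i → c j ≤ 2 * η) ∨
      ∃ i k, i ≠ k ∧ |c i - c k| ≤ 2 * η ∧ ∀ j, j ≠ i → j ≠ k → c j ≤ 2 * η

def ENDU : Prop :=
  ∀ (ι : Type) [Fintype ι] (ε : ℝ) (φ : ι → ℝ) (X : Set (ι → ℝ)) (A A0 : Finset (ι → SignType))
    (p : (ι → SignType) → ι → ℝ), En ε φ X A A0 p → (∀ j, 0 ≤ φ j) →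
    ∀ i, (∀ j, j ≠ i → φ j ≤ 4 * ε * ∑ j, |φ j|) → False

def FLAT : Prop :=
  ∀ (ι : Type) [Fintype ι] (ε : ℝ) (X : Set (ι → ℝ)) (D : Finset (ι → SignType))
    (p : (ι → SignType) → ι → ℝ) (i k : ι), i ≠ k → 0 ≤ ε →
    1000 * (Fintype.card ι : ℝ) * ε ≤ 1 →
    (∀ a ∈ X, ∀ b ∈ X, a ≠ b → ∃ ξ : ι → ℝ, (∀ c ∈ X, |ξ ⬝ᵥ c| ≤ 1) ∧ 1 ≤ ξ ⬝ᵥ (a - b)) →
    54 * D.card < 3 ^ Fintype.card ι →
    (∀ a ∉ D, a i = 1 → ∀ s : SignType, p (Function.update a k s) ∈ X ∧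
      ∀ j, |p (Function.update a k s) j - (Function.update a k s j : ℝ)| ≤ ε) →
    ∃ G : ι → ℝ, (∀ c ∈ X, |G ⬝ᵥ c| ≤ 1) ∧ 0 < G i + G k ∧
      ∀ a ∉ D, a i = 1 → G ⬝ᵥ p (Function.update a k (-1)) = -1

def ENDT : Prop :=
  ∀ (ι : Type) [Fintype ι] (ε : ℝ) (φ : ι → ℝ) (X : Set (ι → ℝ)) (A A0 : Finset (ι → SignType))
    (p : (ι → SignType) → ι → ℝ), En ε φ X A A0 p → (∀ j, 0 ≤ φ j) →
    ∀ i k, i ≠ k → |φ i - φ k| ≤ 4 * ε * ∑ j, |φ j| →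
      (∀ j, j ≠ i → j ≠ k → φ j ≤ 4 * ε * ∑ j, |φ j|) → False

def END : Prop :=
  ∀ (ι : Type) [Fintype ι] (ε : ℝ) (φ : ι → ℝ) (X : Set (ι → ℝ)) (A A0 : Finset (ι → SignType))
    (p : (ι → SignType) → ι → ℝ), En ε φ X A A0 p → False

def CRD (E : Type) [NormedAddCommGroup E] [NormedSpace ℝ E] : Prop :=
  ∀ (φ : E →L[ℝ] ℝ) (X Z M : Finset E) (g : Fin (dm E) → E →L[ℝ] ℝ)
    (v : E → Fin (dm E) → SignType) (ε : ℝ), 2 ≤ dm E → Un φ → Cfg φ X → 0 ≤ ε →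
    1000 * (dm E : ℝ) * ε ≤ 1 → (∀ i, Sh (g i)) → (∀ z : E, (∀ i, g i z = 0) → z = 0) →
    InjOn v Z → (∀ x ∈ Z, ∀ i, |g i x - (v x i : ℝ)| ≤ ε) → (∀ z ∈ Z, 0 ≤ φ z → z ∈ X) →
    M ⊆ Z → (∀ x ∈ M, x ∈ X ∧ φ x ≤ ε) → 999 * 3 ^ dm E ≤ 1000 * Z.card →
    999 * 3 ^ dm E ≤ 3000 * M.card → False

def CORE : Prop :=
  ∀ (E : Type) [NormedAddCommGroup E] [NormedSpace ℝ E] [FiniteDimensional ℝ E]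
    (φ : E →L[ℝ] ℝ) (X : Finset E), 2 ≤ dm E → Un φ → Cfg φ X →
    (X.card : ℝ) ≤ (1 - 1 / (1000 * (dm E : ℝ) ^ 3) ^ 634) * (2 * 3 ^ (dm E - 1))

/-- the same for any nonzero functional -/
def CORE1 : Prop :=
  ∀ (E : Type) [NormedAddCommGroup E] [NormedSpace ℝ E] [FiniteDimensional ℝ E]
    (φ : E →ₗ[ℝ] ℝ) (X : Finset E), 2 ≤ dm E → φ ≠ 0 → (∀ x ∈ X, ‖x‖ ≤ 1) →
    (∀ x ∈ X, ∀ y ∈ X, x ≠ y → 1 ≤ ‖x - y‖) → (∀ x ∈ X, x ≠ 0 → 0 < φ x) →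
    (X.card : ℝ) ≤ (1 - 1 / (1000 * (dm E : ℝ) ^ 3) ^ 634) * (2 * 3 ^ (dm E - 1))

def GEO : Prop :=
  ∀ (d : ℕ) (K : Set (EuclideanSpace ℝ (Fin d))) (w : EuclideanSpace ℝ (Fin d))
    (V : Finset (EuclideanSpace ℝ (Fin d))), 2 ≤ d → IsCompact K → Convex ℝ K →
    (interior K).Nonempty → w ≠ 0 →
    (∀ v ∈ V, ∀ v' ∈ V, v ≠ v' →
      Disjoint (interior ((fun x => x + v) '' K)) (interior ((fun x => x + v') '' K))) →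
    (∀ v ∈ V, Disjoint (interior ((fun x => x + v) '' K)) (interior K) ∧
      ((fun x => x + v) '' K ∩ K).Nonempty) → (∀ v ∈ V, inner ℝ w v < 0) →
    (V.card : ℝ) + 1 ≤ (1 - 1 / (1000 * (d : ℝ) ^ 3) ^ 634) * (2 * 3 ^ (d - 1))

section basic

variable {E : Type} [NormedAddCommGroup E] [NormedSpace ℝ E] [FiniteDimensional ℝ E]
  [MeasurableSpace E] [BorelSpace E] (μ : Measure E) [μ.IsAddHaarMeasure]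

theorem vol_ball (h1 : μ (ball 0 1) = 1) (c : E) {r : ℝ} (hr : 0 < r) :
    μ.real (ball c r) = r ^ dm E := by
  rw [Measure.real, Measure.addHaar_ball_of_pos μ c hr, h1, mul_one,
    ENNReal.toReal_ofReal (by positivity)]

theorem vol_cball (h1 : μ (ball 0 1) = 1) (c : E) {r : ℝ} (hr : 0 ≤ r) :
    μ.real (closedBall c r) = r ^ dm E := by
  rw [Measure.real, Measure.addHaar_closedBall μ c hr, h1, mul_one,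
    ENNReal.toReal_ofReal (by positivity)]

omit [FiniteDimensional ℝ E] [MeasurableSpace E] [BorelSpace E] in
/-- supporting functional -/
theorem ex_sup (y : E) : ∃ g : E →L[ℝ] ℝ, Sh g ∧ g y = ‖y‖ := by
  obtain ⟨g, h1, h2⟩ := exists_dual_vector'' ℝ y
  exact ⟨g, fun z => (g.le_opNorm z).trans (mul_le_of_le_one_left (norm_nonneg z) h1), h2⟩

omit [MeasurableSpace E] [BorelSpace E] in
theorem Un.one_le {g : E →L[ℝ] ℝ} (h : Un g) : 1 ≤ dm E := by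
  obtain ⟨-, b, hb, -⟩ := h
  have : Nontrivial E := ⟨b, 0, fun h => by simp [h] at hb⟩
  exact Module.finrank_pos

omit [MeasurableSpace E] [BorelSpace E] in
/-- a normalised Haar measure on the Borel sets -/
theorem ex_haar [MeasurableSpace E] [BorelSpace E] :
    ∃ ν : Measure E, ν.IsAddHaarMeasure ∧ ν (ball 0 1) = 1 := by
  have h0 : (Measure.addHaar : Measure E) (ball 0 1) ≠ 0 :=
    (measure_ball_pos _ _ one_pos).ne'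
  have h1 : (Measure.addHaar : Measure E) (ball 0 1) ≠ ⊤ := measure_ball_lt_top.ne
  refine ⟨((Measure.addHaar : Measure E) (ball 0 1))⁻¹ • Measure.addHaar,
    Measure.IsAddHaarMeasure.smul _ (ENNReal.inv_ne_zero.2 h1) (ENNReal.inv_ne_top.2 h0), ?_⟩
  rw [Measure.smul_apply, smul_eq_mul, ENNReal.inv_mul_cancel h0 h1]

end basic

end Pool.Agent.MP_39e5ce_co.PS

end
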